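import Pool.Agent.P.MP_a89d6d_nt.Z23.Core

/-!
Definitions and algebra for the linear independence of 1, zeta(3), zeta(4) over the rationals.
The functional `L a b x K` acts on `P / (D K) ^ 2`, where `D K = (z+1)...(z+K)` and `P` has degree
at most `2 K - 2`; `x` stands for `2 a zeta(3) + 3 b zeta(4)`.
-/

namespace Pool.Agent.P.MP_a89d6d_nt.Z34

open Polynomial Finset Filter
open Pool.Agent.P.MP_a89d6d_nt.Z23 (H D W zpt cheb ach ff D_monic D_natDegree W_monic W_natDegree)

/-- The product of `k - j` over `k < K`, `k ≠ j`. -/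
def dn (K j : ℕ) : ℚ := ∏ k ∈ (range K).erase j, ((k : ℚ) - (j : ℚ))

/-- The sum of `1 / (k - j)` over `k < K`, `k ≠ j`. -/
def sg (K j : ℕ) : ℚ := H 1 (K - 1 - j) - H 1 j

/-- Coefficient of `1 / (z+j+1) ^ 2`. -/
noncomputable def cA (K : ℕ) (P : ℚ[X]) (j : ℕ) : ℚ := P.eval (-((j : ℚ) + 1)) / dn K j ^ 2

/-- Coefficient of `1 / (z+j+1)`. -/
noncomputable def cB (K : ℕ) (P : ℚ[X]) (j : ℕ) : ℚ :=
  P.derivative.eval (-((j : ℚ) + 1)) / dn K j ^ 2 - 2 * cA K P j * sg K j

/-- The functional applied to `P / (D K) ^ 2`. -/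
noncomputable def L (a b x : ℚ) (K : ℕ) (P : ℚ[X]) : ℚ :=
  ∑ j ∈ range K, (cA K P j * (x - 2 * a * H 3 j - 3 * b * H 4 j)
    + cB K P j * (-(a * H 2 j) - b * H 3 j))

/-- Gram matrix of a family of polynomials. -/
noncomputable def gram (a b x : ℚ) (n : ℕ) {ι : Type} (φ : ι → ℚ[X]) : Matrix ι ι ℚ :=
  Matrix.of fun i k => L a b x (8 * n) (W (2 * n) ^ 3 * φ i * φ k)

/-- The Hankel determinant of size `5 n`. -/
noncomputable def Delta (a b x : ℚ) (n : ℕ) : ℚ :=
  (gram a b x n (fun i : Fin (5 * n) => (X : ℚ[X]) ^ (i : ℕ))).det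

/-- The weighted size of `P / (D (8 n)) ^ 2` at `zpt (2 n) y`. -/
noncomputable def wt (n : ℕ) (P : ℚ[X]) (y : ℝ) : ℝ :=
  (1 + y ^ 2) * Real.exp (-2 * Real.pi * |y|) * ‖aeval (zpt (2 * n) y) P‖ /
    ‖aeval (zpt (2 * n) y) (D (8 * n))‖ ^ 2

/-- Cumulative mass function of the weight. -/
noncomputable def TT (n : ℕ) (c : ℝ) : ℝ :=
  2 * c - 3 / 2 * ∑ i ∈ range (2 * n), ff c ((i : ℝ) + 1 / 2)
    + ∑ j ∈ Ico (2 * n) (10 * n), ff c ((j : ℝ) + 1 / 2) - ff c 1

theorem cA_add (K : ℕ) (P Q : ℚ[X]) (j : ℕ) : cA K (P + Q) j = cA K P j + cA K Q j := by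
  simp only [cA, eval_add, add_div]

theorem cA_smul (K : ℕ) (c : ℚ) (P : ℚ[X]) (j : ℕ) : cA K (c • P) j = c * cA K P j := by
  simp only [cA, eval_smul, smul_eq_mul, mul_div_assoc]

theorem cB_add (K : ℕ) (P Q : ℚ[X]) (j : ℕ) : cB K (P + Q) j = cB K P j + cB K Q j := by
  simp only [cB, cA_add, derivative_add, eval_add]
  ring

theorem cB_smul (K : ℕ) (c : ℚ) (P : ℚ[X]) (j : ℕ) : cB K (c • P) j = c * cB K P j := by
  simp only [cB, cA_smul, derivative_smul, eval_smul, smul_eq_mul]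
  ring

theorem L_add (a b x : ℚ) (K : ℕ) (P Q : ℚ[X]) :
    L a b x K (P + Q) = L a b x K P + L a b x K Q := by
  simp only [L, cA_add, cB_add, ← sum_add_distrib]
  exact sum_congr rfl fun j _ => by ring

theorem L_smul (a b x : ℚ) (K : ℕ) (c : ℚ) (P : ℚ[X]) :
    L a b x K (c • P) = c * L a b x K P := by
  simp only [L, cA_smul, cB_smul, mul_sum]
  exact sum_congr rfl fun j _ => by ring

theorem L_sum (a b x : ℚ) (K : ℕ) {ι : Type} (s : Finset ι) (P : ι → ℚ[X]) :
    L a b x K (∑ i ∈ s, P i) = ∑ i ∈ s, L a b x K (P i) := by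
  classical
  induction s using Finset.induction_on with
  | empty => simpa using L_smul a b x K 0 0
  | insert i s hi ih => rw [sum_insert hi, sum_insert hi, L_add, ih]

theorem gram_eq (a b x : ℚ) (n : ℕ) (φ : Fin (5 * n) → ℚ[X]) (hd : ∀ i, (φ i).natDegree < 5 * n) :
    gram a b x n φ = (Matrix.of fun i j : Fin (5 * n) => (φ j).coeff i).transpose *
      gram a b x n (fun i : Fin (5 * n) => (X : ℚ[X]) ^ (i : ℕ)) *
      (Matrix.of fun i j : Fin (5 * n) => (φ j).coeff i) := by
  have hφ : ∀ i, φ i = ∑ s : Fin (5 * n), (φ i).coeff s • (X : ℚ[X]) ^ (s : ℕ) := by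
    intro i
    conv_lhs => rw [as_sum_range' (φ i) _ (hd i), sum_range]
    refine sum_congr rfl fun s _ => ?_
    rw [← C_mul_X_pow_eq_monomial, smul_eq_C_mul]
  ext i k
  simp only [gram, Matrix.of_apply, Matrix.mul_apply, Matrix.transpose_apply]
  conv_lhs => rw [hφ i, hφ k]
  rw [mul_sum, L_sum]
  refine sum_congr rfl fun t _ => ?_
  rw [mul_smul_comm, L_smul, mul_sum, sum_mul, L_sum, mul_comm]
  congr 1
  refine sum_congr rfl fun s _ => ?_
  rw [mul_smul_comm, smul_mul_assoc, L_smul]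

theorem det_gram (a b x : ℚ) (n : ℕ) (φ : Fin (5 * n) → ℚ[X])
    (hd : ∀ i, (φ i).natDegree < 5 * n) :
    (gram a b x n φ).det =
      (Matrix.of fun i j : Fin (5 * n) => (φ j).coeff i).det ^ 2 * Delta a b x n := by
  rw [gram_eq a b x n φ hd, Matrix.det_mul, Matrix.det_mul, Matrix.det_transpose, Delta]
  ring

theorem det_gram_monic (a b x : ℚ) (n : ℕ) (φ : Fin (5 * n) → ℚ[X])
    (hm : ∀ i, (φ i).Monic) (hd : ∀ i, (φ i).natDegree = (i : ℕ)) :
    (gram a b x n φ).det = Delta a b x n := by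
  rw [det_gram a b x n φ fun i => (hd i).trans_lt i.2, Matrix.det_matrixOfPolynomials φ hd hm,
    one_pow, one_mul]

theorem Delta_ne_zero_of_gram (a b x : ℚ) (n : ℕ) {ι : Type} [Fintype ι] [DecidableEq ι]
    (hc : Fintype.card ι = 5 * n) (φ : ι → ℚ[X]) (hd : ∀ i, (φ i).natDegree < 5 * n)
    (h : (gram a b x n φ).det ≠ 0) : Delta a b x n ≠ 0 := by
  intro h0
  apply h
  let e := Fintype.equivFinOfCardEq hc
  have h1 := det_gram a b x n (fun i => φ (e.symm i)) fun i => hd _
  rw [h0, mul_zero] at h1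
  rw [← Matrix.det_submatrix_equiv_self e.symm]
  exact h1

theorem H_succ (s m : ℕ) : H s (m + 1) = H s m + 1 / ((m : ℚ) + 1) ^ s := by
  simp [H, sum_range_succ]

theorem erase_succ {K j : ℕ} (hj : j < K) :
    (range (K + 1)).erase j = insert K ((range K).erase j) := by
  ext k
  simp only [mem_erase, mem_range, mem_insert]
  omega

theorem dn_succ {K j : ℕ} (hj : j < K) : dn (K + 1) j = ((K : ℚ) - j) * dn K j := by
  unfold dn
  rw [erase_succ hj, prod_insert (by simp)]

theorem sg_succ {K j : ℕ} (hj : j < K) : sg (K + 1) j = sg K j + 1 / ((K : ℚ) - j) := by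
  unfold sg
  have e : K + 1 - 1 - j = (K - 1 - j) + 1 := by omega
  have e2 : ((K - 1 - j : ℕ) : ℚ) + 1 = (K : ℚ) - j := by
    have : K - 1 - j + 1 + j = K := by omega
    have h' : ((K - 1 - j + 1 + j : ℕ) : ℚ) = K := by rw [this]
    push_cast at h'
    linarith
  rw [e, H_succ, e2, pow_one]
  ring

theorem dn_ne_zero (K j : ℕ) : dn K j ≠ 0 :=
  prod_ne_zero_iff.mpr fun _ hk =>
    sub_ne_zero.mpr fun h => (mem_erase.mp hk).1 (Nat.cast_injective h)

theorem sg_eq {K j : ℕ} (hj : j < K) :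
    sg K j = ∑ k ∈ (range K).erase j, 1 / ((k : ℚ) - (j : ℚ)) := by
  induction K with
  | zero => omega
  | succ K ih =>
    rcases Nat.lt_succ_iff_lt_or_eq.mp hj with h | h
    · rw [sg_succ h, erase_succ h, sum_insert (by simp), ih h, add_comm]
    · subst h
      have e : (range (j + 1)).erase j = range j := by
        ext t
        simp only [mem_erase, mem_range]
        omega
      rw [e, sg, show j + 1 - 1 - j = 0 by omega, H, H, sum_range_zero, zero_sub,
        ← sum_range_reflect, ← sum_neg_distrib]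
      refine sum_congr rfl fun k hk => ?_
      have hk' := mem_range.mp hk
      have : j - 1 - k + 1 + k = j := by omega
      have h' : ((j - 1 - k + 1 + k : ℕ) : ℚ) = j := by rw [this]
      push_cast at h'
      rw [pow_one, show ((j - 1 - k : ℕ) : ℚ) + 1 = -((k : ℚ) - j) by linarith, div_neg, neg_neg]

/-- The product of the linear factors other than the `j`-th one. -/
noncomputable def E (K j : ℕ) : ℚ[X] := ∏ k ∈ (range K).erase j, (X + C ((k : ℚ) + 1))

theorem E_monic (K j : ℕ) : (E K j).Monic := monic_prod_of_monic _ _ fun _ _ => monic_X_add_C _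

theorem E_natDegree {K j : ℕ} (hj : j < K) : (E K j).natDegree = K - 1 := by
  rw [E, natDegree_prod_of_monic _ _ fun _ _ => monic_X_add_C _]
  simp only [natDegree_X_add_C, sum_const, smul_eq_mul, mul_one,
    card_erase_of_mem (mem_range.mpr hj), card_range]

theorem E_eval (K j : ℕ) : (E K j).eval (-((j : ℚ) + 1)) = dn K j := by
  rw [E, eval_prod]
  refine prod_congr rfl fun k _ => ?_
  simp only [eval_add, eval_X, eval_C]
  ring

theorem deriv_prod_lin (s : Finset ℕ) (r : ℚ) (h : ∀ k ∈ s, r + ((k : ℚ) + 1) ≠ 0) :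
    (∏ k ∈ s, (X + C ((k : ℚ) + 1))).derivative.eval r =
      (∏ k ∈ s, (X + C ((k : ℚ) + 1))).eval r * ∑ k ∈ s, 1 / (r + ((k : ℚ) + 1)) := by
  induction s using Finset.induction_on with
  | empty => simp
  | insert i s hi ih =>
    have h1 := h i (mem_insert_self _ _)
    rw [prod_insert hi, sum_insert hi, derivative_mul, eval_add, eval_mul, eval_mul, eval_mul,
      ih fun k hk => h k (mem_insert_of_mem hk)]
    simp only [derivative_add, derivative_X, derivative_C, add_zero, eval_one, eval_add, eval_X,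
      eval_C]
    field_simp

theorem E_deriv_eval {K j : ℕ} (hj : j < K) :
    (E K j).derivative.eval (-((j : ℚ) + 1)) = dn K j * sg K j := by
  have h := deriv_prod_lin ((range K).erase j) (-((j : ℚ) + 1)) fun k hk => by
    rw [show -((j : ℚ) + 1) + ((k : ℚ) + 1) = k - j by ring]
    exact sub_ne_zero.mpr fun h => (mem_erase.mp hk).1 (Nat.cast_injective h)
  rw [← E_eval, sg_eq hj]
  unfold E
  rw [h]
  congr 1
  refine sum_congr rfl fun k _ => ?_
  congr 1
  ring

theorem D_eq {K j : ℕ} (hj : j < K) : D K = (X + C ((j : ℚ) + 1)) * E K j := by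
  unfold D E
  rw [mul_prod_erase _ (fun k : ℕ => (X + C ((k : ℚ) + 1))) (mem_range.mpr hj)]

theorem sq_dvd_of_eval {R : ℚ[X]} {r : ℚ} (h0 : R.eval r = 0) (h1 : R.derivative.eval r = 0) :
    (X - C r) ^ 2 ∣ R := by
  obtain ⟨S, rfl⟩ := dvd_iff_isRoot.mpr h0
  have h2 : S.eval r = 0 := by simpa using h1
  obtain ⟨T, rfl⟩ := dvd_iff_isRoot.mpr h2
  exact ⟨T, by ring⟩

/-- The term of the decomposition attached to the pole `-(j+1)`. -/
noncomputable def tm (K : ℕ) (P : ℚ[X]) (j : ℕ) : ℚ[X] :=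
  (C (cA K P j) + C (cB K P j) * (X + C ((j : ℚ) + 1))) * E K j ^ 2

theorem tm_natDegree {K j : ℕ} (hj : j < K) (P : ℚ[X]) : (tm K P j).natDegree ≤ 2 * K - 1 := by
  unfold tm
  refine natDegree_mul_le.trans ?_
  have h1 : (C (cA K P j) + C (cB K P j) * (X + C ((j : ℚ) + 1))).natDegree ≤ 1 := by
    compute_degree
  rw [(E_monic K j).natDegree_pow, E_natDegree hj]
  omega

theorem partial_fractions (K : ℕ) (P : ℚ[X]) (hP : P.natDegree < 2 * K) :
    P = ∑ j ∈ range K, tm K P j := by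
  have hdvd : D K ^ 2 ∣ P - ∑ j ∈ range K, tm K P j := by
    rw [D, ← prod_pow]
    refine Finset.prod_dvd_of_coprime ?_ fun j hj => ?_
    · intro i _ j _ hij
      refine IsCoprime.pow ?_
      have e : ∀ k : ℕ, (X + C ((k : ℚ) + 1)) = X - C (-((k : ℚ) + 1)) := fun k => by
        rw [map_neg, sub_neg_eq_add]
      rw [e, e]
      refine isCoprime_X_sub_C_of_isUnit_sub (Ne.isUnit ?_)
      intro h
      apply hij
      have : (i : ℚ) = j := by linarith
      exact_mod_cast this
    · have hj' := mem_range.mp hj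
      rw [← add_sum_erase _ _ hj, ← sub_sub]
      refine dvd_sub ?_ (dvd_sum fun i hi => ?_)
      · have e : (X + C ((j : ℚ) + 1)) = X - C (-((j : ℚ) + 1)) := by
          rw [map_neg, sub_neg_eq_add]
        rw [e]
        have hd := dn_ne_zero K j
        apply sq_dvd_of_eval
        · simp only [tm, eval_sub, eval_mul, eval_add, eval_C, eval_X, eval_pow, E_eval, cA]
          field_simp
          ring
        · simp only [tm, derivative_sub, derivative_mul, derivative_add, derivative_C, derivative_X,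
            derivative_pow, eval_sub, eval_mul, eval_add, eval_C, eval_X, eval_pow, E_eval,
            E_deriv_eval hj', cB, eval_zero, eval_one, Nat.cast_ofNat]
          field_simp
          ring
      · refine Dvd.dvd.mul_left (pow_dvd_pow_of_dvd ?_ 2) _
        exact dvd_prod_of_mem (fun k : ℕ => (X + C ((k : ℚ) + 1)))
          (mem_erase.mpr ⟨(ne_of_mem_erase hi).symm, hj⟩)
  rw [← sub_eq_zero]
  refine eq_zero_of_dvd_of_natDegree_lt hdvd ?_
  rw [(D_monic K).natDegree_pow, D_natDegree]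
  refine (natDegree_sub_le _ _).trans_lt (max_lt hP ?_)
  refine (natDegree_sum_le_of_forall_le _ _ (n := 2 * K - 1) fun j hj =>
    tm_natDegree (mem_range.mp hj) P).trans_lt (by omega)

theorem sum_cB (K : ℕ) (P : ℚ[X]) (hP : P.natDegree + 1 < 2 * K) :
    ∑ j ∈ range K, cB K P j = 0 := by
  have h := congrArg (fun Q : ℚ[X] => Q.coeff (2 * K - 1)) (partial_fractions K P (by omega))
  simp only [finsetSum_coeff] at h
  rw [coeff_eq_zero_of_natDegree_lt (by omega)] at h
  rw [h]
  refine sum_congr rfl fun j hj => ?_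
  have hj' := mem_range.mp hj
  have h1 : (E K j ^ 2).natDegree = 2 * K - 2 := by
    rw [(E_monic K j).natDegree_pow, E_natDegree hj']
    omega
  have h2 : ((X + C ((j : ℚ) + 1)) * E K j ^ 2).Monic := (monic_X_add_C _).mul ((E_monic K j).pow 2)
  have h3 : ((X + C ((j : ℚ) + 1)) * E K j ^ 2).natDegree = 2 * K - 1 := by
    rw [(monic_X_add_C _).natDegree_mul ((E_monic K j).pow 2), natDegree_X_add_C, h1]
    omega
  have h4 := h2.coeff_natDegree
  rw [h3] at h4
  rw [tm, add_mul, coeff_add, mul_assoc, coeff_C_mul, coeff_C_mul, h4,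
    coeff_eq_zero_of_natDegree_lt (by omega)]
  ring

end Pool.Agent.P.MP_a89d6d_nt.Z34
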