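import Pool.Agent.P.MP_a89d6d_nt.Z34.Core
import Pool.Agent.P.MP_a89d6d_nt.Z23.Star

/-!
Comparison of the growth of products of Chebyshev-type polynomials with the weight.
-/

namespace Pool.Agent.P.MP_a89d6d_nt.Z34

open Polynomial Finset Filter
open Pool.Agent.P.MP_a89d6d_nt.Z23 (ach ff)
open Pool.Agent.P.MP_a89d6d_nt.Z23.Star (A A_zero A_deriv A_tendsto G_deriv ff_cont ach_nonneg
  cosh_le_of_le_ach)

namespace Star2

theorem TT_cont (n : ℕ) (y : ℝ) : Continuous fun t => TT n (y / Real.cosh t) := by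
  unfold TT
  have h0 : Continuous fun t => y / Real.cosh t :=
    continuous_const.div Real.continuous_cosh fun t => (Real.cosh_pos t).ne'
  refine (((continuous_const.mul h0).sub (continuous_const.mul ?_)).add ?_).sub
    (ff_cont y 1 one_pos)
  · exact continuous_finsetSum _ fun i _ => ff_cont y _ (by positivity)
  · exact continuous_finsetSum _ fun i _ => ff_cont y _ (by positivity)

theorem TT_integral (n : ℕ) (y T : ℝ) :
    ∫ t in (0 : ℝ)..T, TT n (y / Real.cosh t) =
      2 * y * Real.arctan (Real.sinh T) - 3 / 2 * ∑ i ∈ range (2 * n), A y ((i : ℝ) + 1 / 2) T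
        + ∑ j ∈ Ico (2 * n) (10 * n), A y ((j : ℝ) + 1 / 2) T - A y 1 T := by
  have h : ∀ t, HasDerivAt (fun T => 2 * y * Real.arctan (Real.sinh T)
      - 3 / 2 * ∑ i ∈ range (2 * n), A y ((i : ℝ) + 1 / 2) T
      + ∑ j ∈ Ico (2 * n) (10 * n), A y ((j : ℝ) + 1 / 2) T - A y 1 T)
      (TT n (y / Real.cosh t)) t := by
    intro t
    unfold TT
    refine (((G_deriv y t).sub (HasDerivAt.const_mul _ ?_)).add ?_).sub (A_deriv y 1 one_pos t)
    · exact HasDerivAt.fun_sum fun i _ => A_deriv y _ (by positivity) t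
    · exact HasDerivAt.fun_sum fun i _ => A_deriv y _ (by positivity) t
  rw [intervalIntegral.integral_eq_sub_of_hasDerivAt (fun t _ => h t)
    ((TT_cont n y).intervalIntegrable _ _)]
  simp [A_zero]

theorem star_nonneg (n J : ℕ) (d : ℕ → ℕ) (c : ℕ → ℝ) (hc : ∀ l, 0 < c l)
    (hT : ∀ u : ℝ, 0 ≤ u → ∑ l ∈ (range J).filter (fun l => c l ≤ u), (d l : ℝ) ≤ TT n u)
    (y : ℝ) (hy : 0 ≤ y) :
    2 * ∑ l ∈ range J, (d l : ℝ) * ach (y / c l) ≤
      2 * Real.pi * y
        - 3 / 2 * ∑ i ∈ range (2 * n), Real.log (1 + y ^ 2 / ((i : ℝ) + 1 / 2) ^ 2)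
        + ∑ j ∈ Ico (2 * n) (10 * n), Real.log (1 + y ^ 2 / ((j : ℝ) + 1 / 2) ^ 2)
        - Real.log (1 + y ^ 2) := by
  have hlim : Tendsto (fun T => Real.pi * y
      - 3 / 2 * ∑ i ∈ range (2 * n), A y ((i : ℝ) + 1 / 2) T
      + ∑ j ∈ Ico (2 * n) (10 * n), A y ((j : ℝ) + 1 / 2) T - A y 1 T) atTop
      (nhds (Real.pi * y
        - 3 / 2 * ∑ i ∈ range (2 * n), 1 / 2 * Real.log (1 + y ^ 2 / ((i : ℝ) + 1 / 2) ^ 2)
        + ∑ j ∈ Ico (2 * n) (10 * n), 1 / 2 * Real.log (1 + y ^ 2 / ((j : ℝ) + 1 / 2) ^ 2)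
        - 1 / 2 * Real.log (1 + y ^ 2 / 1 ^ 2))) := by
    refine ((tendsto_const_nhds.sub (Tendsto.const_mul _ ?_)).add ?_).sub (A_tendsto y 1 one_pos)
    · exact tendsto_finsetSum _ fun i _ => A_tendsto y _ (by positivity)
    · exact tendsto_finsetSum _ fun i _ => A_tendsto y _ (by positivity)
  have key : ∑ l ∈ range J, (d l : ℝ) * ach (y / c l) ≤ Real.pi * y
        - 3 / 2 * ∑ i ∈ range (2 * n), 1 / 2 * Real.log (1 + y ^ 2 / ((i : ℝ) + 1 / 2) ^ 2)
        + ∑ j ∈ Ico (2 * n) (10 * n), 1 / 2 * Real.log (1 + y ^ 2 / ((j : ℝ) + 1 / 2) ^ 2)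
        - 1 / 2 * Real.log (1 + y ^ 2 / 1 ^ 2) := by
    refine ge_of_tendsto hlim ?_
    have hev : ∀ᶠ T : ℝ in atTop, ∀ l ∈ range J, ach (y / c l) ≤ T :=
      (eventually_all_finset _).mpr fun l _ => eventually_ge_atTop _
    filter_upwards [hev, eventually_ge_atTop (0 : ℝ)] with T hTl hT0
    have hint : ∀ l, IntervalIntegrable
        (Set.indicator {x : ℝ | x ≤ ach (y / c l)} fun _ => (d l : ℝ)) MeasureTheory.volume 0 T := by
      intro l
      rw [intervalIntegrable_iff]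
      exact (intervalIntegrable_iff.mp
        (continuous_const.intervalIntegrable 0 T)).indicator measurableSet_Iic
    have e1 : ∑ l ∈ range J, (d l : ℝ) * ach (y / c l) = ∫ t in (0 : ℝ)..T,
        ∑ l ∈ range J, Set.indicator {x : ℝ | x ≤ ach (y / c l)} (fun _ => (d l : ℝ)) t := by
      rw [intervalIntegral.integral_finsetSum fun l _ => hint l]
      refine Finset.sum_congr rfl fun l hl => ?_
      rw [intervalIntegral.integral_indicator ⟨ach_nonneg _, hTl l hl⟩]
      simp [mul_comm]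
    have e2 : ∫ t in (0 : ℝ)..T,
        ∑ l ∈ range J, Set.indicator {x : ℝ | x ≤ ach (y / c l)} (fun _ => (d l : ℝ)) t ≤
        ∫ t in (0 : ℝ)..T, TT n (y / Real.cosh t) := by
      refine intervalIntegral.integral_mono_on_of_le_Ioo hT0 ?_
        ((TT_cont n y).intervalIntegrable _ _) fun t ht => ?_
      · have := IntervalIntegrable.sum (range J) fun l _ => hint l
        have e : (∑ l ∈ range J, Set.indicator {x : ℝ | x ≤ ach (y / c l)} fun _ => (d l : ℝ)) =
            fun t => ∑ l ∈ range J,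
              Set.indicator {x : ℝ | x ≤ ach (y / c l)} (fun _ => (d l : ℝ)) t := by
          ext t
          simp [Finset.sum_apply]
        rwa [e] at this
      · have hC : 0 < Real.cosh t := Real.cosh_pos t
        refine le_trans ?_ (hT _ (by positivity))
        rw [Finset.sum_filter]
        refine Finset.sum_le_sum fun l _ => ?_
        by_cases hl : t ≤ ach (y / c l)
        · have h1 := cosh_le_of_le_ach ht.1 hl
          have h2 : c l ≤ y / Real.cosh t := by
            rw [le_div_iff₀ (hc l)] at h1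
            rw [le_div_iff₀ hC]; linarith
          rw [if_pos h2, Set.indicator_of_mem (by exact hl)]
        · rw [Set.indicator_of_notMem (by exact hl)]
          split_ifs
          · positivity
          · exact le_rfl
    rw [TT_integral] at e2
    have e3 : 2 * y * Real.arctan (Real.sinh T) ≤ Real.pi * y := by
      have := (Real.arctan_lt_pi_div_two (Real.sinh T)).le
      nlinarith
    linarith
  rw [← Finset.mul_sum, ← Finset.mul_sum, one_pow, div_one] at key
  linarith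

end Star2

theorem star (n J : ℕ) (d : ℕ → ℕ) (c : ℕ → ℝ) (hc : ∀ l, 0 < c l)
    (hT : ∀ u : ℝ, 0 ≤ u → ∑ l ∈ (range J).filter (fun l => c l ≤ u), (d l : ℝ) ≤ TT n u)
    (y : ℝ) :
    2 * ∑ l ∈ range J, (d l : ℝ) * ach (|y| / c l) ≤
      2 * Real.pi * |y|
        - 3 / 2 * ∑ i ∈ range (2 * n), Real.log (1 + y ^ 2 / ((i : ℝ) + 1 / 2) ^ 2)
        + ∑ j ∈ Ico (2 * n) (10 * n), Real.log (1 + y ^ 2 / ((j : ℝ) + 1 / 2) ^ 2)
        - Real.log (1 + y ^ 2) := by
  have := Star2.star_nonneg n J d c hc hT |y| (abs_nonneg y)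
  simpa only [sq_abs] using this

end Pool.Agent.P.MP_a89d6d_nt.Z34
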