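import Pool.Agent.P.MP_a89d6d_nt.Z34.Energy1
import Pool.Agent.P.MP_a89d6d_nt.Z34.Star
import Pool.Agent.P.MP_a89d6d_nt.Z23.Energy

/-!
The energy bound: a monic basis whose weighted sizes have a small product.
-/

namespace Pool.Agent.P.MP_a89d6d_nt.Z34

open Polynomial Finset Filter
open Pool.Agent.P.MP_a89d6d_nt.Z23 (D W zpt cheb ach cheb_monic cheb_natDegree cheb_bound)
open Pool.Agent.P.MP_a89d6d_nt.Z23.Energy (norm_lin lg norm_W abel_sum sum_min)

namespace Energy2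

theorem norm_D (n : ℕ) (y : ℝ) :
    ‖aeval (zpt (2 * n) y) (D (8 * n))‖ = Real.exp (∑ j ∈ Ico (2 * n) (10 * n), lg y j) := by
  unfold D
  rw [map_prod, norm_prod, Real.exp_sum, prod_Ico_eq_prod_range,
    show 10 * n - 2 * n = 8 * n by omega]
  refine prod_congr rfl fun i _ => ?_
  unfold lg
  rw [← norm_lin _ y (by positivity)]
  congr 1
  simp only [map_add, aeval_X, aeval_C, zpt, eq_ratCast, Rat.cast_natCast, map_one]
  push_cast
  ring

/-- The basis polynomial of degree `t`. -/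
noncomputable def ph (n t : ℕ) : ℚ[X] :=
  ∏ l ∈ range 40, cheb (2 * (n : ℚ) - 1 / 2) ((n : ℚ) * ss l) (dd n t l)

theorem ph_monic (n t : ℕ) : (ph n t).Monic :=
  monic_prod_of_monic _ _ fun _ _ => cheb_monic _ _ _

theorem ph_natDegree (n t : ℕ) (ht : t < 5 * n) : (ph n t).natDegree = t := by
  unfold ph
  rw [natDegree_prod_of_monic _ _ fun _ _ => cheb_monic _ _ _]
  simp only [cheb_natDegree]
  rw [sum_dd n t 40 le_rfl, DD_forty]
  omega

/-- The half-lengths of the segments. -/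
noncomputable def cc (n l : ℕ) : ℝ := (((n : ℚ) * ss l : ℚ) : ℝ)

theorem cc_pos (n l : ℕ) (hn : 1 ≤ n) : 0 < cc n l := by
  unfold cc
  have h1 := ss_pos l
  have h2 : (0 : ℚ) < n := by exact_mod_cast hn
  exact_mod_cast mul_pos h2 h1

/-- Logarithm of the constant in the bound for `ph n t`. -/
noncomputable def lp (n t : ℕ) : ℝ :=
  ∑ l ∈ range 40, (Real.log (5 * n + 1) + dd n t l * Real.log (cc n l / 2))

theorem norm_ph (n t : ℕ) (hn : 1 ≤ n) (ht : t < 5 * n) (y : ℝ) :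
    ‖aeval (zpt (2 * n) y) (ph n t)‖ ≤
      Real.exp (lp n t + ∑ l ∈ range 40, (dd n t l : ℝ) * ach (|y| / cc n l)) := by
  unfold ph lp
  rw [map_prod, norm_prod, ← sum_add_distrib, Real.exp_sum]
  refine prod_le_prod (fun _ _ => norm_nonneg _) fun l _ => ?_
  have hc := cc_pos n l hn
  have hc' : (0 : ℚ) < (n : ℚ) * ss l := by unfold cc at hc; exact_mod_cast hc
  have h := cheb_bound (2 * (n : ℚ) - 1 / 2) ((n : ℚ) * ss l) hc' (dd n t l) y
  have hz : (((2 * (n : ℚ) - 1 / 2 : ℚ) : ℂ) + (y : ℂ) * Complex.I) = zpt (2 * n) y := by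
    unfold zpt; push_cast; ring
  rw [hz] at h
  refine h.trans ?_
  rw [Real.exp_add, Real.exp_add, Real.exp_log (by positivity),
    Real.exp_nat_mul (Real.log (cc n l / 2)), Real.exp_log (by positivity)]
  have h1 : (dd n t l : ℝ) + 1 ≤ 5 * n + 1 := by
    have : dd n t l ≤ 5 * n := (dd_le n t l).trans ht.le
    have h' : (dd n t l : ℝ) ≤ ((5 * n : ℕ) : ℝ) := by exact_mod_cast this
    push_cast at h'
    linarith
  have h2 : (0 : ℝ) ≤ (cc n l / 2) ^ dd n t l := by positivity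
  change _ * (cc n l / 2) ^ dd n t l * Real.exp (_ * ach (|y| / cc n l)) ≤ _
  gcongr

theorem wt_le (n t : ℕ) (hn : 1500 ≤ n) (ht : t < 5 * n) (y : ℝ) :
    wt n (W (2 * n) ^ 3 * ph n t * ph n t) y ≤ Real.exp (lw n + 2 * lp n t) := by
  have hs := star n 40 (dd n t) (cc n) (fun l => cc_pos n l (by omega))
    (fun u hu => mass_le n t hn u hu) y
  have hp := norm_ph n t (by omega) ht y
  obtain ⟨A, hA⟩ : ∃ A, A = lp n t + ∑ l ∈ range 40, (dd n t l : ℝ) * ach (|y| / cc n l) :=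
    ⟨_, rfl⟩
  rw [← hA] at hp
  unfold wt
  rw [map_mul, map_mul, map_pow, norm_mul, norm_mul, norm_pow, norm_W, norm_D,
    div_le_iff₀ (by positivity)]
  have hy : 1 + y ^ 2 = Real.exp (Real.log (1 + y ^ 2)) := (Real.exp_log (by positivity)).symm
  have h1 : ‖aeval (zpt (2 * n) y) (ph n t)‖ * ‖aeval (zpt (2 * n) y) (ph n t)‖ ≤
      Real.exp A * Real.exp A :=
    mul_le_mul hp hp (norm_nonneg _) (Real.exp_pos _).le
  calc (1 + y ^ 2) * Real.exp (-2 * Real.pi * |y|) *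
        (Real.exp (∑ i ∈ range (2 * n), lg y i) ^ 3 *
        ‖aeval (zpt (2 * n) y) (ph n t)‖ * ‖aeval (zpt (2 * n) y) (ph n t)‖)
      ≤ (1 + y ^ 2) * Real.exp (-2 * Real.pi * |y|) *
        (Real.exp (∑ i ∈ range (2 * n), lg y i) ^ 3 * (Real.exp A * Real.exp A)) := by
        rw [mul_assoc (Real.exp (∑ i ∈ range (2 * n), lg y i) ^ 3)]
        gcongr
    _ = Real.exp (Real.log (1 + y ^ 2) + -2 * Real.pi * |y| +
          ((3 : ℕ) * ∑ i ∈ range (2 * n), lg y i + (A + A))) := by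
        rw [Real.exp_add, Real.exp_add, Real.exp_add, Real.exp_add, Real.exp_nat_mul, ← hy]
    _ ≤ _ := by
        rw [← Real.exp_nat_mul, ← Real.exp_add]
        apply Real.exp_le_exp.mpr
        unfold lw lg
        rw [sum_add_distrib, sum_add_distrib, ← mul_sum, ← mul_sum]
        push_cast
        linarith

theorem log_cc (n l : ℕ) (hn : 1 ≤ n) (hl : l < 40) :
    Real.log (cc n l / 2) =
      Real.log n + Real.log (3 / 2) - ((39 : ℝ) - l) * Real.log (10 / 9) := by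
  have hn' : (0 : ℝ) < n := by exact_mod_cast hn
  have e : cc n l / 2 = n * (3 / 2) * ((10 / 9 : ℝ) ^ (39 - l))⁻¹ := by
    unfold cc ss
    push_cast
    rw [← inv_pow]
    norm_num
    ring
  rw [e, Real.log_mul (by positivity) (by positivity), Real.log_mul hn'.ne' (by norm_num),
    Real.log_inv, Real.log_pow, Nat.cast_sub (by omega)]
  push_cast
  ring

theorem lp_eq (n t : ℕ) (hn : 1 ≤ n) (ht : t < 5 * n) :
    lp n t = 40 * Real.log (5 * n + 1) + t * (Real.log n + Real.log (3 / 2)) -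
      Real.log (10 / 9) * ∑ l ∈ range 39, ((min t (DD n (l + 1)) : ℕ) : ℝ) := by
  have h1 := abel_sum (fun l => ((min t (DD n l) : ℕ) : ℝ)) 39
  simp only [DD_zero, Nat.min_zero, Nat.cast_zero, mul_zero, sub_zero] at h1
  have h2 : ∑ l ∈ range 40, (dd n t l : ℝ) = t := by
    rw [← Nat.cast_sum, sum_dd n t 40 le_rfl, DD_forty, min_eq_left ht.le]
  rw [← h1]
  unfold lp
  rw [sum_add_distrib, sum_const, card_range, mul_sum]
  have h3 : ∑ l ∈ range 40, (dd n t l : ℝ) * Real.log (cc n l / 2) =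
      ∑ l ∈ range 40, ((dd n t l : ℝ) * (Real.log n + Real.log (3 / 2)) -
        Real.log (10 / 9) * ((((39 : ℕ) : ℝ) - l) *
          (((min t (DD n (l + 1)) : ℕ) : ℝ) - ((min t (DD n l) : ℕ) : ℝ)))) := by
    refine sum_congr rfl fun l hl => ?_
    rw [log_cc n l hn (mem_range.mp hl), ← dd_cast n t l (mem_range.mp hl)]
    push_cast
    ring
  rw [h3, sum_sub_distrib, ← sum_mul, h2]
  simp only [nsmul_eq_mul]
  push_cast
  ring

theorem log_consts : 39.1202 ≤ 10 * Real.log 2 + 20 * Real.log 5 ∧ Real.log (3 / 2) ≤ 0.4055 ∧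
    0 ≤ Real.log (3 / 2) ∧ 0.1053 ≤ Real.log (10 / 9) ∧ Real.log (10 / 9) ≤ 0.11 ∧
    1 ≤ Real.log 10 := by
  have a1 := Real.log_two_gt_d9
  have a2 := Real.log_two_lt_d9
  have b1 := Real.log_three_gt_d9
  have b2 := Real.log_three_lt_d9
  have c1 := Real.log_five_gt_d9
  have c2 := Real.log_five_lt_d9
  have h53 : Real.log (3 / 2) = Real.log 3 - Real.log 2 := Real.log_div (by norm_num) (by norm_num)
  have h109 : Real.log (10 / 9) = Real.log 2 + Real.log 5 - 2 * Real.log 3 := by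
    rw [show (10 / 9 : ℝ) = 2 * 5 / 3 ^ 2 by norm_num, Real.log_div (by norm_num) (by norm_num),
      Real.log_mul (by norm_num) (by norm_num), Real.log_pow]
    push_cast
    ring
  have h10 : Real.log 10 = Real.log 2 + Real.log 5 := by
    rw [← Real.log_mul (by norm_num) (by norm_num)]
    norm_num
  refine ⟨by linarith, by linarith, by linarith, by linarith, by linarith, by linarith⟩

theorem total_le (n : ℕ) (hn : 1 ≤ n) :
    ∑ t ∈ range (5 * n), (lw n + 2 * lp n t) ≤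
      -25 * (n : ℝ) ^ 2 * Real.log n - 1605 / 10 * (n : ℝ) ^ 2 + 600 * n * Real.log (10 * n) := by
  obtain ⟨l7, l53, l53', l109, l109', l10⟩ := log_consts
  have hn' : (1 : ℝ) ≤ n := by exact_mod_cast hn
  have hlw := lw_le n hn
  have hln : 0 ≤ Real.log n := Real.log_nonneg (by linarith)
  have hl6 : Real.log (5 * n + 1) ≤ Real.log (10 * n) :=
    Real.log_le_log (by linarith) (by linarith)
  have hl7 : 1 ≤ Real.log (10 * n) := by
    have : Real.log 10 ≤ Real.log (10 * n) := Real.log_le_log (by norm_num) (by linarith)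
    linarith
  have h1 : ∑ t ∈ range (5 * n), (lw n + 2 * lp n t) =
      ∑ t ∈ range (5 * n), ((lw n + 80 * Real.log (5 * n + 1)) +
        (t : ℝ) * (2 * (Real.log n + Real.log (3 / 2))) -
        2 * Real.log (10 / 9) * ∑ l ∈ range 39, ((min t (DD n (l + 1)) : ℕ) : ℝ)) := by
    refine sum_congr rfl fun t ht => ?_
    rw [lp_eq n t (by omega) (mem_range.mp ht)]
    ring
  have h2 : ∑ t ∈ range (5 * n), (t : ℝ) ≤ 25 / 2 * (n : ℝ) ^ 2 := by
    have h := sum_min (5 * n) (5 * n) le_rfl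
    have e : ∑ t ∈ range (5 * n), ((min t (5 * n) : ℕ) : ℝ) = ∑ t ∈ range (5 * n), (t : ℝ) :=
      sum_congr rfl fun t ht => by rw [min_eq_left (mem_range.mp ht).le]
    rw [e] at h
    rw [h]
    push_cast
    nlinarith
  have h3 : (n : ℝ) ^ 2 * (1195 / 10) - 312 * n ≤
      ∑ t ∈ range (5 * n), ∑ l ∈ range 39, ((min t (DD n (l + 1)) : ℕ) : ℝ) := by
    rw [sum_comm]
    have h4 := sum_le_sum (s := range 39) fun l hl =>
      sum_min_DD n l ((mem_range.mp hl).trans (by norm_num))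
    rw [sum_sub_distrib, ← mul_sum, sum_const, card_range] at h4
    have h5 := (Rat.cast_le (K := ℝ)).mpr grid_sum
    push_cast at h5
    simp only [nsmul_eq_mul, Nat.cast_ofNat] at h4
    nlinarith [mul_le_mul_of_nonneg_left h5 (sq_nonneg (n : ℝ))]
  rw [h1, sum_sub_distrib, sum_add_distrib, sum_const, card_range, ← sum_mul, ← mul_sum]
  simp only [nsmul_eq_mul, Nat.cast_mul, Nat.cast_ofNat]
  set S1 := ∑ t ∈ range (5 * n), (t : ℝ) with hS1
  have hn0 : (0 : ℝ) ≤ n := by linarith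
  have k1 : S1 * (2 * (Real.log n + Real.log (3 / 2))) ≤
      25 / 2 * (n : ℝ) ^ 2 * (2 * (Real.log n + 0.4055)) := by
    apply mul_le_mul h2 (by linarith) (by linarith) (by positivity)
  have k2 := mul_le_mul_of_nonneg_left h3 (by linarith : 0 ≤ 2 * Real.log (10 / 9))
  have k3 := mul_le_mul_of_nonneg_left hlw (by positivity : (0 : ℝ) ≤ 5 * n)
  have k4 := mul_le_mul_of_nonneg_left hl6 (by positivity : (0 : ℝ) ≤ 400 * n)
  have k5 := mul_le_mul_of_nonneg_left l7 (by positivity : (0 : ℝ) ≤ 5 * (n : ℝ) ^ 2)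
  have k6 := mul_le_mul_of_nonneg_left l109 (by positivity : (0 : ℝ) ≤ 239 * (n : ℝ) ^ 2)
  have k7 := mul_le_mul_of_nonneg_left l109' (by positivity : (0 : ℝ) ≤ 624 * (n : ℝ))
  have k8 := mul_le_mul_of_nonneg_left hl7 (by positivity : (0 : ℝ) ≤ 100 * (n : ℝ))
  have k9 := mul_nonneg hn0 (zero_le_one.trans hl7)
  nlinarith [sq_nonneg (n : ℝ)]

theorem small_err :
    ∀ᶠ n : ℕ in atTop, 600 * (n : ℝ) * Real.log (10 * n) ≤ 1 / 2 * (n : ℝ) ^ 2 := by
  have h := Real.isLittleO_log_id_atTop.bound (c := 1 / 12000) (by norm_num)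
  have h7 : Tendsto (fun n : ℕ => 10 * (n : ℝ)) atTop atTop :=
    tendsto_natCast_atTop_atTop.const_mul_atTop (by norm_num)
  filter_upwards [h7.eventually h] with n hn
  have hn0 : (0 : ℝ) ≤ n := by positivity
  simp only [id, Real.norm_eq_abs] at hn
  rw [abs_of_nonneg (by positivity : (0 : ℝ) ≤ 10 * n)] at hn
  have h1 := (le_abs_self _).trans hn
  nlinarith [mul_le_mul_of_nonneg_left h1 hn0]

end Energy2

theorem exists_good_basis : ∀ᶠ n : ℕ in atTop,
    ∃ (φ : Fin (5 * n) → ℚ[X]) (B : Fin (5 * n) → ℝ),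
      (∀ t, (φ t).Monic) ∧ (∀ t, (φ t).natDegree = (t : ℕ)) ∧ (∀ t, 0 < B t) ∧
      (∀ t (y : ℝ), wt n (W (2 * n) ^ 3 * φ t * φ t) y ≤ B t) ∧
      ∑ t, Real.log (B t) ≤ -25 * (n : ℝ) ^ 2 * Real.log n - 160 * (n : ℝ) ^ 2 := by
  filter_upwards [Energy2.small_err, eventually_ge_atTop 1500] with n h1 hn
  refine ⟨fun t => Energy2.ph n t, fun t => Real.exp (Energy2.lw n + 2 * Energy2.lp n t),
    fun t => Energy2.ph_monic n t, fun t => Energy2.ph_natDegree n t t.2, fun t => Real.exp_pos _,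
    fun t y => Energy2.wt_le n t hn t.2 y, ?_⟩
  simp only [Real.log_exp]
  rw [Fin.sum_univ_eq_sum_range (fun t => Energy2.lw n + 2 * Energy2.lp n t) (5 * n)]
  have h2 := Energy2.total_le n (by omega)
  linarith

end Pool.Agent.P.MP_a89d6d_nt.Z34
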