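import Pool.Agent.P.MP_a89d6d_nt.Z34.Core
import Pool.Agent.P.MP_a89d6d_nt.Z23.Energy2

/-!
Lower bounds for `TT`, the numeric grid and the sums of logarithms.
-/

namespace Pool.Agent.P.MP_a89d6d_nt.Z34.Energy2

open Finset
open Pool.Agent.P.MP_a89d6d_nt.Z23 (ff)
open Pool.Agent.P.MP_a89d6d_nt.Z23.Energy (gg gg_lip ff_nonneg ff_le_one ff_one_le sum_ff_le
  le_sum_ff sum_min GG GG_sub_le le_GG_sub sum_log_le le_sum_log)

theorem TT_nonneg (n : ℕ) (c : ℝ) (hc : 0 ≤ c) : 0 ≤ TT n c := by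
  unfold TT
  have h1 := sum_ff_le c (2 * n)
  have h2 : 0 ≤ ∑ j ∈ Ico (2 * n) (10 * n), ff c ((j : ℝ) + 1 / 2) :=
    sum_nonneg fun j _ => ff_nonneg c _ (by positivity)
  have h3 := ff_one_le c hc
  have h4 : gg c 0 = -c := by
    unfold gg
    rw [show c ^ 2 + (0 : ℝ) ^ 2 = c ^ 2 by ring, Real.sqrt_sq hc]; ring
  have h5 : gg c ((2 * n : ℕ) : ℝ) ≤ 0 := by
    unfold gg
    have : ((2 * n : ℕ) : ℝ) ≤ Real.sqrt (c ^ 2 + ((2 * n : ℕ) : ℝ) ^ 2) :=
      Real.le_sqrt_of_sq_le (by nlinarith [sq_nonneg c])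
    linarith
  linarith

theorem TT_ge (n : ℕ) (c : ℝ) (hc : 0 ≤ c) :
    c / 2 + 5 / 2 * Real.sqrt (c ^ 2 + (2 * (n : ℝ)) ^ 2) + 5 * n
      - Real.sqrt (c ^ 2 + (10 * (n : ℝ)) ^ 2) - 3 / 2 ≤ TT n c := by
  unfold TT
  have h1 := sum_ff_le c (2 * n)
  have h2 := le_sum_ff c (2 * n) (10 * n) (by omega)
  have h3 := ff_le_one c 1 zero_le_one
  have h4 : gg c 0 = -c := by
    unfold gg
    rw [show c ^ 2 + (0 : ℝ) ^ 2 = c ^ 2 by ring, Real.sqrt_sq hc]; ring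
  push_cast at h1 h2
  have h5 := (gg_lip c (10 * (n : ℝ)) (10 * (n : ℝ) + 1 / 2) (by positivity) (by linarith)).1
  have h6 := (gg_lip c (2 * (n : ℝ)) (2 * (n : ℝ) + 1 / 2) (by positivity) (by linarith)).2
  have h7 : gg c (2 * (n : ℝ)) = 2 * n - Real.sqrt (c ^ 2 + (2 * (n : ℝ)) ^ 2) := rfl
  have h8 : gg c (10 * (n : ℝ)) = 10 * n - Real.sqrt (c ^ 2 + (10 * (n : ℝ)) ^ 2) := rfl
  linarith

theorem sqrt_diff (u v A B : ℝ) (hu : 0 ≤ u) (huv : u ≤ v) (hA : 0 ≤ A) (hAB : A ≤ B) :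
    Real.sqrt (v ^ 2 + B) - Real.sqrt (v ^ 2 + A) ≤
      Real.sqrt (u ^ 2 + B) - Real.sqrt (u ^ 2 + A) := by
  have huv2 : u ^ 2 ≤ v ^ 2 := pow_le_pow_left₀ hu huv 2
  have h1 : Real.sqrt (u ^ 2 + A) ≤ Real.sqrt (v ^ 2 + A) := Real.sqrt_le_sqrt (by linarith)
  have h3 : Real.sqrt (u ^ 2 + A) ≤ Real.sqrt (u ^ 2 + B) := Real.sqrt_le_sqrt (by linarith)
  have e1 := Real.sq_sqrt (show 0 ≤ u ^ 2 + A by positivity)
  have e2 := Real.sq_sqrt (show 0 ≤ u ^ 2 + B by nlinarith [sq_nonneg u])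
  have e3 := Real.sq_sqrt (show 0 ≤ v ^ 2 + A by positivity)
  have p1 := Real.sqrt_nonneg (u ^ 2 + A)
  have h : Real.sqrt (v ^ 2 + B) ≤
      Real.sqrt (v ^ 2 + A) + (Real.sqrt (u ^ 2 + B) - Real.sqrt (u ^ 2 + A)) := by
    apply Real.sqrt_le_iff.mpr
    refine ⟨by linarith, ?_⟩
    nlinarith [mul_nonneg (sub_nonneg.2 h1) (sub_nonneg.2 h3)]
  linarith

/-- The bound used on the grid. -/
theorem TT_grid (n : ℕ) (s a b u : ℝ) (hs : 0 ≤ s) (hb : 0 ≤ b) (ha2 : a ^ 2 ≤ s ^ 2 + 4)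
    (hb2 : s ^ 2 + 100 ≤ b ^ 2) (hu : n * s ≤ u) :
    n * (s / 2 + 5 / 2 * a + 5 - b) - 3 / 2 ≤ TT n u := by
  have hn : (0 : ℝ) ≤ n := by positivity
  have hns : 0 ≤ n * s := by positivity
  have h := TT_ge n u (hns.trans hu)
  have h0 : n * a ≤ Real.sqrt ((n * s) ^ 2 + (2 * (n : ℝ)) ^ 2) := by
    apply Real.le_sqrt_of_sq_le
    nlinarith [mul_le_mul_of_nonneg_left ha2 (sq_nonneg (n : ℝ))]
  have h1 : Real.sqrt ((n * s) ^ 2 + (2 * (n : ℝ)) ^ 2) ≤ Real.sqrt (u ^ 2 + (2 * (n : ℝ)) ^ 2) :=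
    Real.sqrt_le_sqrt (by have := pow_le_pow_left₀ hns hu 2; linarith)
  have h2 := sqrt_diff (n * s) u ((2 * (n : ℝ)) ^ 2) ((10 * (n : ℝ)) ^ 2) hns hu (by positivity)
    (by nlinarith [sq_nonneg (n : ℝ)])
  have h3 : Real.sqrt ((n * s) ^ 2 + (10 * (n : ℝ)) ^ 2) ≤ n * b := by
    apply Real.sqrt_le_iff.mpr
    refine ⟨by positivity, ?_⟩
    nlinarith [mul_le_mul_of_nonneg_left hb2 (sq_nonneg (n : ℝ))]
  nlinarith

/-- Cumulative masses of the grid, in hundredths. -/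
def kk (l : ℕ) : ℕ :=
  [0, 2, 2, 3, 3, 3, 4, 5, 5, 6, 7, 8, 9, 10, 11, 13, 15, 17, 19, 22, 25, 29, 33, 39, 45, 52, 60,
    70, 81, 95, 111, 129, 151, 176, 206, 240, 280, 326, 379, 439, 500].getD l 500

/-- Lower bounds for the first square root. -/
def aw (l : ℕ) : ℕ :=
  [200060, 200074, 200092, 200114, 200140, 200173, 200214, 200265, 200327, 200403, 200498, 200615,
    200759, 200937, 201156, 201426, 201759, 202170, 202675, 203298, 204064, 205006, 206162,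
    207582, 209320, 211447, 214044, 217207, 221049, 225703, 231319, 238069, 246148, 255770,
    267172, 280610, 296360, 314720, 336005, 360555].getD l 0

/-- Upper bounds for the second square root. -/
def bw (l : ℕ) : ℕ :=
  [1000013, 1000015, 1000019, 1000023, 1000029, 1000035, 1000043, 1000054, 1000066, 1000081,
    1000100, 1000124, 1000153, 1000188, 1000232, 1000287, 1000354, 1000437, 1000539, 1000665,
    1000821, 1001014, 1001251, 1001544, 1001906, 1002353, 1002904, 1003584, 1004422, 1005457,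
    1006732, 1008305, 1010243, 1012630, 1015570, 1019187, 1023636, 1029102, 1035809,
    1044031].getD l 0

/-- The geometric grid. -/
def ss (l : ℕ) : ℚ := 3 * (9 / 10) ^ (39 - l)

theorem grid_check : ∀ l < 40, kk l ≤ kk (l + 1) ∧ kk (l + 1) ≤ 500 ∧
    ((aw l : ℚ) / 100000) ^ 2 ≤ ss l ^ 2 + 4 ∧ ss l ^ 2 + 100 ≤ ((bw l : ℚ) / 100000) ^ 2 ∧
    (kk (l + 1) : ℚ) / 100 + 1 / 1000 ≤
      ss l / 2 + 5 / 2 * ((aw l : ℚ) / 100000) + 5 - (bw l : ℚ) / 100000 := by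
  decide +kernel

theorem grid_sum : (1195 / 10 : ℚ) ≤
    ∑ l ∈ range 39, (5 * ((kk (l + 1) : ℚ) / 100) - ((kk (l + 1) : ℚ) / 100) ^ 2 / 2) := by
  decide +kernel

theorem ss_pos (l : ℕ) : 0 < ss l := by unfold ss; positivity

/-- Cumulative degrees. -/
def DD (n l : ℕ) : ℕ := n * kk l / 100

/-- Degrees of the factors of the polynomial of degree `t`. -/
def dd (n t l : ℕ) : ℕ := min t (DD n (l + 1)) - min t (DD n l)

theorem DD_mono (n l : ℕ) (hl : l < 40) : DD n l ≤ DD n (l + 1) :=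
  Nat.div_le_div_right (Nat.mul_le_mul_left _ (grid_check l hl).1)

theorem DD_zero (n : ℕ) : DD n 0 = 0 := by simp [DD, kk]

theorem DD_forty (n : ℕ) : DD n 40 = 5 * n := by
  have : kk 40 = 500 := rfl
  unfold DD
  rw [this]
  omega

theorem dd_cast (n t l : ℕ) (hl : l < 40) :
    (dd n t l : ℝ) = ((min t (DD n (l + 1)) : ℕ) : ℝ) - ((min t (DD n l) : ℕ) : ℝ) := by
  unfold dd
  have := DD_mono n l hl
  rw [Nat.cast_sub (by omega)]

theorem sum_dd (n t L : ℕ) (hL : L ≤ 40) : ∑ l ∈ range L, dd n t l = min t (DD n L) := by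
  induction L with
  | zero => simp [DD_zero]
  | succ L ih =>
    rw [sum_range_succ, ih (by omega)]
    have := DD_mono n L (by omega)
    unfold dd
    omega

theorem dd_le (n t l : ℕ) : dd n t l ≤ t := by unfold dd; omega

theorem DD_le (n l : ℕ) : (DD n l : ℝ) ≤ n * ((kk l : ℝ) / 100) := by
  have h := @Nat.cast_div_le ℝ _ _ _ (n * kk l) 100
  unfold DD
  push_cast at h
  linarith

theorem le_DD (n l : ℕ) : n * ((kk l : ℝ) / 100) - 1 ≤ DD n l := by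
  have h : n * kk l < 100 * (DD n l + 1) := by unfold DD; omega
  have h' : ((n * kk l : ℕ) : ℝ) < ((100 * (DD n l + 1) : ℕ) : ℝ) := by exact_mod_cast h
  push_cast at h'
  linarith

theorem mass_le (n t : ℕ) (hn : 1500 ≤ n) (u : ℝ) (hu : 0 ≤ u) :
    ∑ l ∈ (range 40).filter (fun l => (((n : ℚ) * ss l : ℚ) : ℝ) ≤ u), (dd n t l : ℝ) ≤ TT n u := by
  set F := (range 40).filter (fun l => (((n : ℚ) * ss l : ℚ) : ℝ) ≤ u) with hF
  rcases F.eq_empty_or_nonempty with h | h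
  · rw [h]; simpa using TT_nonneg n u hu
  · set L := F.max' h with hL
    have hLF : L ∈ F := F.max'_mem h
    rw [hF, mem_filter, mem_range] at hLF
    have hsub : F ⊆ range (L + 1) := fun l hl => mem_range.mpr (Nat.lt_succ_of_le (F.le_max' l hl))
    have h1 : ∑ l ∈ F, (dd n t l : ℝ) ≤ ∑ l ∈ range (L + 1), (dd n t l : ℝ) :=
      sum_le_sum_of_subset_of_nonneg hsub fun _ _ _ => by positivity
    have h2 : ∑ l ∈ range (L + 1), (dd n t l : ℝ) ≤ DD n (L + 1) := by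
      rw [← Nat.cast_sum, sum_dd n t (L + 1) (by omega)]
      exact_mod_cast min_le_right _ _
    obtain ⟨-, -, ha, hb, hk⟩ := grid_check L hLF.1
    have ha' : ((aw L : ℝ) / 100000) ^ 2 ≤ (ss L : ℝ) ^ 2 + 4 := by
      have := (Rat.cast_le (K := ℝ)).mpr ha
      push_cast at this
      exact this
    have hb' : (ss L : ℝ) ^ 2 + 100 ≤ ((bw L : ℝ) / 100000) ^ 2 := by
      have := (Rat.cast_le (K := ℝ)).mpr hb
      push_cast at this
      exact this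
    have hk' : (kk (L + 1) : ℝ) / 100 + 1 / 1000 ≤
      (ss L : ℝ) / 2 + 5 / 2 * ((aw L : ℝ) / 100000) + 5 - (bw L : ℝ) / 100000 := by
      have := (Rat.cast_le (K := ℝ)).mpr hk
      push_cast at this
      exact this
    have hs : (0 : ℝ) ≤ ss L := by exact_mod_cast (ss_pos L).le
    have h3 := TT_grid n (ss L) _ _ u hs (by positivity) ha' hb' (by simpa using hLF.2)
    have h4 := DD_le n (L + 1)
    have hn' : (1500 : ℝ) ≤ n := by exact_mod_cast hn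
    nlinarith [mul_le_mul_of_nonneg_left hk' (by positivity : (0 : ℝ) ≤ n)]

theorem sum_min_DD (n l : ℕ) (hl : l < 40) :
    (n : ℝ) ^ 2 * (5 * ((kk (l + 1) : ℝ) / 100) - ((kk (l + 1) : ℝ) / 100) ^ 2 / 2) - 8 * n ≤
      ∑ t ∈ range (5 * n), ((min t (DD n (l + 1)) : ℕ) : ℝ) := by
  have hk := (grid_check l hl).2.1
  have hD : DD n (l + 1) ≤ 5 * n := by
    have : n * kk (l + 1) ≤ n * 500 := Nat.mul_le_mul_left _ hk
    unfold DD
    omega
  rw [sum_min _ _ hD]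
  have h1 := DD_le n (l + 1)
  have h2 := le_DD n (l + 1)
  have h3 : (DD n (l + 1) : ℝ) ≤ 5 * n := by exact_mod_cast hD
  have h4 : (0 : ℝ) ≤ DD n (l + 1) := by positivity
  have hn : (0 : ℝ) ≤ n := by positivity
  have h5 : (DD n (l + 1) : ℝ) ^ 2 ≤ (n * ((kk (l + 1) : ℝ) / 100)) ^ 2 :=
    pow_le_pow_left₀ h4 h1 2
  push_cast
  nlinarith [mul_le_mul_of_nonneg_left h2 hn]

/-- Logarithm of the weight at `y = 0`. -/
noncomputable def lw (n : ℕ) : ℝ :=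
  3 * ∑ i ∈ range (2 * n), Real.log ((i : ℝ) + 1 / 2)
    - 2 * ∑ j ∈ Ico (2 * n) (10 * n), Real.log ((j : ℝ) + 1 / 2)

theorem lw_le (n : ℕ) (hn : 1 ≤ n) :
    lw n ≤ -10 * n * Real.log n + (10 - 10 * Real.log 2 - 20 * Real.log 5) * n
      + 5 / 2 * Real.log (10 * n) + 3 := by
  unfold lw
  have hn' : (1 : ℝ) ≤ n := by exact_mod_cast hn
  have h1 := sum_log_le (2 * n)
  have h2 := le_sum_log (2 * n) (10 * n) (by omega) (by omega)
  push_cast at h1 h2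
  have h3 := GG_sub_le (2 * (n : ℝ)) (2 * (n : ℝ) + 1 / 2) (by linarith) (by linarith)
  have h4 := GG_sub_le (10 * (n : ℝ) - 1 / 2) (10 * (n : ℝ)) (by linarith) (by linarith)
  have h5 := le_GG_sub (2 * (n : ℝ) - 1 / 2) (2 * (n : ℝ)) (by linarith) (by linarith)
  have h6 : 0 ≤ Real.log (2 * (n : ℝ) - 1 / 2) := Real.log_nonneg (by linarith)
  have h7 : Real.log (2 * (n : ℝ) + 1 / 2) ≤ Real.log (10 * n) :=
    Real.log_le_log (by linarith) (by linarith)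
  have h8 : -1 ≤ GG (1 / 2) := by
    unfold GG
    have := Real.log_two_lt_d9
    rw [one_div, Real.log_inv]
    linarith
  have h9 : GG (10 * (n : ℝ)) =
      10 * n * Real.log 2 + 10 * n * Real.log 5 + 10 * n * Real.log n - 10 * n := by
    unfold GG
    rw [show 10 * (n : ℝ) = 2 * (5 * n) by ring, Real.log_mul (by norm_num) (by linarith),
      Real.log_mul (by norm_num) (by linarith)]
    ring
  have h10 : GG (2 * (n : ℝ)) = 2 * n * Real.log 2 + 2 * n * Real.log n - 2 * n := by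
    unfold GG
    rw [Real.log_mul (by norm_num) (by linarith)]
    ring
  have e1 : 2 * (n : ℝ) + 1 / 2 - 2 * n = 1 / 2 := by ring
  have e2 : 10 * (n : ℝ) - (10 * (n : ℝ) - 1 / 2) = 1 / 2 := by ring
  have e3 : 2 * (n : ℝ) - (2 * (n : ℝ) - 1 / 2) = 1 / 2 := by ring
  rw [e1] at h3
  rw [e2] at h4
  rw [e3] at h5
  linarith

end Pool.Agent.P.MP_a89d6d_nt.Z34.Energy2
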