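import Pool.Agent.P.MP_a89d6d_nt.Z34.Core
import Pool.Agent.P.MP_a89d6d_nt.Z23.Integral

/-!
The functional as an integral along a vertical line.
-/

namespace Pool.Agent.P.MP_a89d6d_nt.Z34

open Polynomial Finset Filter MeasureTheory Topology
open Pool.Agent.P.MP_a89d6d_nt.Z23 (H D W zpt cheb ach ff D_monic D_natDegree W_monic W_natDegree)
open Pool.Agent.P.MP_a89d6d_nt.Z23.Integral

namespace Integral2

theorem ratio_le2 (K : ℕ) (P : ℚ[X]) (R : ℝ) :
    ∃ C : ℝ, ∀ z : ℂ, -1 / 2 ≤ z.re → z.re ≤ R →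
      ‖aeval z P / aeval z (D K) ^ 2‖ ≤ C * Real.exp |z.im| := by
  obtain ⟨C, hC, h⟩ := poly_le P (|R| + 1)
  refine ⟨C / ((1 / 2) ^ K) ^ 2, fun z h1 h2 => ?_⟩
  have h3 : |z.re| ≤ |R| + 1 := by
    rw [abs_le]
    have := abs_nonneg R
    have := le_abs_self R
    constructor <;> linarith
  rw [norm_div, div_mul_eq_mul_div, norm_pow]
  exact div_le_div₀ (by positivity) (h z h3) (by positivity)
    (pow_le_pow_left₀ (by positivity) (le_norm_D K z h1) 2)

/-- The integral of `P / (D K) ^ 2` against the kernel along the line of abscissa `s - 1/2`. -/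
noncomputable def Lam2 (a b : ℝ) (K : ℕ) (P : ℚ[X]) (s : ℕ) : ℂ :=
  ∫ y : ℝ, aeval (zpt s y) P / aeval (zpt s y) (D K) ^ 2 * om a b y

theorem integrable_Lam2 (a b : ℝ) (K : ℕ) (P : ℚ[X]) (s : ℕ) :
    Integrable fun y : ℝ => aeval (zpt s y) P / aeval (zpt s y) (D K) ^ 2 * om a b y := by
  obtain ⟨C, h⟩ := ratio_le2 K P s
  refine integrable_om a b _ ?_ C fun y => ?_
  · refine Continuous.div ((P.continuous_aeval).comp (continuous_zpt s))
      ((((D K).continuous_aeval).comp (continuous_zpt s)).pow 2) fun y =>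
        pow_ne_zero _ (aeval_D_ne K _ (le_zpt_re s y))
  · have := h (zpt s y) (le_zpt_re s y) (by rw [zpt_re]; linarith)
    rwa [zpt_im] at this

theorem Lam2_shift_zero (a b : ℝ) (K : ℕ) (P : ℚ[X]) (s : ℕ) :
    Lam2 a b K ((X - C (s : ℚ)) ^ 3 * P) (s + 1) = Lam2 a b K ((X - C (s : ℚ)) ^ 3 * P) s := by
  obtain ⟨C0, h⟩ := ratio_le2 K ((X - C (s : ℚ)) ^ 3 * P) (s + 1)
  have hs : (0 : ℝ) ≤ s := by positivity
  have e : ∀ z : ℂ, z ^ 3 * (aeval (z + s) P / aeval (z + s) (D K) ^ 2) =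
      aeval (z + s) ((X - C (s : ℚ)) ^ 3 * P) / aeval (z + s) (D K) ^ 2 := by
    intro z
    simp [mul_div_assoc]
  have key := shift a b (fun z => aeval (z + s) P / aeval (z + s) (D K) ^ 2) ?_ C0 ?_
  · simp only [e] at key
    unfold Lam2
    have e1 : ∀ y : ℝ, zpt (s + 1) y = 1 / 2 + y * Complex.I + s := by
      intro y; unfold zpt; push_cast; ring
    have e2 : ∀ y : ℝ, zpt s y = -1 / 2 + y * Complex.I + s := by
      intro y; unfold zpt; ring
    simp only [e1, e2]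
    exact key
  · refine DifferentiableOn.div ?_ ?_ fun z hz => pow_ne_zero _ (aeval_D_ne K _ ?_)
    · exact (differentiable_shift P s).differentiableOn
    · exact ((differentiable_shift (D K) s).pow 2).differentiableOn
    · have h1 : |z.re| ≤ 1 / 2 := hz
      rw [abs_le] at h1
      simp only [Complex.add_re, Complex.natCast_re]
      linarith [h1.1]
  · intro z hz
    rw [e]
    rw [abs_le] at hz
    have := h (z + s) (by simp only [Complex.add_re, Complex.natCast_re]; linarith [hz.1])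
      (by simp only [Complex.add_re, Complex.natCast_re]; linarith [hz.2])
    simpa using this

theorem Lam2_shift (a b : ℝ) (K : ℕ) (P P1 : ℚ[X]) (s : ℕ) (c0 c1 c2 : ℂ)
    (h : ∀ z : ℂ, aeval z P = (c0 + c1 * (z - s) + c2 * (z - s) ^ 2) * aeval z (D K) ^ 2
      + (z - s) ^ 3 * aeval z P1) :
    Lam2 a b K P (s + 1) - Lam2 a b K P s = a * c1 - b * c2 := by
  have h0 := Lam2_shift_zero a b K P1 s
  set P3 := (X - C (s : ℚ)) ^ 3 * P1 with hP3
  have h1 : Lam2 a b K P (s + 1) - Lam2 a b K P s =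
      (Lam2 a b K P (s + 1) - Lam2 a b K P3 (s + 1)) - (Lam2 a b K P s - Lam2 a b K P3 s) := by
    rw [h0]; ring
  rw [h1]
  unfold Lam2
  have hi : ∀ t : ℕ, Integrable fun y : ℝ =>
      aeval (zpt t y) P / aeval (zpt t y) (D K) ^ 2 * om a b y -
        aeval (zpt t y) P3 / aeval (zpt t y) (D K) ^ 2 * om a b y := fun t =>
    (integrable_Lam2 a b K P t).sub (integrable_Lam2 a b K P3 t)
  rw [← integral_sub (integrable_Lam2 a b K P _) (integrable_Lam2 a b K P3 _),
    ← integral_sub (integrable_Lam2 a b K P _) (integrable_Lam2 a b K P3 _),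
    ← integral_sub (hi _) (hi _)]
  have e : ∀ (t : ℕ) (y : ℝ), aeval (zpt t y) P / aeval (zpt t y) (D K) ^ 2 * om a b y -
      aeval (zpt t y) P3 / aeval (zpt t y) (D K) ^ 2 * om a b y =
      (c0 + c1 * (zpt t y - s) + c2 * (zpt t y - s) ^ 2) * om a b y := by
    intro t y
    have hD := aeval_D_ne K _ (le_zpt_re t y)
    have h3 : aeval (zpt t y) P3 = (zpt t y - s) ^ 3 * aeval (zpt t y) P1 := by
      simp [hP3]
    rw [h, h3]
    field_simp
    ring
  have e2 : ∀ y : ℝ, (c0 + c1 * (zpt (s + 1) y - s) + c2 * (zpt (s + 1) y - s) ^ 2) * om a b y -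
      (c0 + c1 * (zpt s y - s) + c2 * (zpt s y - s) ^ 2) * om a b y =
      c1 * om a b y + c2 * ((2 * (y : ℂ) * Complex.I) * om a b y) := by
    intro y
    unfold zpt
    push_cast
    ring
  simp only [e, e2]
  rw [integral_add ((integrable_om_one a b).const_mul _) ((integrable_om_lin a b).const_mul _),
    integral_const_mul, integral_const_mul, integral_om, integral_mul_om]
  ring

theorem Lam2_one_eq (a b : ℝ) (j : ℕ) :
    Lam2 a b 1 1 j = ∫ y : ℝ, 1 / (zpt 0 y + j + 1) ^ 2 * om a b y := by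
  unfold Lam2
  refine integral_congr_ae (Eventually.of_forall fun y => ?_)
  have e : zpt j y = zpt 0 y + j := by
    unfold zpt; push_cast; ring
  simp [aeval_D, e]

theorem integrable_pole2 (a b : ℝ) (j : ℕ) :
    Integrable fun y : ℝ => 1 / (zpt 0 y + j + 1) ^ 2 * om a b y := by
  refine (integrable_Lam2 a b 1 1 j).congr (Eventually.of_forall fun y => ?_)
  have e : zpt j y = zpt 0 y + j := by
    unfold zpt; push_cast; ring
  simp [aeval_D, e]

theorem Lam2_one_succ (a b : ℝ) (j : ℕ) :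
    Lam2 a b 1 1 (j + 1) - Lam2 a b 1 1 j =
      -(2 * a) / ((j : ℂ) + 1) ^ 3 - 3 * b / ((j : ℂ) + 1) ^ 4 := by
  have hj : (j : ℂ) + 1 ≠ 0 := by exact_mod_cast Nat.succ_ne_zero j
  have h := Lam2_shift a b 1 1
    (C (-4 / ((j : ℚ) + 1) ^ 3) + C (-3 / ((j : ℚ) + 1) ^ 4) * (X - C (j : ℚ))) j
    (1 / ((j : ℂ) + 1) ^ 2) (-2 / ((j : ℂ) + 1) ^ 3) (3 / ((j : ℂ) + 1) ^ 4) fun z => by
      simp only [map_one, aeval_D, range_one, prod_singleton, aeval_C, eq_ratCast, map_add,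
        map_mul, map_sub, aeval_X]
      push_cast
      field_simp
      ring
  rw [h]
  ring

theorem Lam2_one_sub (a b : ℝ) (j : ℕ) :
    Lam2 a b 1 1 j = Lam2 a b 1 1 0 - 2 * a * (H 3 j : ℂ) - 3 * b * (H 4 j : ℂ) := by
  induction j with
  | zero => simp [H]
  | succ j ih =>
    have h := Lam2_one_succ a b j
    unfold H at ih ⊢
    rw [sum_range_succ, sum_range_succ]
    push_cast at ih ⊢
    linear_combination h + ih

theorem tendsto_Lam2_one (a b : ℝ) : Tendsto (fun j => Lam2 a b 1 1 j) atTop (𝓝 0) := by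
  have hi := (integrable_om_one a b).norm
  have hb : ∀ j : ℕ, ‖Lam2 a b 1 1 j‖ ≤ (∫ y, ‖om a b y‖) * (4 * (1 / ((j : ℝ) + 1))) := by
    intro j
    rw [Lam2_one_eq, ← integral_mul_const]
    refine norm_integral_le_of_norm_le (hi.mul_const _) (Eventually.of_forall fun y => ?_)
    rw [norm_mul, mul_comm]
    refine mul_le_mul_of_nonneg_left ?_ (norm_nonneg _)
    have h1 := half_le_norm (zpt 0 y) (le_zpt_re 0 y) j
    have hj : (0 : ℝ) ≤ j := by positivity
    have h2 : ((j : ℝ) + 1 / 2) ^ 2 ≤ ‖zpt 0 y + j + 1‖ ^ 2 :=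
      pow_le_pow_left₀ (by positivity) h1 2
    rw [norm_div, norm_one, norm_pow, mul_one_div,
      div_le_div_iff₀ (lt_of_lt_of_le (by positivity) h2) (by positivity)]
    nlinarith
  refine squeeze_zero_norm hb ?_
  simpa using (tendsto_one_div_add_atTop_nhds_zero_nat.const_mul 4).const_mul (∫ y, ‖om a b y‖)

theorem Lam2_one (a b : ℝ) (j : ℕ) :
    Lam2 a b 1 1 j = 2 * a * riemannZeta 3 + 3 * b * riemannZeta 4
      - 2 * a * (H 3 j : ℂ) - 3 * b * (H 4 j : ℂ) := by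
  have h1 := ((tendsto_const_nhds (x := Lam2 a b 1 1 0)).sub
    ((tendsto_H 3 (by norm_num)).const_mul (2 * a : ℂ))).sub
    ((tendsto_H 4 (by norm_num)).const_mul (3 * b : ℂ))
  simp only [← Lam2_one_sub] at h1
  have h2 := tendsto_nhds_unique h1 (tendsto_Lam2_one a b)
  rw [Lam2_one_sub]
  push_cast at h2
  linear_combination h2

theorem Lam2_eq_L (a b x : ℚ) (hx : (x : ℂ) = 2 * a * riemannZeta 3 + 3 * b * riemannZeta 4)
    (K : ℕ) (P : ℚ[X]) (hP : P.natDegree + 1 < 2 * K) :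
    Lam2 a b K P 0 = (L a b x K P : ℂ) := by
  have e : ∀ y : ℝ, aeval (zpt 0 y) P / aeval (zpt 0 y) (D K) ^ 2 * om a b y =
      ∑ j ∈ range K, ((cA K P j : ℂ) * (1 / (zpt 0 y + j + 1) ^ 2 * om a b y) +
        (cB K P j : ℂ) * (1 / (zpt 0 y + j + 1) * om a b y)) := by
    intro y
    have hD := aeval_D_ne K _ (le_zpt_re 0 y)
    have h1 := congrArg (aeval (zpt 0 y)) (partial_fractions K P (by omega))
    rw [map_sum] at h1
    rw [h1, sum_div, sum_mul]
    refine sum_congr rfl fun j hj => ?_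
    rw [D_eq (mem_range.mp hj), map_mul] at hD ⊢
    have h2 := left_ne_zero_of_mul hD
    have h3 := right_ne_zero_of_mul hD
    simp only [tm, map_add, map_mul, map_pow, aeval_C, aeval_X, eq_ratCast, map_one] at h2 ⊢
    push_cast at h2 ⊢
    rw [← add_assoc] at h2 ⊢
    field_simp
  have h1 : Lam2 a b K P 0 =
      ∑ j ∈ range K, ((cA K P j : ℂ) * Lam2 a b 1 1 j + (cB K P j : ℂ) * Lam a b 1 1 j) := by
    simp only [Lam_one_eq, Lam2_one_eq]
    unfold Lam2
    simp only [e]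
    have hi : ∀ j ∈ range K, Integrable fun y : ℝ =>
        (cA K P j : ℂ) * (1 / (zpt 0 y + j + 1) ^ 2 * om a b y) +
          (cB K P j : ℂ) * (1 / (zpt 0 y + j + 1) * om a b y) := fun j _ =>
      ((integrable_pole2 _ _ j).const_mul _).add ((integrable_pole _ _ j).const_mul _)
    rw [integral_finsetSum _ hi]
    refine sum_congr rfl fun j _ => ?_
    rw [integral_add ((integrable_pole2 _ _ j).const_mul _) ((integrable_pole _ _ j).const_mul _),
      integral_const_mul, integral_const_mul]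
  have h2 : ∑ j ∈ range K, (cB K P j : ℂ) = 0 := by exact_mod_cast sum_cB K P hP
  rw [h1]
  unfold L
  simp only [Lam_one, Lam2_one]
  push_cast
  rw [hx, ← sub_eq_zero, ← sum_sub_distrib,
    ← zero_mul ((a : ℂ) * riemannZeta 2 + b * riemannZeta 3), ← h2, sum_mul]
  exact sum_congr rfl fun j _ => by ring

theorem Lam2_W (a b : ℝ) (K n : ℕ) (P : ℚ[X]) (s : ℕ) (hs : s ≤ n) :
    Lam2 a b K (W n ^ 3 * P) s = Lam2 a b K (W n ^ 3 * P) 0 := by
  induction s with
  | zero => rfl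
  | succ s ih =>
    rw [← ih (by omega)]
    have h : W n ^ 3 * P = (X - C (s : ℚ)) ^ 3 *
        ((∏ i ∈ (range n).erase s, (X - C (i : ℚ))) ^ 3 * P) := by
      unfold W
      rw [← mul_prod_erase _ _ (mem_range.2 (show s < n by omega))]
      ring
    rw [h, Lam2_shift_zero]

theorem norm_Lam2_le (a b : ℝ) (n : ℕ) (P : ℚ[X]) (B : ℝ) (h : ∀ y : ℝ, wt n P y ≤ B) :
    ‖Lam2 a b (8 * n) P (2 * n)‖ ≤ kc a b * Real.pi * B := by
  have hk := kc_nonneg a b
  have h1 : kc a b * Real.pi * B = ∫ y : ℝ, kc a b * B * (1 + y ^ 2)⁻¹ := by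
    rw [integral_const_mul, integral_univ_inv_one_add_sq]
    ring
  rw [h1]
  refine norm_integral_le_of_norm_le (integrable_inv_one_add_sq.const_mul _)
    (Eventually.of_forall fun y => ?_)
  rw [norm_mul, norm_div, norm_pow]
  have h2 := h y
  unfold wt at h2
  have h3 : (0 : ℝ) < 1 + y ^ 2 := by positivity
  set N := ‖aeval (zpt (2 * n) y) P‖ / ‖aeval (zpt (2 * n) y) (D (8 * n))‖ ^ 2 with hN
  have hN0 : 0 ≤ N := by positivity
  rw [mul_div_assoc, ← hN] at h2
  refine (mul_le_mul_of_nonneg_left (norm_om_le a b y) hN0).trans ?_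
  rw [← div_eq_mul_inv, le_div_iff₀ h3]
  have := mul_le_mul_of_nonneg_left h2 hk
  linarith

end Integral2

theorem L_bound (a b : ℤ) (x : ℚ)
    (hx : (x : ℂ) = 2 * a * riemannZeta 3 + 3 * b * riemannZeta 4) :
    ∃ Cst : ℝ, 0 < Cst ∧ ∀ (n : ℕ) (P : ℚ[X]) (B : ℝ),
      (W (2 * n) ^ 3 * P).natDegree + 1 < 2 * (8 * n) →
      (∀ y : ℝ, wt n (W (2 * n) ^ 3 * P) y ≤ B) →
      |(L a b x (8 * n) (W (2 * n) ^ 3 * P) : ℝ)| ≤ Cst * B := by
  have hk := kc_nonneg ((a : ℚ) : ℝ) ((b : ℚ) : ℝ)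
  have hp := Real.pi_pos
  refine ⟨kc ((a : ℚ) : ℝ) ((b : ℚ) : ℝ) * Real.pi + 1, by positivity, fun n P B hd h => ?_⟩
  have hB : 0 ≤ B := by
    refine le_trans ?_ (h 0)
    unfold wt
    positivity
  have h1 := Integral2.norm_Lam2_le ((a : ℚ) : ℝ) ((b : ℚ) : ℝ) n _ B h
  rw [Integral2.Lam2_W _ _ _ _ _ _ le_rfl,
    Integral2.Lam2_eq_L (a : ℚ) (b : ℚ) x (by simpa using hx) _ _ hd, ← Complex.ofReal_ratCast,
    Complex.norm_real, Real.norm_eq_abs] at h1
  linarith

end Pool.Agent.P.MP_a89d6d_nt.Z34
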