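import Pool.Agent.P.MP_a89d6d_nt.Z34.Local
import Pool.Agent.P.MP_a89d6d_nt.Z23.Large

/-!
Valuation of the Hankel determinant at the primes `p ≥ 4 n`.
-/

namespace Pool.Agent.P.MP_a89d6d_nt.Z34

open Polynomial Finset Filter
open Pool.Agent.P.MP_a89d6d_nt.Z23 (H D W W_monic W_natDegree det_norm_le le_val_of_norm_le
  norm_H_le)
open Pool.Agent.P.MP_a89d6d_nt.Z23.Medium (cnt cnt_eq)
open Pool.Agent.P.MP_a89d6d_nt.Z23.Large (IsZ isZ_X isZ_W isZ_Pi Pi Pi_monic Pi_natDegree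
  norm_int_le)
open Pool.Agent.P.MP_a89d6d_nt.Z23.Local

namespace Large2

theorem L_cancel (a b x : ℚ) (K : ℕ) (P : ℚ[X]) :
    L a b x (K + 1) ((X + C ((K : ℚ) + 1)) ^ 2 * P) = L a b x K P := by
  unfold L
  rw [sum_range_succ]
  have h1 : cA (K + 1) ((X + C ((K : ℚ) + 1)) ^ 2 * P) K = 0 := by simp [cA]
  have h2 : cB (K + 1) ((X + C ((K : ℚ) + 1)) ^ 2 * P) K = 0 := by
    rw [cB, h1]
    simp [derivative_mul, derivative_pow]
  rw [h1, h2, zero_mul, zero_mul, add_zero, add_zero]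
  refine sum_congr rfl fun j hj => ?_
  have hjK : j < K := mem_range.1 hj
  have hne : (K : ℚ) - j ≠ 0 := by
    have : (j : ℚ) < K := by exact_mod_cast hjK
    exact (sub_pos.2 this).ne'
  have hd := dn_ne_zero K j
  have e : -((j : ℚ) + 1) + ((K : ℚ) + 1) = K - j := by ring
  have h3 : cA (K + 1) ((X + C ((K : ℚ) + 1)) ^ 2 * P) j = cA K P j := by
    simp only [cA, dn_succ hjK, eval_mul, eval_pow, eval_add, eval_X, eval_C, e]
    field_simp
  have h4 : cB (K + 1) ((X + C ((K : ℚ) + 1)) ^ 2 * P) j = cB K P j := by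
    rw [cB, cB, h3, sg_succ hjK]
    simp only [cA, dn_succ hjK, derivative_mul, derivative_pow, derivative_add, derivative_X,
      derivative_C, eval_mul, eval_pow, eval_add, eval_X, eval_C, e, eval_one, eval_zero,
      Nat.cast_ofNat]
    field_simp
    ring
  rw [h3, h4]

theorem L_cancel_Pi (a b x : ℚ) (A : ℕ) : ∀ (d : ℕ) (P : ℚ[X]),
    L a b x (A + d) (Pi A d ^ 2 * P) = L a b x A P := by
  intro d
  induction d with
  | zero => intro P; simp [Pi]
  | succ d ih =>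
    intro P
    have h1 : Pi A (d + 1) ^ 2 * P =
        (X + C (((A + d : ℕ) : ℚ) + 1)) ^ 2 * (Pi A d ^ 2 * P) := by
      unfold Pi
      rw [Finset.prod_range_succ]
      ring
    rw [h1, ← add_assoc, L_cancel, ih]

theorem isZ_deriv {P : ℚ[X]} (hP : IsZ P) : IsZ P.derivative := by
  obtain ⟨R, hR⟩ := (Polynomial.mem_lifts _).1 hP
  exact (Polynomial.mem_lifts _).2 ⟨R.derivative, by rw [← hR, derivative_map]⟩

variable (p : ℕ) [hp : Fact p.Prime]

theorem cnt_le (m k : ℕ) (h : m ≤ k * p) (v : ℤ) : cnt p m v ≤ k := by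
  have h1 : cnt p m v ≤ cnt p (k * p) v :=
    card_le_card (filter_subset_filter _ (range_subset_range.2 h))
  refine h1.trans ?_
  rw [cnt_eq hp.out.pos]
  simp [Nat.mul_div_cancel _ hp.out.pos]

theorem V_of_isZ {P : ℚ[X]} (hP : IsZ P) (y : ℤ) : V p 0 P y :=
  ⟨by simpa using hP.norm_eval p y,
    ((isZ_deriv hP).norm_eval p y).trans (by simpa using one_le_p p)⟩

theorem V_Pi (A d : ℕ) (hA : A ≤ p) (j : ℕ) :
    V p ((cnt p (A + d) j : ℤ) - 1) (Pi A d) (-((j : ℤ) + 1)) := by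
  have h := V.prod (p := p) (range d) (y := -((j : ℤ) + 1)) fun i _ =>
    V.lin (-(((A + i : ℕ) : ℤ) + 1)) (-((j : ℤ) + 1))
  have e : Pi A d = ∏ i ∈ range d, (X - C (((-(((A + i : ℕ) : ℤ) + 1) : ℤ) : ℚ))) := by
    unfold Pi
    refine prod_congr rfl fun i _ => ?_
    rw [sub_eq_add_neg, ← map_neg]
    congr 2
    push_cast
    ring
  rw [e]
  refine h.mono ?_
  have h1 := cnt_le p A 1 (by omega) j
  have h2 : (cnt p (A + d) j : ℤ) = cnt p A j + ∑ i ∈ range d,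
      if (p : ℤ) ∣ -((j : ℤ) + 1) - -(((A + i : ℕ) : ℤ) + 1) then 1 else 0 := by
    rw [cnt, cnt, card_filter, card_filter, sum_range_add]
    push_cast
    congr 1
    refine sum_congr rfl fun i _ => ?_
    rw [show -((j : ℤ) + 1) - -((A : ℤ) + i + 1) = A + i - j by ring]
  omega

theorem norm_L_small (a b : ℤ) (x : ℚ) (hx : ¬ p ∣ x.den) (A : ℕ) (hA : A ≤ p) (P : ℚ[X])
    (hP : IsZ P) : ‖((L a b x A P : ℚ) : ℚ_[p])‖ ≤ 1 := by
  unfold L
  rw [Rat.cast_sum]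
  apply norm_sum_le_of zero_le_one
  intro j hj
  have hj' := mem_range.1 hj
  have hH : ∀ (c : ℤ) (s i : ℕ), i < p → ‖(((c : ℚ) * H s i : ℚ) : ℚ_[p])‖ ≤ 1 := by
    intro c s i hi
    have := norm_H_le p s i i le_rfl
    rw [Nat.log_of_lt hi, mul_zero, pow_zero] at this
    rw [Rat.cast_mul, norm_mul]
    exact mul_le_one₀ (norm_int_le p c) (norm_nonneg _) this
  have hd : ‖(((dn A j ^ 2)⁻¹ : ℚ) : ℚ_[p])‖ ≤ 1 := by
    rw [← inv_pow, Rat.cast_pow, norm_pow]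
    refine pow_le_one₀ (norm_nonneg _) ?_
    have h2 := hp.out.two_le
    refine (norm_inv_dn A j (by nlinarith) hj').trans ?_
    refine zpow_le_one_of_nonpos₀ (one_le_p p) ?_
    have := cnt_le p A 1 (by omega) j
    omega
  have e0 : ((-((j : ℤ) + 1) : ℤ) : ℚ) = -((j : ℚ) + 1) := by push_cast; rfl
  have h1 := hP.norm_eval p (-((j : ℤ) + 1))
  have h2 := (isZ_deriv hP).norm_eval p (-((j : ℤ) + 1))
  rw [e0] at h1 h2
  have hA' : ‖((cA A P j : ℚ) : ℚ_[p])‖ ≤ 1 := by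
    rw [cA, div_eq_mul_inv, Rat.cast_mul, norm_mul]
    exact mul_le_one₀ h1 (norm_nonneg _) hd
  have hs : ‖((2 * sg A j : ℚ) : ℚ_[p])‖ ≤ 1 := by
    rw [sg, mul_sub, Rat.cast_sub]
    exact norm_sub_le_of (by simpa using hH 2 1 (A - 1 - j) (by omega))
      (by simpa using hH 2 1 j (by omega))
  have hB : ‖((cB A P j : ℚ) : ℚ_[p])‖ ≤ 1 := by
    rw [cB, Rat.cast_sub]
    apply norm_sub_le_of
    · rw [div_eq_mul_inv, Rat.cast_mul, norm_mul]
      exact mul_le_one₀ h2 (norm_nonneg _) hd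
    · rw [show 2 * cA A P j * sg A j = cA A P j * (2 * sg A j) by ring, Rat.cast_mul, norm_mul]
      exact mul_le_one₀ hA' (norm_nonneg _) hs
  have h4 : ‖((x - 2 * a * H 3 j - 3 * b * H 4 j : ℚ) : ℚ_[p])‖ ≤ 1 := by
    rw [Rat.cast_sub, Rat.cast_sub]
    refine norm_sub_le_of (norm_sub_le_of (Padic.norm_rat_le_one hx) ?_) ?_
    · simpa using hH (2 * a) 3 j (by omega)
    · simpa using hH (3 * b) 4 j (by omega)
  have h5 : ‖((-(a * H 2 j) - b * H 3 j : ℚ) : ℚ_[p])‖ ≤ 1 := by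
    rw [Rat.cast_sub, Rat.cast_neg]
    refine norm_sub_le_of ?_ (hH b 3 j (by omega))
    rw [norm_neg]
    exact hH a 2 j (by omega)
  rw [Rat.cast_add]
  apply norm_add_le_of
  · rw [Rat.cast_mul, norm_mul]
    exact mul_le_one₀ hA' (norm_nonneg _) h4
  · rw [Rat.cast_mul, norm_mul]
    exact mul_le_one₀ hB (norm_nonneg _) h5

theorem norm_L_big (a b : ℤ) (x : ℚ) (hx : ¬ p ∣ x.den) (K : ℕ) (hK : K ≤ 2 * p)
    (hK2 : K < p ^ 2) (P : ℚ[X]) (hP : IsZ P) :
    ‖((L a b x K P : ℚ) : ℚ_[p])‖ ≤ (p : ℝ) ^ (6 : ℕ) := by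
  have := local_bound a b x hx K P hK2 (-4) fun j _ => (V_of_isZ p hP _).mono (by
    have := cnt_le p K 2 hK j
    omega)
  simpa using this

theorem norm_L_mid (a b : ℤ) (x : ℚ) (hx : ¬ p ∣ x.den) (A d : ℕ) (hA : A ≤ p)
    (hK : A + d ≤ 2 * p) (hK2 : A + d < p ^ 2) (P : ℚ[X]) (hP : IsZ P) :
    ‖((L a b x (A + d) (Pi A d * P) : ℚ) : ℚ_[p])‖ ≤ (p : ℝ) ^ (5 : ℕ) := by
  have := local_bound a b x hx (A + d) (Pi A d * P) hK2 (-3) fun j _ =>
    ((V_Pi p A d hA j).mul (V_of_isZ p hP _)).mono (by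
      have := cnt_le p (A + d) 2 hK j
      omega)
  simpa using this

end Large2

open Large2 in
theorem val_large (a b : ℤ) (x : ℚ) (n p : ℕ) (hp : p.Prime) (h8 : 8 * n < p ^ 2)
    (h4 : 4 * n ≤ p) (hx : ¬ p ∣ x.den) (h0 : Delta a b x n ≠ 0) :
    -10 * ((8 * n - p : ℕ) : ℝ) ≤ (padicValRat p (Delta a b x n) : ℝ) := by
  have : Fact p.Prime := ⟨hp⟩
  set N : ℕ := 8 * n - p with hN
  set A : ℕ := min (8 * n) p with hA
  have hAN : A + N = 8 * n := by omega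
  have hp1 := one_le_p p
  let φ : Fin (5 * n) → ℚ[X] := fun t =>
    if (t : ℕ) < N then X ^ (t : ℕ) else Pi A N * X ^ ((t : ℕ) - N)
  have hm : ∀ t, (φ t).Monic := by
    intro t
    simp only [φ]
    split_ifs
    · exact Polynomial.monic_X_pow _
    · exact (Pi_monic A N).mul (Polynomial.monic_X_pow _)
  have hd : ∀ t, (φ t).natDegree = (t : ℕ) := by
    intro t
    simp only [φ]
    split_ifs with h
    · exact Polynomial.natDegree_X_pow _
    · rw [(Pi_monic A N).natDegree_mul (Polynomial.monic_X_pow _), Pi_natDegree,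
        Polynomial.natDegree_X_pow]
      omega
  let ex : ℕ → ℕ := fun t => if t < N then 5 else 0
  have hW : IsZ (W (2 * n) ^ 3) := (isZ_W _).pow 3
  have hentry : ∀ t u : Fin (5 * n),
      ‖((gram a b x n φ t u : ℚ) : ℚ_[p])‖ ≤ (p : ℝ) ^ ex t * (p : ℝ) ^ ex u := by
    intro t u
    simp only [gram, Matrix.of_apply, ex, φ]
    split_ifs with h h'
    · refine (norm_L_big p a b x hx _ (by omega) h8 _
        ((hW.mul (isZ_X.pow _)).mul (isZ_X.pow _))).trans ?_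
      rw [← pow_add]
      exact pow_le_pow_right₀ hp1 (by norm_num)
    · have h1 := norm_L_mid p a b x hx A N (by omega) (by omega) (by omega) _
        ((hW.mul (isZ_X.pow (t : ℕ))).mul (isZ_X.pow ((u : ℕ) - N)))
      rw [hAN] at h1
      rw [pow_zero, mul_one, show W (2 * n) ^ 3 * X ^ (t : ℕ) * (Pi A N * X ^ ((u : ℕ) - N)) =
        Pi A N * (W (2 * n) ^ 3 * X ^ (t : ℕ) * X ^ ((u : ℕ) - N)) by ring]
      exact h1
    · have h1 := norm_L_mid p a b x hx A N (by omega) (by omega) (by omega) _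
        ((hW.mul (isZ_X.pow ((t : ℕ) - N))).mul (isZ_X.pow (u : ℕ)))
      rw [hAN] at h1
      rw [pow_zero, one_mul, show W (2 * n) ^ 3 * (Pi A N * X ^ ((t : ℕ) - N)) * X ^ (u : ℕ) =
        Pi A N * (W (2 * n) ^ 3 * X ^ ((t : ℕ) - N) * X ^ (u : ℕ)) by ring]
      exact h1
    · have h1 := norm_L_small p a b x hx A (by omega) _
        ((hW.mul (isZ_X.pow ((t : ℕ) - N))).mul (isZ_X.pow ((u : ℕ) - N)))
      rw [← L_cancel_Pi _ _ _ A N, hAN] at h1
      rw [pow_zero, one_mul,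
        show W (2 * n) ^ 3 * (Pi A N * X ^ ((t : ℕ) - N)) * (Pi A N * X ^ ((u : ℕ) - N)) =
        Pi A N ^ 2 * (W (2 * n) ^ 3 * X ^ ((t : ℕ) - N) * X ^ ((u : ℕ) - N)) by ring]
      exact h1
  have hdet := det_norm_le p (gram a b x n φ) (fun t => (p : ℝ) ^ ex t) (fun t => (p : ℝ) ^ ex t)
    (fun _ => by positivity) (fun _ => by positivity) hentry
  rw [det_gram_monic a b x n φ hm hd, Finset.prod_pow_eq_pow_sum,
    Fin.sum_univ_eq_sum_range ex (5 * n), ← pow_add] at hdet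
  have hsum : ∑ t ∈ range (5 * n), ex t ≤ 5 * N := by
    simp only [ex]
    rw [← sum_filter, sum_const, smul_eq_mul, mul_comm]
    refine Nat.mul_le_mul_left _ ((card_le_card (t := range N) fun t ht => ?_).trans (by simp))
    exact mem_range.2 (mem_filter.1 ht).2
  have hval := le_val_of_norm_le p _ h0
    (-((∑ t ∈ range (5 * n), ex t + ∑ t ∈ range (5 * n), ex t : ℕ) : ℝ))
    (by rw [neg_neg, Real.rpow_natCast]; exact hdet)
  refine le_trans ?_ hval
  have hs : ((∑ t ∈ range (5 * n), ex t + ∑ t ∈ range (5 * n), ex t : ℕ) : ℝ) ≤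
      ((10 * N : ℕ) : ℝ) := by exact_mod_cast (by omega)
  push_cast at hs ⊢
  linarith

end Pool.Agent.P.MP_a89d6d_nt.Z34
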