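import Pool.Agent.P.MP_a89d6d_nt.Z34.Nonzero1
import Pool.Agent.P.MP_a89d6d_nt.Z34.Large
import Pool.Agent.P.MP_a89d6d_nt.Z23.Nonzero

/-!
The Hankel determinant does not vanish when `n` is a large prime.
-/

namespace Pool.Agent.P.MP_a89d6d_nt.Z34

open Polynomial Finset Filter
open Pool.Agent.P.MP_a89d6d_nt.Z23 (H W W_natDegree)
open Pool.Agent.P.MP_a89d6d_nt.Z23.Nonzero (Cg Un wilson p_ne_zero Wc Wc_natDegree_le cg_Wc
  cg_Wc_self cg_of_large un_of_large)
open Pool.Agent.P.MP_a89d6d_nt.Z23.Large (IsZ isZ_prod isZ_X isZ_C)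

namespace Nonzero2

/-- Value of `(t (t - 1)) ^ 3 t ^ e`. -/
def v0 (e : ℕ) (t : ℚ) : ℚ := (t * (t - 1)) ^ 3 * t ^ e

/-- Value of the derivative of `(t (t - 1)) ^ 3 t ^ e`. -/
def v1 (e : ℕ) (t : ℚ) : ℚ :=
  3 * (t * (t - 1)) ^ 2 * (2 * t - 1) * t ^ e + (t * (t - 1)) ^ 3 * (e * t ^ (e - 1))

/-- The functional with eight double poles on `(t (t - 1)) ^ 3 t ^ e`. -/
def gam (e : ℕ) : ℚ :=
  ∑ j ∈ range 8, (v0 e (-((j : ℚ) + 1)) / dn 8 j ^ 2 * (0 - 2 * 0 * H 3 j - 3 * 1 * H 4 j)
    + (v1 e (-((j : ℚ) + 1)) / dn 8 j ^ 2 - 2 * (v0 e (-((j : ℚ) + 1)) / dn 8 j ^ 2) * sg 8 j)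
      * (-(0 * H 2 j) - 1 * H 3 j))

theorem W_two : W 2 = X * (X - 1) := by simp [W, prod_range_succ]

theorem L_X_pow (e : ℕ) : L 0 1 0 8 (W 2 ^ 3 * X ^ e) = gam e := by
  have h0 : ∀ t : ℚ, (W 2 ^ 3 * X ^ e : ℚ[X]).eval t = v0 e t := fun t => by simp [W_two, v0]
  have h1 : ∀ t : ℚ, (W 2 ^ 3 * X ^ e : ℚ[X]).derivative.eval t = v1 e t := fun t => by
    simp only [W_two, v1, derivative_mul, derivative_pow, derivative_X, derivative_sub,
      derivative_one, eval_add, eval_mul, eval_pow, eval_sub, eval_X, eval_one, eval_C, eval_zero,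
      Nat.cast_ofNat]
    ring
  simp only [L, gam, cA, cB, h0, h1]

/-- Lower triangular factor. -/
def Lm : Matrix (Fin 5) (Fin 5) ℚ :=
  !![1, 0, 0, 0, 0;
    -78494975947291173/14363738040394516, 1, 0, 0, 0;
    2199498370113022579/71818690201972580, -174330451037971920232808714213405/16034942117327753183370044024431, 1, 0, 0;
    -12614527169002299407/71818690201972580, 1456538723840355348171984793150737/16034942117327753183370044024431, -1992609234238586470731338754906302057428339/122875960097870371416587162067809910920748, 1, 0;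
    73904675871985433439/71818690201972580, -11062384059204468058675243430927137/16034942117327753183370044024431, 3676012745534293245049035973543988955891153/20479326682978395236097860344634985153458, -8074636064507097683720368466031575760226180942369110/375587984898076935937580312256270690158349358180849, 1]

/-- Upper triangular factor. -/
def Um : Matrix (Fin 5) (Fin 5) ℚ :=
  !![-3590934510098629/329341904640000, 26164991982430391/439122539520000, -2199498370113022579/6586838092800000, 12614527169002299407/6586838092800000, -24634891957328477813/2195612697600000;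
    0, -16034942117327753183370044024431/1930849324070837206714675200000, 34866090207594384046561742842681/386169864814167441342935040000, -485512907946785116057328264383579/643616441356945735571558400000, 11062384059204468058675243430927137/1930849324070837206714675200000;
    0, 0, -10239663341489197618048930172317492576729/865886874335698671901982377319274000000, 1992609234238586470731338754906302057428339/10390642492028384062823788527831288000000, -1225337581844764415016345324514662985297051/577257916223799114601321584879516000000;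
    0, 0, 0, -375587984898076935937580312256270690158349358180849/15924724428684000135589696203988164455328940800000, 269154535483569922790678948867719192007539364745637/530824147622800004519656540132938815177631360000;
    0, 0, 0, 0, -1868249154746209563409453623025737764465814885549827626849/31690236225775241469733338846622839482110727096509134375]

theorem gam_LU : ∀ i k : Fin 5, gam (i + k) = (Lm * Um) i k := by
  decide +kernel

theorem gram_loc : gram 0 1 0 1 (fun i : Fin (5 * 1) => (X : ℚ[X]) ^ (i : ℕ)) = Lm * Um := by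
  ext i k
  have h := gam_LU i k
  rw [← L_X_pow] at h
  rw [← h]
  simp only [gram, Matrix.of_apply, pow_add, mul_assoc, mul_one]

theorem det_Lm : Lm.det = 1 := by
  rw [Matrix.det_of_isLowerTriangular Lm (by
    intro i j; revert i j; decide +kernel)]
  decide +kernel

theorem det_Um : Um.det ≠ 0 := by
  rw [Matrix.det_of_isUpperTriangular (by
    intro i j; revert i j; decide +kernel)]
  decide +kernel

theorem Delta_loc : Delta 0 1 0 1 ≠ 0 := by
  unfold Delta
  rw [gram_loc]
  exact (Matrix.det_mul Lm Um).trans_ne (by rw [det_Lm, one_mul]; exact det_Um)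

/-- A basis adapted to the residue classes. -/
noncomputable def phi (p : ℕ) (t : Fin (5 * 1) × Fin p) : ℚ[X] :=
  (-W p) ^ (t.1 : ℕ) * Wc p t.2

theorem phi_natDegree_le (p : ℕ) (t : Fin (5 * 1) × Fin p) :
    (phi p t).natDegree ≤ 4 * p + (p - 1) := by
  unfold phi
  refine natDegree_mul_le.trans (add_le_add (natDegree_pow_le.trans ?_)
    (Wc_natDegree_le p _ t.2.2))
  rw [natDegree_neg, W_natDegree]
  have : (t.1 : ℕ) < 5 := t.1.2
  exact Nat.mul_le_mul_right p (by omega)

variable {p : ℕ} [hp : Fact p.Prime]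

theorem cg_deriv {P : ℚ[X]} (hP : IsZ P) (c : ℕ) (w : ℤ) :
    Cg p (P.derivative.eval ((c : ℚ) + (p : ℚ) * (w : ℚ)))
      (P.derivative.eval ((c : ℚ) + (p : ℚ) * (w : ℚ))) := by
  obtain ⟨z, hz⟩ := (Large2.isZ_deriv hP).eval ((c : ℤ) + p * w)
  push_cast at hz
  rw [hz]
  exact Cg.int z

theorem isZ_lin' (z : ℤ) : IsZ (X - C (z : ℚ)) := isZ_X.sub (isZ_C z)

theorem cp_Wc (c c' : ℕ) (hc : c < p) (w : ℤ) :
    CP p (Wc p c') ((c : ℚ) + (p : ℚ) * (w : ℚ)) (if c' = c then -1 else 0) 1 w :=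
  CP.const _ (cg_Wc c c' hc w)
    (cg_deriv (isZ_prod _ _ fun i _ => by simpa using isZ_lin' (i : ℤ)) c w)

theorem cp_W (c : ℕ) (hc : c < p) (w : ℤ) :
    CP p ((p : ℚ)⁻¹ • W p) ((c : ℚ) + (p : ℚ) * (w : ℚ)) (-1) X w := by
  have h := (CP.lin (p := p) (c : ℚ) 0 w).mul (cp_Wc c c hc w)
  have e : W p = (X - C (c : ℚ)) * Wc p c := by
    unfold W Wc
    rw [← mul_prod_erase _ _ (mem_range.mpr hc)]
  rw [e, ← smul_mul_assoc]
  simpa using h

theorem cp_W2 (c : ℕ) (hc : c < p) (w : ℤ) :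
    CP p (((p : ℚ)⁻¹) ^ 2 • W (2 * p)) ((c : ℚ) + (p : ℚ) * (w : ℚ)) 1 (W 2) w := by
  have h1 : CP p (∏ d ∈ (range p).erase c, (X - C ((p + d : ℕ) : ℚ)))
      ((c : ℚ) + (p : ℚ) * (w : ℚ)) (-1) 1 w := by
    refine CP.const _ ?_
      (cg_deriv (isZ_prod _ _ fun i _ => by simpa using isZ_lin' ((p + i : ℕ) : ℤ)) c w)
    refine (cg_Wc_self (p := p) c hc (w - 1)).congr ?_ rfl
    unfold Wc
    rw [eval_prod, eval_prod]
    refine prod_congr rfl fun d _ => ?_
    simp only [eval_sub, eval_X, eval_C]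
    push_cast
    ring
  have h := (cp_W c hc w).mul ((CP.lin (p := p) (c : ℚ) 1 w).mul h1)
  have e : W (2 * p) = W p * ((X - C ((c : ℚ) + p * ((1 : ℤ) : ℚ))) *
      ∏ d ∈ (range p).erase c, (X - C ((p + d : ℕ) : ℚ))) := by
    unfold W
    rw [two_mul, prod_range_add, ← mul_prod_erase (range p)
      (fun d => (X - C ((p + d : ℕ) : ℚ))) (mem_range.mpr hc)]
    congr 4
    push_cast
    ring
  rw [e, W_two, sq, ← smul_mul_smul_comm, ← smul_mul_assoc]
  simpa using h

theorem cg_entry (hp16 : 16 ≤ p) (a b : ℤ) (x : ℚ) (hx : Cg p x x)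
    (t t' : Fin (5 * 1) × Fin p) :
    Cg p ((p : ℚ) ^ 18 * ((p : ℚ)⁻¹) ^ (6 + (t.1 : ℕ)) * gram a b x p (phi p) t t'
        * ((p : ℚ)⁻¹) ^ (t'.1 : ℕ))
      (Matrix.blockDiagonal (fun _ : Fin p => (b : ℚ) •
        gram 0 1 0 1 (fun i : Fin (5 * 1) => (X : ℚ[X]) ^ (i : ℕ))) t t') := by
  obtain ⟨i, c⟩ := t
  obtain ⟨k, c'⟩ := t'
  have key := cg_L hp16
    (((p : ℚ)⁻¹) ^ (6 + (i : ℕ) + (k : ℕ)) • (W (2 * p) ^ 3 * phi p (i, c) * phi p (k, c')))
    (W 2 ^ 3 * X ^ (i : ℕ) * X ^ (k : ℕ))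
    (fun c'' => (if (c : ℕ) = c'' then -1 else 0) * (if (c' : ℕ) = c'' then -1 else 0))
    ?_ a b x hx
  · refine key.congr ?_ ?_
    · rw [L_smul]
      simp only [gram, Matrix.of_apply]
      ring
    · have hs : ∑ c'' ∈ range p, (if (c : ℕ) = c'' then (-1 : ℚ) else 0) *
          (if (c' : ℕ) = c'' then -1 else 0) = if c = c' then 1 else 0 := by
        rw [sum_eq_single (c : ℕ)]
        · by_cases h : c = c'
          · simp [h]
          · have : (c' : ℕ) ≠ c := fun h' => h (Fin.ext h'.symm)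
            simp [h, this]
        · intro d _ hd
          simp [hd.symm]
        · intro h
          exact absurd (mem_range.mpr c.2) h
      rw [hs, Matrix.blockDiagonal_apply]
      by_cases h : c = c'
      · simp only [h, if_true, gram, Matrix.smul_apply, Matrix.of_apply, smul_eq_mul, mul_one]
      · simp [h]
  · intro c'' hc'' w
    have h1 := (cp_W (p := p) c'' hc'' w).neg
    have h2 := cp_Wc (p := p) c'' c hc'' w
    have h3 := cp_Wc (p := p) c'' c' hc'' w
    have h4 := (((cp_W2 c'' hc'' w).pow 3).mul ((h1.pow i).mul h2)).mul ((h1.pow k).mul h3)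
    have e : ((p : ℚ)⁻¹) ^ (6 + (i : ℕ) + (k : ℕ)) •
        (W (2 * p) ^ 3 * phi p (i, c) * phi p (k, c')) =
        (((p : ℚ)⁻¹) ^ 2 • W (2 * p)) ^ 3 * ((-((p : ℚ)⁻¹ • W p)) ^ (i : ℕ) * Wc p c) *
          ((-((p : ℚ)⁻¹ • W p)) ^ (k : ℕ) * Wc p c') := by
      simp only [phi, smul_eq_C_mul, map_pow, ← mul_neg, mul_pow]
      ring
    rw [e]
    simpa only [neg_neg, one_pow, one_mul, mul_one] using h4

theorem det_ne_zero (hp16 : 16 ≤ p) (a b : ℤ) (x : ℚ) (hx : Cg p x x) (hb : Un p b)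
    (hD : Un p (Delta 0 1 0 1)) : (gram a b x p (phi p)).det ≠ 0 := by
  set M' : Matrix (Fin (5 * 1) × Fin p) (Fin (5 * 1) × Fin p) ℚ :=
    Matrix.diagonal (fun t => (p : ℚ) ^ 18 * ((p : ℚ)⁻¹) ^ (6 + (t.1 : ℕ))) *
      gram a b x p (phi p) * Matrix.diagonal (fun t => ((p : ℚ)⁻¹) ^ (t.1 : ℕ)) with hM'
  have h1 : Cg p M'.det (Matrix.blockDiagonal (fun _ : Fin p => (b : ℚ) •
      gram 0 1 0 1 (fun i : Fin (5 * 1) => (X : ℚ[X]) ^ (i : ℕ)))).det := by
    refine Cg.det fun t t' => ?_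
    rw [hM', Matrix.mul_diagonal, Matrix.diagonal_mul]
    exact cg_entry hp16 a b x hx t t'
  have h2 : Un p (Matrix.blockDiagonal (fun _ : Fin p => (b : ℚ) •
      gram 0 1 0 1 (fun i : Fin (5 * 1) => (X : ℚ[X]) ^ (i : ℕ)))).det := by
    rw [Matrix.det_blockDiagonal]
    refine Un.prod _ fun _ _ => ?_
    rw [Matrix.det_smul]
    exact (hb.pow _).mul hD
  have h3 := (h1.un h2).ne_zero
  intro h0
  apply h3
  rw [hM', Matrix.det_mul, Matrix.det_mul, h0, mul_zero, zero_mul]

end Nonzero2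

theorem nonzero (a b : ℤ) (hb : b ≠ 0) (x : ℚ) :
    ∀ᶠ p : ℕ in atTop, p.Prime → Delta a b x p ≠ 0 := by
  have hD : Delta 0 1 0 1 ≠ 0 := Nonzero2.Delta_loc
  have hb' : (b : ℚ) ≠ 0 := by exact_mod_cast hb
  filter_upwards [eventually_ge_atTop 16, eventually_gt_atTop x.den,
    eventually_gt_atTop (b : ℚ).den, eventually_gt_atTop (b : ℚ).num.natAbs,
    eventually_gt_atTop (Delta 0 1 0 1).den, eventually_gt_atTop (Delta 0 1 0 1).num.natAbs]
    with p h16 h1 h2 h3 h4 h5 hp
  have : Fact p.Prime := ⟨hp⟩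
  refine Delta_ne_zero_of_gram a b x p (ι := Fin (5 * 1) × Fin p) (by simp) (Nonzero2.phi p)
    (fun t => ?_) ?_
  · have := Nonzero2.phi_natDegree_le p t
    omega
  · exact Nonzero2.det_ne_zero h16 a b x (cg_of_large h1) (un_of_large hb' h2 h3)
      (un_of_large hD h4 h5)

end Pool.Agent.P.MP_a89d6d_nt.Z34
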