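import Pool.Agent.P.MP_a89d6d_nt.Z34.Lower
import Pool.Agent.P.MP_a89d6d_nt.Z34.Integral
import Pool.Agent.P.MP_a89d6d_nt.Z34.Energy
import Pool.Agent.P.MP_a89d6d_nt.Z34.Nonzero
import Pool.Agent.P.MP_a89d6d_nt.Z23.Final

/-!
The upper bound for the determinant and the final contradiction.
-/

namespace Pool.Agent.P.MP_a89d6d_nt.Z34

open Polynomial Finset Filter
open Pool.Agent.P.MP_a89d6d_nt.Z23 (W W_monic W_natDegree)
open Pool.Agent.P.MP_a89d6d_nt.Z23.Final (abs_det_le small_terms)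

namespace Final2

theorem wt_nonneg (n : ℕ) (P : ℚ[X]) (y : ℝ) : 0 ≤ wt n P y := by
  unfold wt
  positivity

theorem wt_sq (n : ℕ) (A P Q : ℚ[X]) (y : ℝ) :
    wt n (A * (P * Q)) y ^ 2 = wt n (A * P * P) y * wt n (A * Q * Q) y := by
  simp only [wt, map_mul, norm_mul]
  ring

theorem wt_le (n : ℕ) (A P Q : ℚ[X]) (y B₁ B₂ : ℝ) (h₁ : wt n (A * P * P) y ≤ B₁)
    (h₂ : wt n (A * Q * Q) y ≤ B₂) : wt n (A * (P * Q)) y ≤ Real.sqrt B₁ * Real.sqrt B₂ := by
  have hB₁ : 0 ≤ B₁ := (wt_nonneg _ _ _).trans h₁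
  rw [← Real.sqrt_mul hB₁]
  apply Real.le_sqrt_of_sq_le
  rw [wt_sq]
  exact mul_le_mul h₁ h₂ (wt_nonneg _ _ _) hB₁

theorem upper (a b : ℤ) (x : ℚ)
    (hx : (x : ℂ) = 2 * a * riemannZeta 3 + 3 * b * riemannZeta 4) :
    ∀ᶠ n : ℕ in atTop, |(Delta a b x n : ℝ)| ≤
      Real.exp (-25 * (n : ℝ) ^ 2 * Real.log n - 159 * (n : ℝ) ^ 2) := by
  obtain ⟨Cst, hC, hL⟩ := L_bound a b x hx
  filter_upwards [exists_good_basis, small_terms (Real.log Cst), eventually_ge_atTop 1]
    with n hn hs h1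
  obtain ⟨φ, B, hm, hd, hB, hw, hsum⟩ := hn
  rw [← det_gram_monic a b x n φ hm hd]
  have e : (((gram a b x n φ).det : ℚ) : ℝ) = ((gram a b x n φ).map (Rat.castHom ℝ)).det := by
    have := (Rat.castHom ℝ).map_det (gram a b x n φ)
    simpa [RingHom.mapMatrix_apply] using this
  rw [e]
  have hb := abs_det_le ((gram a b x n φ).map (Rat.castHom ℝ))
    (fun i => Cst * Real.sqrt (B i)) (fun i => Real.sqrt (B i)) (by
      intro i k
      have hi := i.2
      have hk := k.2
      have := hL n (φ i * φ k) (Real.sqrt (B i) * Real.sqrt (B k)) (by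
          rw [((W_monic _).pow 3).natDegree_mul ((hm i).mul (hm k)), (hm i).natDegree_mul (hm k),
            (W_monic _).natDegree_pow, W_natDegree, hd, hd]
          omega)
        (fun y => wt_le n _ _ _ y _ _ (hw i y) (hw k y))
      simpa [gram, mul_assoc] using this)
  refine hb.trans ?_
  have e2 : (∏ i, Cst * Real.sqrt (B i)) * ∏ i, Real.sqrt (B i) =
      Real.exp (5 * n * Real.log Cst + ∑ t, Real.log (B t)) := by
    rw [← Finset.prod_mul_distrib, Real.exp_add, Real.exp_sum]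
    have : ∀ i, Cst * Real.sqrt (B i) * Real.sqrt (B i) = Cst * Real.exp (Real.log (B i)) := by
      intro i
      rw [mul_assoc, Real.mul_self_sqrt (hB i).le, Real.exp_log (hB i)]
    simp only [this]
    rw [Finset.prod_mul_distrib, Finset.prod_const, Finset.card_univ, Fintype.card_fin]
    congr 1
    have : (5 * n : ℝ) = ((5 * n : ℕ) : ℝ) := by push_cast; ring
    rw [this, Real.exp_nat_mul, Real.exp_log hC]
  have hn0 : (0 : ℝ) < n := by exact_mod_cast h1
  have e3 : ((5 * n).factorial : ℝ) ≤ Real.exp (5 * n * Real.log (5 * n)) := by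
    have : (5 * n : ℝ) = ((5 * n : ℕ) : ℝ) := by push_cast; ring
    rw [this, Real.exp_nat_mul, Real.exp_log (by rw [← this]; positivity)]
    exact_mod_cast Nat.factorial_le_pow (5 * n)
  rw [e2]
  refine (mul_le_mul_of_nonneg_right e3 (Real.exp_pos _).le).trans ?_
  rw [← Real.exp_add]
  apply Real.exp_le_exp.mpr
  have h5 : Real.log (5 * n) ≤ Real.log (6 * n) := Real.log_le_log (by positivity) (by linarith)
  have : 5 * (n : ℝ) * (Real.log (5 * n) + Real.log Cst) ≤ 5 * n * (n / 20) :=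
    mul_le_mul_of_nonneg_left (by linarith) (by positivity)
  nlinarith

theorem no_relation (a b : ℤ) (hb : b ≠ 0) (x : ℚ) :
    (x : ℂ) ≠ 2 * a * riemannZeta 3 + 3 * b * riemannZeta 4 := by
  intro hx
  obtain ⟨N, hN⟩ := eventually_atTop.mp
    ((upper a b x hx).and ((lower a b x).and ((nonzero a b hb x).and (eventually_ge_atTop 1))))
  obtain ⟨p, hp, hpp⟩ := Nat.exists_infinite_primes N
  obtain ⟨hu, hl, hz, h1⟩ := hN p hp
  have h0 := hz hpp
  have hl' := hl h0
  have hpos : 0 < |(Delta a b x p : ℝ)| := abs_pos.mpr (by exact_mod_cast h0)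
  have h2 := Real.log_le_log hpos hu
  rw [Real.log_exp] at h2
  have hp0 : (0 : ℝ) < p := by exact_mod_cast h1
  nlinarith [sq_pos_of_pos hp0]

end Final2

theorem main : LinearIndependent ℚ ![(1 : ℂ), (Real.pi : ℂ) ^ 4, riemannZeta 3] := by
  rw [Fintype.linearIndependent_iff]
  intro g hg
  simp only [Fin.sum_univ_three, Matrix.cons_val_zero, Matrix.cons_val_one, Matrix.cons_val,
    Rat.smul_def, mul_one] at hg
  have h1 : g 1 = 0 := by
    by_contra h1
    refine Final2.no_relation ((g 2).num * (g 1).den) (60 * (g 1).num * (g 2).den) ?_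
      (-2 * (g 0) * (g 1).den * (g 2).den) ?_
    · exact mul_ne_zero (mul_ne_zero (by norm_num) (Rat.num_ne_zero.mpr h1))
        (by exact_mod_cast (g 2).den_nz)
    · have e1 : (((g 1).num : ℤ) : ℂ) = (g 1 : ℂ) * ((g 1).den : ℕ) := by
        exact_mod_cast (Rat.mul_den_eq_num (g 1)).symm
      have e2 : (((g 2).num : ℤ) : ℂ) = (g 2 : ℂ) * ((g 2).den : ℕ) := by
        exact_mod_cast (Rat.mul_den_eq_num (g 2)).symm
      rw [riemannZeta_four]
      push_cast
      rw [e1, e2]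
      linear_combination (-2 * ((g 1).den : ℂ) * ((g 2).den : ℂ)) * hg
  have h := Fintype.linearIndependent_iff.mp Z23.main ![g 0, 0, g 2] (by
    simp only [Fin.sum_univ_three, Matrix.cons_val_zero, Matrix.cons_val_one, Matrix.cons_val,
      Rat.smul_def, mul_one]
    rw [h1] at hg
    simpa using hg)
  intro i
  fin_cases i
  · exact h 0
  · exact h1
  · exact h 2

end Pool.Agent.P.MP_a89d6d_nt.Z34
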