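import Pool.Agent.P.MP_a89d6d_nt.Z34.Core
import Pool.Agent.P.MP_a89d6d_nt.Z23.Medium

/-! Local estimates at a prime `p`. -/

namespace Pool.Agent.P.MP_a89d6d_nt.Z34

open Polynomial Finset Filter
open Pool.Agent.P.MP_a89d6d_nt.Z23 (H D W norm_H_le)
open Pool.Agent.P.MP_a89d6d_nt.Z23.Local
open Pool.Agent.P.MP_a89d6d_nt.Z23.Medium (cnt)

/-- `P` has order at least `e` at `y`, and its derivative has order at least `e - 1`. -/
def V (p : ℕ) [Fact p.Prime] (e : ℤ) (P : ℚ[X]) (y : ℤ) : Prop :=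
  ‖((P.eval (y : ℚ) : ℚ) : ℚ_[p])‖ ≤ (p : ℝ) ^ (-e) ∧
    ‖((P.derivative.eval (y : ℚ) : ℚ) : ℚ_[p])‖ ≤ (p : ℝ) ^ (1 - e)

variable {p : ℕ} [hp : Fact p.Prime]

theorem p_ne : (p : ℝ) ≠ 0 := by have := one_lt_p p; positivity

theorem V.mono {e e' : ℤ} {P : ℚ[X]} {y : ℤ} (h : V p e P y) (he : e' ≤ e) : V p e' P y :=
  ⟨h.1.trans (zpow_le_zpow_right₀ (one_le_p p) (by omega)),
    h.2.trans (zpow_le_zpow_right₀ (one_le_p p) (by omega))⟩

theorem V.mul {e e' : ℤ} {P Q : ℚ[X]} {y : ℤ} (h : V p e P y) (h' : V p e' Q y) :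
    V p (e + e') (P * Q) y := by
  constructor
  · rw [eval_mul, Rat.cast_mul, norm_mul]
    refine (mul_le_mul h.1 h'.1 (norm_nonneg _) (by positivity)).trans (le_of_eq ?_)
    rw [← zpow_add₀ p_ne]
    congr 1
    ring
  · rw [derivative_mul, eval_add, eval_mul, eval_mul, Rat.cast_add, Rat.cast_mul, Rat.cast_mul]
    apply norm_add_le_of
    · rw [norm_mul]
      refine (mul_le_mul h.2 h'.1 (norm_nonneg _) (by positivity)).trans (le_of_eq ?_)
      rw [← zpow_add₀ p_ne]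
      congr 1
      ring
    · rw [norm_mul]
      refine (mul_le_mul h.1 h'.2 (norm_nonneg _) (by positivity)).trans (le_of_eq ?_)
      rw [← zpow_add₀ p_ne]
      congr 1
      ring

theorem V.one (y : ℤ) : V p 0 1 y := by
  constructor <;> simp

theorem V.pow {e : ℤ} {P : ℚ[X]} {y : ℤ} (h : V p e P y) (k : ℕ) : V p (k * e) (P ^ k) y := by
  induction k with
  | zero => simpa using V.one y
  | succ k ih =>
    rw [pow_succ]
    exact (ih.mul h).mono (by push_cast; linarith)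

theorem V.prod {ι : Type} (s : Finset ι) {e : ι → ℤ} {P : ι → ℚ[X]} {y : ℤ}
    (h : ∀ i ∈ s, V p (e i) (P i) y) : V p (∑ i ∈ s, e i) (∏ i ∈ s, P i) y := by
  classical
  induction s using Finset.induction_on with
  | empty => simpa using V.one y
  | insert i s hi ih =>
    rw [sum_insert hi, prod_insert hi]
    exact (h i (mem_insert_self _ _)).mul (ih fun k hk => h k (mem_insert_of_mem hk))

theorem V.lin (c y : ℤ) : V p (if (p : ℤ) ∣ y - c then 1 else 0) (X - C (c : ℚ)) y := by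
  have e : (X - C (c : ℚ)).eval (y : ℚ) = ((y - c : ℤ) : ℚ) := by simp
  constructor
  · rw [e, Rat.cast_intCast]
    split_ifs with h
    · have := (Padic.norm_int_le_pow_iff_dvd (p := p) (y - c) 1).2 (by simpa using h)
      simpa using this
    · simpa using Padic.norm_int_le_one (p := p) (y - c)
  · simp only [derivative_sub, derivative_X, derivative_C, sub_zero, eval_one, Rat.cast_one,
      norm_one]
    refine one_le_zpow₀ (one_le_p p) ?_
    split_ifs <;> omega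

theorem V.lin_zero (c y : ℤ) : V p 0 (X - C (c : ℚ)) y :=
  (V.lin c y).mono (by split_ifs <;> omega)

theorem V.X_pow (k : ℕ) (y : ℤ) : V p 0 (X ^ k) y := by
  have := (V.lin_zero (p := p) 0 y).pow k
  simpa using this

theorem V.W (m : ℕ) (y : ℤ) : V p (cnt p m y) (W m) y := by
  have h := V.prod (p := p) (range m) (y := y) fun i _ => V.lin (i : ℤ) y
  have e : (cnt p m y : ℤ) = ∑ i ∈ range m, if (p : ℤ) ∣ y - (i : ℤ) then 1 else 0 := by
    rw [cnt, card_filter]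
    push_cast
    exact sum_congr rfl fun i _ => by simp only [dvd_sub_comm]
  rw [e]
  simpa [Z23.W] using h

theorem norm_inv_dn (K j : ℕ) (hK : K < p ^ 2) (hj : j < K) :
    ‖(((dn K j)⁻¹ : ℚ) : ℚ_[p])‖ ≤ (p : ℝ) ^ ((cnt p K j : ℤ) - 1) := by
  have h2 := norm_inv_prod_small p ((range K).erase j) (fun k => (k : ℤ) - j) (by
    intro k hk
    obtain ⟨hk1, hk2⟩ := Finset.mem_erase.1 hk
    have hk3 := Finset.mem_range.1 hk2
    have hK' : (K : ℤ) < (p : ℤ) ^ 2 := by exact_mod_cast hK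
    refine ⟨by omega, ?_⟩
    rw [abs_lt]
    constructor <;> omega)
  have h3 : cnt p K j =
      (((range K).erase j).filter fun k : ℕ => (p : ℤ) ∣ (k : ℤ) - j).card + 1 := by
    rw [Finset.filter_erase, Finset.card_erase_add_one (by simpa using hj), cnt]
  rw [h3]
  unfold dn
  push_cast at h2 ⊢
  rw [add_sub_cancel_right, zpow_natCast]
  exact h2

theorem norm_int_mul_H (c : ℤ) (s j t : ℕ) (hj : j < p ^ 2) (hs : s ≤ t) :
    ‖(((c : ℚ) * H s j : ℚ) : ℚ_[p])‖ ≤ (p : ℝ) ^ t := by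
  have h3 := log_le_one p j hj
  rw [Rat.cast_mul, norm_mul, Rat.cast_intCast]
  calc _ ≤ 1 * (p : ℝ) ^ (s * Nat.log p j) :=
        mul_le_mul (Padic.norm_int_le_one c) (norm_H_le p s j j le_rfl) (norm_nonneg _)
          zero_le_one
    _ ≤ _ := by
        rw [one_mul]
        exact pow_le_pow_right₀ (one_le_p p) (by nlinarith)

theorem local_bound (a b : ℤ) (x : ℚ) (hx : ¬ p ∣ x.den) (K : ℕ)
    (P : ℚ[X]) (hK : K < p ^ 2) (e : ℤ)
    (h : ∀ j < K, V p (e + 2 * (cnt p K (j : ℕ) : ℤ)) P (-((j : ℤ) + 1))) :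
    ‖((L a b x K P : ℚ) : ℚ_[p])‖ ≤ (p : ℝ) ^ (2 - e) := by
  have hp1 := one_le_p p
  unfold L
  rw [Rat.cast_sum]
  apply norm_sum_le_of (by positivity)
  intro j hj
  have hj' := mem_range.1 hj
  obtain ⟨h1, h2⟩ := h j hj'
  have e0 : ((-((j : ℤ) + 1) : ℤ) : ℚ) = -((j : ℚ) + 1) := by push_cast; rfl
  rw [e0] at h1 h2
  have hd : ‖(((dn K j ^ 2)⁻¹ : ℚ) : ℚ_[p])‖ ≤ (p : ℝ) ^ (2 * (cnt p K j : ℤ) - 2) := by
    rw [← inv_pow, Rat.cast_pow, norm_pow]
    refine (pow_le_pow_left₀ (norm_nonneg _) (norm_inv_dn K j hK hj') 2).trans (le_of_eq ?_)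
    rw [← zpow_natCast, ← zpow_mul]
    congr 1
    push_cast
    ring
  have hA : ‖((cA K P j : ℚ) : ℚ_[p])‖ ≤ (p : ℝ) ^ (-e - 2) := by
    rw [cA, div_eq_mul_inv, Rat.cast_mul, norm_mul]
    refine (mul_le_mul h1 hd (norm_nonneg _) (by positivity)).trans (le_of_eq ?_)
    rw [← zpow_add₀ p_ne]
    congr 1
    ring
  have hs : ‖((2 * sg K j : ℚ) : ℚ_[p])‖ ≤ (p : ℝ) ^ 1 := by
    rw [sg, mul_sub, Rat.cast_sub]
    exact norm_sub_le_of (by simpa using norm_int_mul_H (p := p) 2 1 (K - 1 - j) 1 (by omega) le_rfl)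
      (by simpa using norm_int_mul_H (p := p) 2 1 j 1 (by omega) le_rfl)
  have hB : ‖((cB K P j : ℚ) : ℚ_[p])‖ ≤ (p : ℝ) ^ (-e - 1) := by
    rw [cB, Rat.cast_sub]
    apply norm_sub_le_of
    · rw [div_eq_mul_inv, Rat.cast_mul, norm_mul]
      refine (mul_le_mul h2 hd (norm_nonneg _) (by positivity)).trans (le_of_eq ?_)
      rw [← zpow_add₀ p_ne]
      congr 1
      ring
    · rw [show 2 * cA K P j * sg K j = cA K P j * (2 * sg K j) by ring, Rat.cast_mul, norm_mul]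
      refine (mul_le_mul hA hs (norm_nonneg _) (by positivity)).trans (le_of_eq ?_)
      rw [← zpow_natCast, ← zpow_add₀ p_ne]
      congr 1
      push_cast
      ring
  have h4 : ‖((x - 2 * a * H 3 j - 3 * b * H 4 j : ℚ) : ℚ_[p])‖ ≤ (p : ℝ) ^ 4 := by
    rw [Rat.cast_sub, Rat.cast_sub]
    refine norm_sub_le_of (norm_sub_le_of
      ((Padic.norm_rat_le_one hx).trans (one_le_pow₀ hp1)) ?_) ?_
    · simpa using norm_int_mul_H (p := p) (2 * a) 3 j 4 (by omega) (by norm_num)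
    · simpa using norm_int_mul_H (p := p) (3 * b) 4 j 4 (by omega) (by norm_num)
  have h5 : ‖((-(a * H 2 j) - b * H 3 j : ℚ) : ℚ_[p])‖ ≤ (p : ℝ) ^ 3 := by
    rw [Rat.cast_sub, Rat.cast_neg]
    refine norm_sub_le_of ?_ (norm_int_mul_H b 3 j 3 (by omega) le_rfl)
    rw [norm_neg]
    exact norm_int_mul_H a 2 j 3 (by omega) (by norm_num)
  rw [Rat.cast_add]
  apply norm_add_le_of
  · rw [Rat.cast_mul, norm_mul]
    refine (mul_le_mul hA h4 (norm_nonneg _) (by positivity)).trans (le_of_eq ?_)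
    rw [← zpow_natCast, ← zpow_add₀ p_ne]
    congr 1
    push_cast
    ring
  · rw [Rat.cast_mul, norm_mul]
    refine (mul_le_mul hB h5 (norm_nonneg _) (by positivity)).trans (le_of_eq ?_)
    rw [← zpow_natCast, ← zpow_add₀ p_ne]
    congr 1
    push_cast
    ring

end Pool.Agent.P.MP_a89d6d_nt.Z34
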