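import Pool.Agent.P.MP_a89d6d_nt.Z34.Local

/-!
The valuation of the Hankel determinant at primes `p` with `8 n < p ^ 2`.
-/

namespace Pool.Agent.P.MP_a89d6d_nt.Z34

open Polynomial Finset Filter
open Pool.Agent.P.MP_a89d6d_nt.Z23 (H D W W_monic W_natDegree det_norm_le le_val_of_norm_le)
open Pool.Agent.P.MP_a89d6d_nt.Z23.Medium (cnt nu le_nu nu_eq_zero sum_nu_aux cnt_eq cnt_congr
  sum_cnt sum_cnt')

namespace Medium2

/-- Four times the cost of a class of order `e`. -/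
def cost (e : ℤ) : ℤ := ((-e).toNat : ℤ) * (-e).toNat - ((-e).toNat % 2 : ℕ)

theorem exists_levels (p h : ℕ) (e : ℕ → ℤ) (l0 : ℤ) (h0 : l0 ≤ -1) (he : ∀ c, l0 ≤ e c) :
    ∃ l : ℕ → ℤ, (∀ t, ∑ c ∈ range p, nu (e c) (l t) ≤ t) ∧
      4 * ∑ t ∈ range h, (-1 - l t) ≤ ∑ c ∈ range p, cost (e c) := by
  classical
  obtain ⟨M, hM⟩ : ∃ M : ℕ, -1 = l0 + M := ⟨(-1 - l0).toNat, by omega⟩
  let N : ℕ → ℕ := fun m => ∑ c ∈ range p, nu (e c) (l0 + m)
  let g : ℕ → ℕ := fun t => Nat.findGreatest (fun m => N m ≤ t) M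
  refine ⟨fun t => l0 + g t, fun t => ?_, ?_⟩
  · refine Nat.findGreatest_spec (P := fun m => N m ≤ t) (Nat.zero_le M) ?_
    have : N 0 = 0 := sum_eq_zero fun c _ => nu_eq_zero (by simpa using he c)
    omega
  · have h1 : ∀ t, (-1 - (l0 + g t) : ℤ) ≤
        ∑ m ∈ range M, (if t < N (m + 1) then (1 : ℤ) else 0) := by
      intro t
      have hg : g t ≤ M := Nat.findGreatest_le M
      rw [sum_boole]
      have : Ico (g t) M ⊆ (range M).filter fun m => t < N (m + 1) := by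
        intro m hm
        rw [mem_Ico] at hm
        rw [mem_filter, mem_range]
        refine ⟨hm.2, not_le.1 ?_⟩
        exact Nat.findGreatest_is_greatest (P := fun m => N m ≤ t) (n := M)
          (Nat.lt_succ_of_le hm.1) hm.2
      have h2 := card_le_card this
      rw [Nat.card_Ico] at h2
      omega
    have h2 : ∀ m, ∑ t ∈ range h, (if t < N (m + 1) then (1 : ℤ) else 0) ≤ N (m + 1) := by
      intro m
      rw [sum_boole]
      have : (range h).filter (fun t => t < N (m + 1)) ⊆ range (N (m + 1)) := by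
        intro t ht
        exact mem_range.2 (mem_filter.1 ht).2
      have h3 := card_le_card this
      rw [card_range] at h3
      exact_mod_cast h3
    calc 4 * ∑ t ∈ range h, (-1 - (l0 + g t) : ℤ)
        ≤ 4 * ∑ t ∈ range h, ∑ m ∈ range M, (if t < N (m + 1) then (1 : ℤ) else 0) := by
          gcongr with t _; exact h1 t
      _ ≤ 4 * ∑ m ∈ range M, (N (m + 1) : ℤ) := by
          rw [sum_comm]; gcongr with m _; exact h2 m
      _ = ∑ c ∈ range p, 4 * ∑ m ∈ range M, (nu (e c) (l0 + m + 1) : ℤ) := by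
          rw [← mul_sum, sum_comm]
          simp only [N, Nat.cast_sum, Nat.cast_add, Nat.cast_one, add_assoc]
      _ ≤ _ := sum_le_sum fun c _ => by
          have h3 := sum_nu_aux (e c) l0 M
          rw [show l0 + M + 1 - e c = -e c by omega] at h3
          have h4 : ((4 * ∑ m ∈ range M, nu (e c) (l0 + m + 1) + (-e c).toNat % 2 : ℕ) : ℤ) ≤
              (((-e c).toNat * (-e c).toNat : ℕ) : ℤ) := by exact_mod_cast h3
          rw [Nat.cast_add, Nat.cast_mul, Nat.cast_mul, Nat.cast_sum] at h4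
          unfold cost
          simp only [Nat.cast_ofNat] at h4
          linarith

theorem cost_le (e : ℤ) : cost e ≤ e ^ 2 := by
  unfold cost
  have h0 : (0 : ℤ) ≤ (((-e).toNat % 2 : ℕ) : ℤ) := by positivity
  rcases le_total 0 (-e) with hu | hu
  · rw [Int.toNat_of_nonneg hu]; nlinarith
  · rw [Int.toNat_of_nonpos hu]; simpa using sq_nonneg e

/-- The order of `W (2 n) ^ 3 / D (8 n) ^ 2` on the residue class of `y`. -/
def ee (p n : ℕ) (y : ℤ) : ℤ := 3 * (cnt p (2 * n) y : ℤ) - 2 * cnt p (8 * n) (-y - 1)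

theorem ee_congr (p n : ℕ) {v w : ℤ} (h : (p : ℤ) ∣ v - w) : ee p n v = ee p n w := by
  unfold ee
  rw [cnt_congr p (2 * n) h, cnt_congr p (8 * n) (v := -v - 1) (w := -w - 1)]
  rw [show -v - 1 - (-w - 1) = -(v - w) by ring]
  exact h.neg_right

theorem cnt_bounds {p : ℕ} (hp : 0 < p) (m : ℕ) (v : ℤ) :
    cnt p m v = m / p ∨ cnt p m v = m / p + 1 := by
  rw [cnt_eq hp]
  split_ifs <;> simp

/-- The monic polynomial of degree `t` adapted to the level `l`. -/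
noncomputable def phi (p n : ℕ) (l : ℤ) (t : ℕ) : ℚ[X] :=
  (∏ c ∈ range p, (X - C (c : ℚ)) ^ nu (ee p n c) l) * X ^ (t - ∑ c ∈ range p, nu (ee p n c) l)

theorem phi_monic (p n : ℕ) (l : ℤ) (t : ℕ) : (phi p n l t).Monic :=
  (monic_prod_of_monic _ _ fun _ _ => (monic_X_sub_C _).pow _).mul (monic_X_pow _)

theorem phi_natDegree (p n : ℕ) (l : ℤ) (t : ℕ) (h : ∑ c ∈ range p, nu (ee p n c) l ≤ t) :
    (phi p n l t).natDegree = t := by
  rw [phi, Monic.natDegree_mul (monic_prod_of_monic _ _ fun _ _ => (monic_X_sub_C _).pow _)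
    (monic_X_pow _), natDegree_prod_of_monic _ _ fun _ _ => (monic_X_sub_C _).pow _,
    natDegree_X_pow]
  simp only [natDegree_pow, natDegree_X_sub_C, mul_one]
  omega

theorem V_phi (p : ℕ) [hp : Fact p.Prime] (n : ℕ) (l : ℤ) (t : ℕ) (y : ℤ) :
    V p (nu (ee p n y) l) (phi p n l t) y := by
  have hp0 := hp.out.pos
  have h := (V.prod (p := p) (range p) (y := y) fun c _ =>
    (V.lin (c : ℤ) y).pow (nu (ee p n c) l)).mul
    (V.X_pow (t - ∑ c ∈ range p, nu (ee p n c) l) y)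
  simp only [Int.cast_natCast] at h
  refine V.mono h ?_
  have h0 : (0 : ℤ) ≤ y % p := Int.emod_nonneg _ (by omega)
  have h1 : y % p < p := Int.emod_lt_of_pos _ (by omega)
  have h2 : (p : ℤ) ∣ y - ((y % p).toNat : ℕ) := by
    rw [Int.toNat_of_nonneg h0]
    exact Int.dvd_self_sub_emod
  rw [ee_congr p n h2, add_zero]
  refine le_trans ?_ (single_le_sum (f := fun c : ℕ =>
    (nu (ee p n c) l : ℤ) * if (p : ℤ) ∣ y - c then 1 else 0)
    (fun c _ => by split_ifs <;> simp) (mem_range.2 (show (y % p).toNat < p by omega)))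
  simp only [if_pos h2, mul_one, le_refl]

theorem entry_bound (p : ℕ) [hp : Fact p.Prime] (a b : ℤ) (x : ℚ) (n : ℕ)
    (h8 : 8 * n < p ^ 2) (hx : ¬ p ∣ x.den) (l l' : ℤ) (t u : ℕ) :
    ‖((L a b x (8 * n) (W (2 * n) ^ 3 * phi p n l t * phi p n l' u) : ℚ) : ℚ_[p])‖ ≤
      (p : ℝ) ^ (1 - (l : ℝ) / 2) * (p : ℝ) ^ (1 - (l' : ℝ) / 2) := by
  have hp0 := hp.out.pos
  have hp1 : (1 : ℝ) ≤ p := by exact_mod_cast hp0
  refine (local_bound a b x hx (8 * n) _ h8 ((l + l' + 1) / 2) fun j _ => ?_).trans ?_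
  · refine V.mono ((((V.W (2 * n) _).pow 3).mul (V_phi p n l t _)).mul (V_phi p n l' u _)) ?_
    have h1 := le_nu (ee p n (-((j : ℤ) + 1))) l
    have h2 := le_nu (ee p n (-((j : ℤ) + 1))) l'
    have h3 : ee p n (-((j : ℤ) + 1)) =
        3 * (cnt p (2 * n) (-((j : ℤ) + 1)) : ℤ) - 2 * cnt p (8 * n) (j : ℤ) := by
      unfold ee
      rw [show -(-((j : ℤ) + 1)) - 1 = j by ring]
    push_cast
    omega
  · rw [← Real.rpow_add (by positivity), ← Real.rpow_intCast]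
    refine Real.rpow_le_rpow_of_exponent_le hp1 ?_
    have : l + l' ≤ 2 * ((l + l' + 1) / 2) := by omega
    have h2 : (l : ℝ) + l' ≤ 2 * (((l + l' + 1) / 2 : ℤ) : ℝ) := by exact_mod_cast this
    push_cast [Int.cast_sub]
    linarith

theorem val_lin (a b : ℤ) (x : ℚ) (n p : ℕ) (hp : p.Prime)
    (h8 : 8 * n < p ^ 2) (hx : ¬ p ∣ x.den) (h0 : Delta a b x n ≠ 0) (α β γ : ℝ)
    (hlin : ∀ z w : ℕ, (z = 2 * n / p ∨ z = 2 * n / p + 1) → (w = 8 * n / p ∨ w = 8 * n / p + 1) →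
      (cost (3 * (z : ℤ) - 2 * w) : ℝ) ≤ 4 * (α + β * z + γ * w)) :
    -15 * (n : ℝ) - (α * p + β * (2 * n) + γ * (8 * n)) ≤
      (padicValRat p (Delta a b x n) : ℝ) := by
  have : Fact p.Prime := ⟨hp⟩
  have hp0 := hp.pos
  have hp' : (0 : ℝ) < p := by exact_mod_cast hp0
  obtain ⟨l, hl, hs⟩ := exists_levels p (5 * n) (fun c => ee p n c)
    (-2 * ((8 * n / p : ℕ) : ℤ) - 2) (by generalize 8 * n / p = u; omega) fun c => by
      unfold ee
      rcases cnt_bounds hp0 (8 * n) (-(c : ℤ) - 1) with h | h <;> rw [h] <;> push_cast <;> omega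
  have hdet := det_gram_monic a b x n (fun t : Fin (5 * n) => phi p n (l t) t)
    (fun t => phi_monic _ _ _ _) fun t => phi_natDegree _ _ _ _ (hl t)
  have hn' := det_norm_le p (gram a b x n fun t : Fin (5 * n) => phi p n (l t) t)
    (fun t => (p : ℝ) ^ (1 - (l t : ℝ) / 2)) (fun t => (p : ℝ) ^ (1 - (l t : ℝ) / 2))
    (fun t => by positivity) (fun t => by positivity)
    fun t u => entry_bound p a b x n h8 hx _ _ t u
  rw [hdet, ← Real.rpow_sum_of_pos hp', ← Real.rpow_add hp'] at hn'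
  have hv := le_val_of_norm_le p _ h0
    (-(∑ t : Fin (5 * n), (1 - (l t : ℝ) / 2) + ∑ t : Fin (5 * n), (1 - (l t : ℝ) / 2)))
    (by rwa [neg_neg])
  refine le_trans ?_ hv
  rw [Fin.sum_univ_eq_sum_range (fun t => 1 - (l t : ℝ) / 2)]
  have hs' : 4 * ∑ t ∈ range (5 * n), ((-1 : ℝ) - l t) ≤
      ∑ c ∈ range p, (cost (ee p n c) : ℝ) := by exact_mod_cast hs
  have hc : ∑ c ∈ range p, (cost (ee p n c) : ℝ) ≤ ∑ c ∈ range p,
      4 * (α + β * (cnt p (2 * n) c : ℝ) + γ * (cnt p (8 * n) (-(c : ℤ) - 1) : ℝ)) :=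
    sum_le_sum fun c _ => hlin _ _ (cnt_bounds hp0 _ _) (cnt_bounds hp0 _ _)
  rw [← mul_sum, sum_add_distrib, sum_add_distrib, ← mul_sum, ← mul_sum, ← Nat.cast_sum,
    ← Nat.cast_sum, sum_cnt hp0, sum_cnt' hp0, sum_const, card_range, nsmul_eq_mul] at hc
  have e1 : ∑ t ∈ range (5 * n), (1 - (l t : ℝ) / 2) =
      (∑ t ∈ range (5 * n), ((-1 : ℝ) - l t)) / 2 + 5 * n * (3 / 2) := by
    have : ∀ t, 1 - (l t : ℝ) / 2 = ((-1 : ℝ) - l t) / 2 + 3 / 2 := fun t => by ring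
    simp only [this, sum_add_distrib, ← sum_div, sum_const, card_range, nsmul_eq_mul]
    push_cast; ring
  rw [e1]
  push_cast at hc
  linarith

end Medium2

open Medium2

theorem val_medium (a b : ℤ) (x : ℚ) (n p : ℕ) (hp : p.Prime)
    (h8 : 8 * n < p ^ 2) (hx : ¬ p ∣ x.den) (h0 : Delta a b x n ≠ 0) :
    -25 * (n : ℝ) ^ 2 / p - 15 * n - 25 * p / 16 ≤ (padicValRat p (Delta a b x n) : ℝ) := by
  have hp' : (0 : ℝ) < p := by exact_mod_cast hp.pos
  set m : ℝ := 3 * ((2 * n / p : ℕ) : ℝ) - 2 * ((8 * n / p : ℕ) : ℝ) + 1 / 2 with hm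
  refine le_trans ?_ (val_lin a b x n p hp h8 hx h0 ((25 / 4 - m ^ 2) / 4) (3 * m / 2) (-m) ?_)
  · have h1 : 0 ≤ (p * m / 2 + 5 * n) ^ 2 / p := by positivity
    have h2 : (p * m / 2 + 5 * n) ^ 2 / p = p * m ^ 2 / 4 + 5 * m * n + 25 * (n : ℝ) ^ 2 / p := by
      field_simp
      ring
    have h3 : -25 * (n : ℝ) ^ 2 / p = -(25 * (n : ℝ) ^ 2 / p) := by ring
    nlinarith
  · intro z w hz hw
    have h1 : (cost (3 * (z : ℤ) - 2 * w) : ℝ) ≤ (3 * (z : ℝ) - 2 * w) ^ 2 := by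
      exact_mod_cast cost_le (3 * (z : ℤ) - 2 * w)
    refine h1.trans ?_
    have h2 : m - 5 / 2 ≤ 3 * (z : ℝ) - 2 * w ∧ 3 * (z : ℝ) - 2 * w ≤ m + 5 / 2 := by
      rw [hm]
      generalize 2 * n / p = u at hz
      generalize 8 * n / p = v at hw
      rcases hz with rfl | rfl <;> rcases hw with rfl | rfl <;> push_cast <;>
        constructor <;> linarith
    nlinarith [mul_nonneg (sub_nonneg.2 h2.1) (sub_nonneg.2 h2.2)]

theorem val_piece (a b : ℤ) (x : ℚ) (n p : ℕ) (hp : p.Prime)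
    (h8 : 8 * n < p ^ 2) (hx : ¬ p ∣ x.den) (h0 : Delta a b x n ≠ 0) (h2 : 2 * n < p) (v : ℕ)
    (hv : v * p ≤ 8 * n) (hv' : 8 * n < (v + 1) * p) (α β γ : ℤ)
    (h00 : cost (-2 * v) ≤ 4 * (α + γ * v)) (h01 : cost (-2 * (v + 1)) ≤ 4 * (α + γ * (v + 1)))
    (h10 : cost (3 - 2 * v) ≤ 4 * (α + β + γ * v))
    (h11 : cost (3 - 2 * (v + 1)) ≤ 4 * (α + β + γ * (v + 1))) :
    -((15 + 2 * β + 8 * γ) * (n : ℝ) + α * p) ≤ (padicValRat p (Delta a b x n) : ℝ) := by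
  refine le_trans (le_of_eq (by ring)) (val_lin a b x n p hp h8 hx h0 α β γ ?_)
  intro z w hz hw
  rw [Nat.div_eq_of_lt h2] at hz
  rw [Nat.div_eq_of_lt_le hv hv'] at hw
  rcases hz with rfl | rfl <;> rcases hw with rfl | rfl
  · have : ((cost (-2 * w) : ℤ) : ℝ) ≤ ((4 * (α + γ * w) : ℤ) : ℝ) := by exact_mod_cast h00
    simpa using this
  · have : ((cost (-2 * (v + 1)) : ℤ) : ℝ) ≤ ((4 * (α + γ * (v + 1)) : ℤ) : ℝ) := by
      exact_mod_cast h01
    simpa using this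
  · have : ((cost (3 - 2 * w) : ℤ) : ℝ) ≤ ((4 * (α + β + γ * w) : ℤ) : ℝ) := by exact_mod_cast h10
    simpa using this
  · have : ((cost (3 - 2 * (v + 1)) : ℤ) : ℝ) ≤ ((4 * (α + β + γ * (v + 1)) : ℤ) : ℝ) := by
      exact_mod_cast h11
    simpa using this

end Pool.Agent.P.MP_a89d6d_nt.Z34
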