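import Pool.Agent.P.MP_a89d6d_nt.Z34.Core
import Pool.Agent.P.MP_a89d6d_nt.Z23.Small

/-!
Valuation of the Hankel determinant at an arbitrary prime.
-/

namespace Pool.Agent.P.MP_a89d6d_nt.Z34

open Polynomial Finset Filter
open Pool.Agent.P.MP_a89d6d_nt.Z23 (H D W nc W_monic W_natDegree det_norm_le le_val_of_norm_le
  norm_H_le)
open Pool.Agent.P.MP_a89d6d_nt.Z23.Local (norm_add_le_of norm_sub_le_of norm_sum_le_of one_le_p)
open Pool.Agent.P.MP_a89d6d_nt.Z23.SmallP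

namespace Small2

theorem norm_deriv_le (p : ℕ) [hp : Fact p.Prime] (Q : ℚ[X]) (M : ℕ) (hM : Q.natDegree ≤ M)
    (F : ℝ) (hF : ∀ y : ℤ, ‖((Q.eval (y : ℚ) : ℚ) : ℚ_[p])‖ ≤ F) (y : ℤ) :
    ‖((Q.derivative.eval (y : ℚ) : ℚ) : ℚ_[p])‖ ≤ F * (p : ℝ) ^ Nat.log p M := by
  have hF0 : 0 ≤ F := (norm_nonneg _).trans (hF 0)
  have h := Z23.Core.newton (taylor (y : ℚ) Q) M (by rwa [natDegree_taylor])
  rw [← taylor_coeff_one, h, finsetSum_coeff, sum_range_succ', Z23.Core.W_zero, coeff_smul,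
    coeff_one, if_neg one_ne_zero, smul_zero, add_zero, Rat.cast_sum]
  apply norm_sum_le_of (by positivity)
  intro m hm
  have hm' := mem_range.1 hm
  have e : ((nc (taylor (y : ℚ) Q) (m + 1) / ((m + 1).factorial : ℚ)) • W (m + 1)).coeff 1 =
      (-1) ^ m * nc (taylor (y : ℚ) Q) (m + 1) * (((m + 1 : ℕ) : ℚ))⁻¹ := by
    rw [coeff_smul, (Z23.Core.W_coeff m).2.1, smul_eq_mul, Nat.factorial_succ]
    have : (m.factorial : ℚ) ≠ 0 := by positivity
    push_cast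
    field_simp
  rw [e, Rat.cast_mul, Rat.cast_mul, norm_mul, norm_mul, Rat.cast_inv, Rat.cast_natCast]
  refine mul_le_mul ?_ (norm_inv_nat_le p _ M (by omega) (by omega)) (norm_nonneg _) hF0
  have h1 : ‖(((-1 : ℚ) ^ m : ℚ) : ℚ_[p])‖ = 1 := by simp
  rw [h1, one_mul]
  unfold nc
  rw [Rat.cast_sum]
  apply norm_sum_le_of hF0
  intro i _
  rw [Rat.cast_mul, norm_mul]
  have h2 : ‖(((-1) ^ (m + 1 - i) * ((m + 1).choose i : ℚ) : ℚ) : ℚ_[p])‖ ≤ 1 := by
    have := Padic.norm_int_le_one (p := p) ((-1) ^ (m + 1 - i) * ((m + 1).choose i : ℤ))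
    simpa using this
  have h3 := hF ((i : ℤ) + y)
  rw [taylor_eval]
  push_cast at h3
  calc _ ≤ 1 * F := mul_le_mul h2 h3 (norm_nonneg _) zero_le_one
    _ = F := one_mul F

theorem norm_L_le (p : ℕ) [hp : Fact p.Prime] (a b : ℤ) (x : ℚ) (K M : ℕ) (hK : K ≤ M)
    (P : ℚ[X]) (hP : P.natDegree ≤ M) (F : ℝ)
    (hF : ∀ y : ℤ, ‖((P.eval (y : ℚ) : ℚ) : ℚ_[p])‖ ≤ F) :
    ‖((L a b x K P : ℚ) : ℚ_[p])‖ ≤
      F * ‖(K.factorial : ℚ_[p])‖⁻¹ ^ 2 *
        (p : ℝ) ^ (4 * Nat.log p M + padicValNat p x.den) := by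
  have hF0 : 0 ≤ F := (norm_nonneg _).trans (hF 0)
  have hp1 := one_le_p p
  have hG : 0 ≤ F * ‖(K.factorial : ℚ_[p])‖⁻¹ ^ 2 := by positivity
  unfold L
  rw [Rat.cast_sum]
  apply norm_sum_le_of (by positivity)
  intro j hj
  have hj' := mem_range.1 hj
  have hH : ∀ (c : ℤ) (s i t : ℕ), i ≤ M → s * Nat.log p M ≤ t →
      ‖(((c : ℚ) * H s i : ℚ) : ℚ_[p])‖ ≤ (p : ℝ) ^ t := by
    intro c s i t hi hs
    rw [Rat.cast_mul, norm_mul, Rat.cast_intCast]
    refine (mul_le_of_le_one_left (norm_nonneg _) (Padic.norm_int_le_one _)).trans ?_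
    exact (norm_H_le p s i M hi).trans (pow_le_pow_right₀ hp1 hs)
  have hd : ‖(((dn K j ^ 2)⁻¹ : ℚ) : ℚ_[p])‖ ≤ ‖(K.factorial : ℚ_[p])‖⁻¹ ^ 2 := by
    rw [← inv_pow, Rat.cast_pow, norm_pow]
    exact pow_le_pow_left₀ (norm_nonneg _) (norm_inv_prod_le p K j hj') 2
  have e0 : ((-((j : ℤ) + 1) : ℤ) : ℚ) = -((j : ℚ) + 1) := by push_cast; rfl
  have h1 := hF (-((j : ℤ) + 1))
  have h2 := norm_deriv_le p P M hP F hF (-((j : ℤ) + 1))
  rw [e0] at h1 h2
  have hA : ‖((cA K P j : ℚ) : ℚ_[p])‖ ≤ F * ‖(K.factorial : ℚ_[p])‖⁻¹ ^ 2 := by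
    rw [cA, div_eq_mul_inv, Rat.cast_mul, norm_mul]
    exact mul_le_mul h1 hd (norm_nonneg _) hF0
  have hs : ‖((2 * sg K j : ℚ) : ℚ_[p])‖ ≤ (p : ℝ) ^ Nat.log p M := by
    rw [sg, mul_sub, Rat.cast_sub]
    exact norm_sub_le_of (by simpa using hH 2 1 (K - 1 - j) _ (by omega) (one_mul _).le)
      (by simpa using hH 2 1 j _ (by omega) (one_mul _).le)
  have hB : ‖((cB K P j : ℚ) : ℚ_[p])‖ ≤
      F * ‖(K.factorial : ℚ_[p])‖⁻¹ ^ 2 * (p : ℝ) ^ Nat.log p M := by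
    rw [cB, Rat.cast_sub]
    apply norm_sub_le_of
    · rw [div_eq_mul_inv, Rat.cast_mul, norm_mul]
      refine (mul_le_mul h2 hd (norm_nonneg _) (by positivity)).trans (le_of_eq ?_)
      ring
    · rw [show 2 * cA K P j * sg K j = cA K P j * (2 * sg K j) by ring, Rat.cast_mul, norm_mul]
      exact mul_le_mul hA hs (norm_nonneg _) hG
  have h4 : ‖((x - 2 * a * H 3 j - 3 * b * H 4 j : ℚ) : ℚ_[p])‖ ≤
      (p : ℝ) ^ (4 * Nat.log p M + padicValNat p x.den) := by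
    rw [Rat.cast_sub, Rat.cast_sub]
    refine norm_sub_le_of (norm_sub_le_of
      ((norm_rat_le p x).trans (pow_le_pow_right₀ hp1 (by omega))) ?_) ?_
    · simpa using hH (2 * a) 3 j _ (by omega) (by omega)
    · simpa using hH (3 * b) 4 j _ (by omega) (by omega)
  have h5 : ‖((-(a * H 2 j) - b * H 3 j : ℚ) : ℚ_[p])‖ ≤
      (p : ℝ) ^ (3 * Nat.log p M + padicValNat p x.den) := by
    rw [Rat.cast_sub, Rat.cast_neg]
    refine norm_sub_le_of ?_ (hH b 3 j _ (by omega) (by omega))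
    rw [norm_neg]
    exact hH a 2 j _ (by omega) (by omega)
  rw [Rat.cast_add]
  apply norm_add_le_of
  · rw [Rat.cast_mul, norm_mul]
    exact mul_le_mul hA h4 (norm_nonneg _) hG
  · rw [Rat.cast_mul, norm_mul]
    refine (mul_le_mul hB h5 (norm_nonneg _) (by positivity)).trans (le_of_eq ?_)
    rw [mul_assoc, ← pow_add]
    congr 2
    ring

theorem level_bound (n q : ℕ) (hq : 0 < q) :
    -25 * (n : ℝ) ^ 2 * (1 / q) - 25 * n ≤
      15 * n * ((2 * n / q : ℕ) : ℝ) - 10 * n * ((8 * n / q : ℕ) : ℝ)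
        + 2 * ∑ i ∈ range (5 * n), ((i / q : ℕ) : ℝ) := by
  have hq' : (0 : ℝ) < q := by exact_mod_cast hq
  have hn : (0 : ℝ) ≤ n := by positivity
  have h1 := div_ge (2 * n) q hq
  have h2 : ((8 * n / q : ℕ) : ℝ) ≤ 8 * n / q := by
    have := @Nat.cast_div_le ℝ _ _ _ (8 * n) q
    push_cast at this
    exact this
  have h3 : ∑ i ∈ range (5 * n), (((i : ℝ) + 1) / q - 1) ≤
      ∑ i ∈ range (5 * n), ((i / q : ℕ) : ℝ) := sum_le_sum fun i _ => div_ge i q hq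
  rw [sum_sub_distrib, ← sum_div, sum_succ, sum_const, card_range, nsmul_eq_mul] at h3
  push_cast at h1 h3
  have h4 : 0 ≤ (n : ℝ) * (1 / q) := by positivity
  have h5 := mul_le_mul_of_nonneg_left h1 hn
  have h6 := mul_le_mul_of_nonneg_left h2 hn
  simp only [div_eq_mul_inv] at *
  nlinarith

theorem legendre_bound (p : ℕ) [hp : Fact p.Prime] (n : ℕ) :
    -25 * (n : ℝ) ^ 2 * ∑ k ∈ Icc 1 (Nat.log p (8 * n)), 1 / (p : ℝ) ^ k
      - 25 * n * (Nat.log p (16 * n) : ℝ) ≤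
      15 * n * (padicValNat p (2 * n).factorial : ℝ)
        - 10 * n * (padicValNat p (8 * n).factorial : ℝ)
        + 2 * ∑ i ∈ range (5 * n), (padicValNat p i.factorial : ℝ) := by
  have e3 : ∑ i ∈ range (5 * n), (padicValNat p i.factorial : ℝ) =
      ∑ k ∈ Icc 1 (Nat.log p (8 * n)), ∑ i ∈ range (5 * n), ((i / p ^ k : ℕ) : ℝ) := by
    rw [sum_comm]
    exact sum_congr rfl fun i hi => val_fact p i (8 * n) (by have := mem_range.mp hi; omega)
  rw [e3, val_fact p (2 * n) (8 * n) (by omega), val_fact p (8 * n) (8 * n) le_rfl, mul_sum,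
    mul_sum, mul_sum, mul_sum, ← sum_sub_distrib, ← sum_add_distrib]
  have h1 : ∑ k ∈ Icc 1 (Nat.log p (8 * n)), (-25 * (n : ℝ) ^ 2 * (1 / (p : ℝ) ^ k) - 25 * n) ≤
      ∑ k ∈ Icc 1 (Nat.log p (8 * n)), (15 * n * ((2 * n / p ^ k : ℕ) : ℝ)
        - 10 * n * ((8 * n / p ^ k : ℕ) : ℝ)
        + 2 * ∑ i ∈ range (5 * n), ((i / p ^ k : ℕ) : ℝ)) := by
    refine sum_le_sum fun k _ => ?_
    have := level_bound n (p ^ k) (pow_pos hp.out.pos k)
    rwa [Nat.cast_pow] at this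
  refine le_trans ?_ h1
  rw [sum_sub_distrib, sum_const, Nat.card_Icc, nsmul_eq_mul]
  have h2 : ((Nat.log p (8 * n) + 1 - 1 : ℕ) : ℝ) ≤ (Nat.log p (16 * n) : ℝ) := by
    have : Nat.log p (8 * n) ≤ Nat.log p (16 * n) := Nat.log_mono_right (by omega)
    exact_mod_cast this
  have hn' : (0 : ℝ) ≤ n := by positivity
  nlinarith

theorem tail_le (p n : ℕ) (hp : p.Prime) (hn : 1 ≤ n) :
    (n : ℝ) * ∑ k ∈ Icc 1 (Nat.log p (8 * n)), 1 / (p : ℝ) ^ k ≤
      n * ∑ k ∈ Icc 1 (Nat.log p (2 * n)), 1 / (p : ℝ) ^ k + (Nat.log p (16 * n) : ℝ) := by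
  have hle : Nat.log p (2 * n) ≤ Nat.log p (8 * n) := Nat.log_mono_right (by omega)
  have hsub : Icc 1 (Nat.log p (2 * n)) ⊆ Icc 1 (Nat.log p (8 * n)) := Icc_subset_Icc_right hle
  rw [← sum_sdiff hsub, mul_add, add_comm]
  refine add_le_add le_rfl ?_
  rw [mul_sum]
  have h1 : ∀ k ∈ Icc 1 (Nat.log p (8 * n)) \ Icc 1 (Nat.log p (2 * n)),
      (n : ℝ) * (1 / (p : ℝ) ^ k) ≤ 1 := by
    intro k hk
    rw [Finset.mem_sdiff, Finset.mem_Icc, Finset.mem_Icc] at hk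
    have h2 : 2 * n < p ^ k := Nat.lt_pow_of_log_lt hp.one_lt (by omega)
    have h3 : (n : ℝ) ≤ (p : ℝ) ^ k := by exact_mod_cast (by omega : n ≤ p ^ k)
    have h4 : (0 : ℝ) < (p : ℝ) ^ k := by have := hp.pos; positivity
    rw [mul_one_div, div_le_one h4]
    exact h3
  refine (sum_le_sum h1).trans ?_
  rw [sum_const, nsmul_eq_mul, mul_one]
  have h5 := card_le_card (sdiff_subset (s := Icc 1 (Nat.log p (8 * n)))
    (t := Icc 1 (Nat.log p (2 * n))))
  rw [Nat.card_Icc] at h5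
  have : Nat.log p (8 * n) ≤ Nat.log p (16 * n) := Nat.log_mono_right (by omega)
  exact_mod_cast (by omega)

end Small2

open Small2 in
theorem val_small (a b : ℤ) (x : ℚ) (n p : ℕ) (hp : p.Prime) (hn : 1 ≤ n)
    (h0 : Delta a b x n ≠ 0) :
    -25 * (n : ℝ) ^ 2 * ∑ k ∈ Icc 1 (Nat.log p (2 * n)), 1 / (p : ℝ) ^ k
      - 70 * n * (Nat.log p (16 * n) : ℝ) - 5 * n * (padicValNat p x.den : ℝ) ≤
      (padicValRat p (Delta a b x n) : ℝ) := by
  have : Fact p.Prime := ⟨hp⟩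
  have hp0 : (0 : ℝ) < p := by exact_mod_cast hp.pos
  set v : ℕ → ℝ := fun m => (padicValNat p m.factorial : ℝ) with hv
  set c : ℝ := 3 * v (2 * n) - 2 * v (8 * n)
    - (4 * (Nat.log p (16 * n) : ℝ) + padicValNat p x.den) with hc
  have hnf : ∀ m : ℕ, ‖(m.factorial : ℚ_[p])‖ = (p : ℝ) ^ (-v m) :=
    fun m => norm_nat p _ m.factorial_ne_zero
  have hdet := det_gram_monic a b x n (fun i : Fin (5 * n) => W (i : ℕ))
    (fun i => W_monic _) (fun i => W_natDegree _)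
  have hb := det_norm_le p (gram a b x n (fun i : Fin (5 * n) => W (i : ℕ)))
    (fun i => (p : ℝ) ^ (-(c + v i))) (fun i => (p : ℝ) ^ (-v i))
    (fun i => by positivity) (fun i => by positivity) (fun i k => by
      have hi := i.2
      have hk := k.2
      have hdeg : (W (2 * n) ^ 3 * W (i : ℕ) * W (k : ℕ)).natDegree ≤ 16 * n := by
        refine natDegree_mul_le.trans ?_
        refine (Nat.add_le_add_right natDegree_mul_le _).trans ?_
        have := natDegree_pow_le (p := W (2 * n)) (n := 3)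
        rw [W_natDegree] at this
        rw [W_natDegree, W_natDegree]
        omega
      have h := norm_L_le p a b x (8 * n) (16 * n) (by omega) _ hdeg
        (‖((2 * n).factorial : ℚ_[p])‖ ^ 3 * ‖((i : ℕ).factorial : ℚ_[p])‖ *
          ‖((k : ℕ).factorial : ℚ_[p])‖) (fun y => by
            rw [eval_mul, eval_mul, eval_pow, Rat.cast_mul, Rat.cast_mul, Rat.cast_pow, norm_mul,
              norm_mul, norm_pow]
            have h1 := norm_W_le p (2 * n) y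
            have h2 := norm_W_le p i y
            have h3 := norm_W_le p k y
            gcongr)
      refine le_trans h (le_of_eq ?_)
      rw [hnf, hnf, hnf, hnf, ← Real.rpow_neg hp0.le, ← Real.rpow_natCast, ← Real.rpow_natCast,
        ← Real.rpow_natCast, ← Real.rpow_mul hp0.le, ← Real.rpow_mul hp0.le,
        ← Real.rpow_add hp0, ← Real.rpow_add hp0, ← Real.rpow_add hp0,
        ← Real.rpow_add hp0, ← Real.rpow_add hp0]
      congr 1
      rw [hc]
      push_cast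
      ring)
  rw [hdet, ← Real.rpow_sum_of_pos hp0, ← Real.rpow_sum_of_pos hp0, ← Real.rpow_add hp0] at hb
  have hsum : ∑ i : Fin (5 * n), -(c + v i) + ∑ i : Fin (5 * n), -v i =
      -(5 * n * c + 2 * ∑ i ∈ range (5 * n), v i) := by
    rw [Fin.sum_univ_eq_sum_range (fun i => -(c + v i)), Fin.sum_univ_eq_sum_range (fun i => -v i),
      sum_neg_distrib, sum_neg_distrib, sum_add_distrib, sum_const, card_range, nsmul_eq_mul]
    push_cast
    ring
  rw [hsum] at hb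
  refine le_trans ?_ (le_val_of_norm_le p _ h0 _ hb)
  have hl := Small2.legendre_bound p n
  have ht := mul_le_mul_of_nonneg_left (tail_le p n hp hn) (show (0 : ℝ) ≤ 25 * n by positivity)
  rw [hc]
  simp only [hv]
  nlinarith

end Pool.Agent.P.MP_a89d6d_nt.Z34
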