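import Pool.Agent.P.MP_a89d6d_nt.Z34.Lower1
import Pool.Agent.P.MP_a89d6d_nt.Z34.Medium
import Pool.Agent.P.MP_a89d6d_nt.Z34.Large
import Pool.Agent.P.MP_a89d6d_nt.Z34.Small

/-!
The arithmetic lower bound for the Hankel determinant.
-/

namespace Pool.Agent.P.MP_a89d6d_nt.Z34

open Polynomial Finset Filter
open Pool.Agent.P.MP_a89d6d_nt.Z23.Lower (PP log_rat_eq)
open Lower2

theorem lower (a b : ℤ) (x : ℚ) : ∀ᶠ n : ℕ in atTop, Delta a b x n ≠ 0 →
    -25 * (n : ℝ) ^ 2 * Real.log n - 158 * (n : ℝ) ^ 2 ≤ Real.log |(Delta a b x n : ℝ)| := by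
  filter_upwards [lower_start x.den x.den_ne_zero,
    piece 2 (5 / 2) 27 0 (1351 / 100) (by norm_num) (by norm_num) (by norm_num),
    piece (5 / 2) (8 / 3) 57 (-12) (434 / 100) (by norm_num) (by norm_num) (by norm_num),
    piece (8 / 3) (10 / 3) 17 3 (1734 / 100) (by norm_num) (by norm_num) (by norm_num),
    piece (10 / 3) 4 47 (-6) (1667 / 100) (by norm_num) (by norm_num) (by norm_num),
    piece 4 5 7 4 (2501 / 100) (by norm_num) (by norm_num) (by norm_num),
    piece 5 (43 / 8) 37 (-2) (999 / 100) (by norm_num) (by norm_num) (by norm_num),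
    piece (43 / 8) 8 80 (-10) (3446 / 100) (by norm_num) (by norm_num) (by norm_num),
    eventually_ge_atTop 2, eventually_gt_atTop x.den]
    with n h0 h1 h2 h3 h4 h5 h6 h7 hn hden hD
  set v : ℕ → ℝ := fun p => (padicValRat p (Delta a b x n) : ℝ) with hv
  have hn' : (0 : ℝ) < n := by exact_mod_cast (by omega : 0 < n)
  have hsq : ∀ p : ℕ, 2 * n < p → 8 * n < p ^ 2 := fun p hp => by nlinarith
  have hnd : ∀ p : ℕ, 2 * n < p → ¬ p ∣ x.den := fun p hp hd => by
    have := Nat.le_of_dvd x.den_pos hd
    omega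
  have key : ∀ (p w : ℕ) (α β γ : ℤ), p.Prime → 2 * (n : ℝ) < p → (w : ℝ) * p ≤ 8 * n →
      8 * (n : ℝ) < (w + 1) * p →
      Medium2.cost (-2 * w) ≤ 4 * (α + γ * w) →
      Medium2.cost (-2 * (w + 1)) ≤ 4 * (α + γ * (w + 1)) →
      Medium2.cost (3 - 2 * w) ≤ 4 * (α + β + γ * w) →
      Medium2.cost (3 - 2 * (w + 1)) ≤ 4 * (α + β + γ * (w + 1)) →
      -((15 + 2 * β + 8 * γ) * (n : ℝ) + α * p) ≤ v p := by
    intro p w α β γ hp k1 k2 k3 c1 c2 c3 c4
    have k1' : 2 * n < p := by exact_mod_cast k1
    exact val_piece a b x n p hp (hsq p k1') (hnd p k1') hD k1' w (by exact_mod_cast k2)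
      (by exact_mod_cast k3) α β γ c1 c2 c3 c4
  have g0 := h0 v (fun p hp h8 hx => val_medium a b x n p hp h8 hx hD)
    (fun p hp => val_small a b x n p hp (by omega) hD)
  have g1 := h1 v fun p hp k1 k2 => by
    have := key p 3 0 (-10) 4 hp (by linarith) (by push_cast; linarith) (by push_cast; linarith)
      (by decide) (by decide) (by decide) (by decide)
    push_cast at this
    linarith
  have g2 := h2 v fun p hp k1 k2 => by
    have := key p 3 (-12) (-7) 7 hp (by linarith) (by push_cast; linarith) (by push_cast; linarith)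
      (by decide) (by decide) (by decide) (by decide)
    push_cast at this
    linarith
  have g3 := h3 v fun p hp k1 k2 => by
    have := key p 2 3 (-7) 2 hp (by linarith) (by push_cast; linarith) (by push_cast; linarith)
      (by decide) (by decide) (by decide) (by decide)
    push_cast at this
    linarith
  have g4 := h4 v fun p hp k1 k2 => by
    have := key p 2 (-6) (-4) 5 hp (by linarith) (by push_cast; linarith) (by push_cast; linarith)
      (by decide) (by decide) (by decide) (by decide)
    push_cast at this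
    linarith
  have g5 := h5 v fun p hp k1 k2 => by
    have := key p 1 4 (-4) 0 hp (by linarith) (by push_cast; linarith) (by push_cast; linarith)
      (by decide) (by decide) (by decide) (by decide)
    push_cast at this
    linarith
  have g6 := h6 v fun p hp k1 k2 => by
    have := key p 1 (-2) (-1) 3 hp (by linarith) (by push_cast; linarith) (by push_cast; linarith)
      (by decide) (by decide) (by decide) (by decide)
    push_cast at this
    linarith
  have g7 := h7 v fun p hp k1 k2 => by
    have k3 : 4 * n ≤ p := by exact_mod_cast (by linarith : 4 * (n : ℝ) ≤ p)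
    have k4 : p ≤ 8 * n := by exact_mod_cast k2
    have := val_large a b x n p hp (hsq p (by omega)) k3 (hnd p (by omega)) hD
    rw [Nat.cast_sub k4] at this
    push_cast at this
    simp only [hv]
    linarith
  rw [show (2 : ℝ) * n = ((2 * n : ℕ) : ℝ) by push_cast; ring, Nat.floor_natCast] at g1
  rw [show (8 : ℝ) * n = ((8 * n : ℕ) : ℝ) by push_cast; ring, Nat.floor_natCast] at g7
  set q := Delta a b x n with hq
  set N := 8 * n + q.num.natAbs + q.den with hN
  rw [log_rat_eq q hD N (by omega) (by omega)]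
  have g8 : SS v (8 * n) ≤ SS v N := by
    rw [SS_add v (show 8 * n ≤ N by omega), le_add_iff_nonneg_right]
    refine sum_nonneg fun p hp => mul_nonneg ?_ (Real.log_natCast_nonneg p)
    obtain ⟨hp1, hp2⟩ := mem_filter.1 hp
    have hp3 := (mem_Ioc.1 hp1).1
    have := val_large a b x n p hp2 (hsq p (by omega)) (by omega) (hnd p (by omega)) hD
    rwa [show 8 * n - p = 0 by omega, Nat.cast_zero, mul_zero] at this
  change _ ≤ SS v N
  have b5 : 0 ≤ (n : ℝ) ^ 2 := by positivity
  linarith

end Pool.Agent.P.MP_a89d6d_nt.Z34
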