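import Pool.Agent.P.MP_a89d6d_nt.Z23.Lower1

/-!
Prime sums: an upper form of Mertens' first theorem and linear weights on intervals.
-/

namespace Pool.Agent.P.MP_a89d6d_nt.Z34.Lower2

open Finset Filter Topology ArithmeticFunction
open Pool.Agent.P.MP_a89d6d_nt.Z23.Lower

lemma le_log_factorial (y M : ℕ) (hy : 0 < y) (hM : 0 < M) :
    (M * y : ℝ) * ∑ d ∈ Ioc 0 y, vonMangoldt d / (d : ℝ) - Chebyshev.psi y +
        ∑ m ∈ Icc 1 M, (Chebyshev.psi ((M : ℝ) / m * y) - Chebyshev.psi y) ≤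
      Real.log ((M * y).factorial : ℝ) := by
  rw [Pool.Agent.Lib.Mertens.log_factorial_eq_sum]
  have hyM : y ≤ M * y := Nat.le_mul_of_pos_left _ hM
  rw [← Ioc_union_Ioc_eq_Ioc (Nat.zero_le y) hyM, sum_union (Ioc_disjoint_Ioc_of_le le_rfl)]
  apply add_le_add
  · rw [mul_sum, psi_nat, ← sum_sub_distrib]
    refine sum_le_sum fun d hd => ?_
    have hd0 : 0 < d := (mem_Ioc.1 hd).1
    have hd' : (0 : ℝ) < d := by exact_mod_cast hd0
    have h2 : ((M * y : ℕ) : ℝ) / d ≤ ((M * y / d : ℕ) : ℝ) + 1 := by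
      rw [div_le_iff₀ hd']
      have := Nat.lt_div_mul_add (a := M * y) hd0
      have h3 : ((M * y : ℕ) : ℝ) < (M * y / d * d + d : ℕ) := by exact_mod_cast this
      rw [Nat.cast_add, Nat.cast_mul (M * y / d)] at h3
      linarith
    have h4 : 0 ≤ vonMangoldt d := vonMangoldt_nonneg
    have h5 := mul_le_mul_of_nonneg_left h2 h4
    have h6 : (M * y : ℝ) * (vonMangoldt d / d) = vonMangoldt d * (((M * y : ℕ) : ℝ) / d) := by
      push_cast; ring
    linarith
  · have key : ∀ m ∈ Icc 1 M, Chebyshev.psi ((M : ℝ) / m * y) - Chebyshev.psi y =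
        ∑ d ∈ Ioc y (M * y), if m ≤ M * y / d then vonMangoldt d else 0 := by
      intro m hm
      obtain ⟨hm1, hm2⟩ := mem_Icc.1 hm
      have e : ⌊(M : ℝ) / m * y⌋₊ = M * y / m := by
        rw [← Nat.floor_div_eq_div (K := ℝ)]
        congr 1
        push_cast
        ring
      have hle : y ≤ M * y / m := by
        rw [Nat.le_div_iff_mul_le (by omega), mul_comm]
        exact Nat.mul_le_mul_right _ hm2
      rw [psi_nat, Chebyshev.psi, e, ← Ioc_union_Ioc_eq_Ioc (Nat.zero_le y) hle,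
        sum_union (Ioc_disjoint_Ioc_of_le le_rfl), add_sub_cancel_left, ← sum_filter]
      refine sum_congr ?_ fun _ _ => rfl
      ext d
      simp only [mem_Ioc, mem_filter]
      constructor
      · rintro ⟨h1, h2⟩
        rw [Nat.le_div_iff_mul_le (by omega)] at h2
        refine ⟨⟨h1, ?_⟩, ?_⟩
        · nlinarith
        · rw [Nat.le_div_iff_mul_le (by omega)]
          linarith
      · rintro ⟨⟨h1, _⟩, h2⟩
        rw [Nat.le_div_iff_mul_le (by omega)] at h2
        refine ⟨h1, ?_⟩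
        rw [Nat.le_div_iff_mul_le (by omega)]
        linarith
    rw [sum_congr rfl key, sum_comm]
    refine sum_le_sum fun d hd => ?_
    obtain ⟨hd1, _⟩ := mem_Ioc.1 hd
    rw [← sum_filter, sum_const, nsmul_eq_mul, mul_comm]
    have hle : M * y / d ≤ M := by
      apply Nat.div_le_of_le_mul
      nlinarith
    have : (Icc 1 M).filter (fun m => m ≤ M * y / d) = Icc 1 (M * y / d) := by
      ext m
      simp only [mem_filter, mem_Icc]
      omega
    rw [this]
    simp

lemma log_factorial_le' (N : ℕ) (hN : 1 ≤ N) :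
    Real.log (N.factorial : ℝ) ≤ N * Real.log N - N + Real.log N + 1 := by
  induction N, hN using Nat.le_induction with
  | base => simp
  | succ N hN ih =>
    have h0 : (0 : ℝ) < N := by exact_mod_cast hN
    rw [Nat.factorial_succ, Nat.cast_mul, Real.log_mul (by positivity) (by positivity)]
    have h1 := Real.log_le_sub_one_of_pos (show (0 : ℝ) < N / (N + 1) by positivity)
    rw [Real.log_div h0.ne' (by positivity)] at h1
    have h2 := mul_le_mul_of_nonneg_left h1 (show (0 : ℝ) ≤ N + 1 by positivity)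
    have h3 : ((N : ℝ) + 1) * (N / (N + 1) - 1) = -1 := by field_simp; ring
    push_cast
    nlinarith

lemma log_small (c ε : ℝ) (hc : 0 < c) (hε : 0 < ε) :
    ∀ᶠ n : ℕ in atTop, Real.log (c * n) + 1 ≤ ε * n := by
  have h := Real.isLittleO_log_id_atTop.bound (c := ε / 2 / c) (by positivity)
  have h7 : Tendsto (fun n : ℕ => c * (n : ℝ)) atTop atTop :=
    tendsto_natCast_atTop_atTop.const_mul_atTop hc
  filter_upwards [h7.eventually h,
    tendsto_natCast_atTop_atTop.eventually_ge_atTop (2 / ε)] with n hn hn2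
  have hn0 : (0 : ℝ) ≤ n := by positivity
  simp only [id, Real.norm_eq_abs] at hn
  rw [abs_of_nonneg (by positivity : (0 : ℝ) ≤ c * n)] at hn
  have h1 := (le_abs_self _).trans hn
  have h2 : ε / 2 / c * (c * n) = ε / 2 * n := by field_simp
  rw [div_le_iff₀ hε] at hn2
  nlinarith

lemma harm : (128 : ℚ) * (37438 / 10000) < ∑ m ∈ Icc (1 : ℕ) 64, ((64 : ℚ) / (m : ℚ) * 2 - 2) := by
  decide +kernel

/-- Mertens' first theorem, upper bound with a good constant. -/
lemma mertens_upper : ∀ᶠ n : ℕ in atTop,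
    ∑ d ∈ Ioc 0 (2 * n), vonMangoldt d / (d : ℝ) ≤ Real.log n + 1 / 8 := by
  have h1 : Tendsto (fun n : ℕ => ∑ m ∈ Icc 1 64,
      (Chebyshev.psi (((64 : ℝ) / (m : ℕ) * 2) * n) / n - Chebyshev.psi (2 * n) / n)
      - Chebyshev.psi (2 * n) / n) atTop
      (𝓝 (∑ m ∈ Icc 1 64, (((64 : ℝ) / (m : ℕ) * 2) - 2) - 2)) :=
    (tendsto_finsetSum _ fun m _ =>
      (psi_scaled (by positivity)).sub (psi_scaled (by norm_num))).sub (psi_scaled (by norm_num))
  have h2 : 128 * (37438 / 10000) - 2 <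
      (∑ m ∈ Icc 1 64, (((64 : ℝ) / (m : ℕ) * 2) - 2)) - 2 := by
    have := (Rat.cast_lt (K := ℝ)).mpr harm
    push_cast at this
    linarith
  filter_upwards [h1.eventually (lt_mem_nhds h2), eventually_gt_atTop 0,
    log_small 128 (1 / 10) (by norm_num) (by norm_num)] with n hn hn0 hs
  have hn' : (0 : ℝ) < n := by exact_mod_cast hn0
  have h3 := le_log_factorial (2 * n) 64 (by omega) (by norm_num)
  have h4 := log_factorial_le' (64 * (2 * n)) (by omega)
  have h5 : Real.log ((64 * (2 * n) : ℕ) : ℝ) = 7 * Real.log 2 + Real.log n := by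
    rw [show ((64 * (2 * n) : ℕ) : ℝ) = 2 ^ 7 * n by push_cast; ring,
      Real.log_mul (by norm_num) (by positivity), Real.log_pow]
    push_cast
    ring
  have h5' : Real.log (128 * n) = 7 * Real.log 2 + Real.log n := by
    rw [← h5]
    congr 1
    push_cast
    ring
  have h6 : (128 * (37438 / 10000) - 2) * n <
      ∑ m ∈ Icc 1 64, (Chebyshev.psi (((64 : ℕ) : ℝ) / (m : ℕ) * ((2 * n : ℕ) : ℝ)) -
      Chebyshev.psi ((2 * n : ℕ) : ℝ)) - Chebyshev.psi ((2 * n : ℕ) : ℝ) := by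
    rw [← lt_div_iff₀ hn', sub_div, sum_div]
    convert hn using 3 with m _
    · push_cast
      rw [sub_div, mul_assoc]
    · push_cast
      rfl
  rw [h5] at h4
  rw [h5'] at hs
  have l2 := Real.log_two_lt_d9
  set S := ∑ d ∈ Ioc 0 (2 * n), vonMangoldt d / (d : ℝ)
  push_cast at h3 h4 h6
  have h7 : 128 * n * S ≤ 128 * (n : ℝ) *
      (7 * Real.log 2 + Real.log n - 1 - 37438 / 10000 + 1 / 64 + 1 / 1280) := by nlinarith
  have h8 := le_of_mul_le_mul_left h7 (by positivity)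
  linarith

lemma sum_piece (α β c d r : ℝ) (hα : 0 ≤ α) (hαβ : α ≤ β)
    (hr : c * (β - α) + d * (β ^ 2 - α ^ 2) / 2 < r) : ∀ᶠ n : ℕ in atTop,
    ∑ p ∈ (Ioc ⌊α * n⌋₊ ⌊β * n⌋₊).filter Nat.Prime, (c * n + d * p) * Real.log p ≤
      r * (n : ℝ) ^ 2 := by
  have h := (Pool.Agent.Lib.PNT.prime_sum_tendsto (α := α) (β := β) hα hαβ
    (f := fun t => c + d * t) (M := |c| + |d| * β) (fun x hx => ?_)
    (Eventually.of_forall fun x _ => by fun_prop)).comp tendsto_natCast_atTop_atTop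
  · rw [integral_lin] at h
    filter_upwards [h.eventually (gt_mem_nhds hr), eventually_gt_atTop 0] with n hn hn0
    have hn' : (0 : ℝ) < n := by exact_mod_cast hn0
    simp only [Function.comp] at hn
    rw [div_lt_iff₀ hn'] at hn
    have h1 := mul_le_mul_of_nonneg_left hn.le hn'.le
    rw [mul_sum] at h1
    refine le_trans (le_of_eq (sum_congr rfl fun p _ => ?_)) (h1.trans (le_of_eq (by ring)))
    field_simp
  · refine (abs_add_le _ _).trans (add_le_add le_rfl ?_)
    rw [abs_mul, abs_of_pos (hα.trans_lt hx.1)]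
    exact mul_le_mul_of_nonneg_left hx.2 (abs_nonneg _)

/-- The sum of `v p * log p` over the primes up to `m`. -/
noncomputable def SS (v : ℕ → ℝ) (m : ℕ) : ℝ := ∑ p ∈ PP m, v p * Real.log p

lemma SS_add (v : ℕ → ℝ) {m m' : ℕ} (h : m ≤ m') :
    SS v m' = SS v m + ∑ p ∈ (Ioc m m').filter Nat.Prime, v p * Real.log p := by
  unfold SS PP
  rw [← sum_union (disjoint_filter_filter (Ioc_disjoint_Ioc_of_le le_rfl)), ← filter_union,
    Ioc_union_Ioc_eq_Ioc (Nat.zero_le _) h]

lemma piece (α β c d r : ℝ) (hα : 0 ≤ α) (hαβ : α ≤ β)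
    (hr : c * (β - α) + d * (β ^ 2 - α ^ 2) / 2 < r) : ∀ᶠ n : ℕ in atTop, ∀ v : ℕ → ℝ,
    (∀ p : ℕ, p.Prime → α * n < p → p ≤ β * n → -(c * n + d * p) ≤ v p) →
    SS v ⌊α * n⌋₊ - r * (n : ℝ) ^ 2 ≤ SS v ⌊β * n⌋₊ := by
  filter_upwards [sum_piece α β c d r hα hαβ hr] with n hn v hv
  have hn0 : (0 : ℝ) ≤ n := by positivity
  rw [SS_add v (Nat.floor_le_floor (mul_le_mul_of_nonneg_right hαβ hn0))]
  have h1 : -∑ p ∈ (Ioc ⌊α * n⌋₊ ⌊β * n⌋₊).filter Nat.Prime, (c * n + d * p) * Real.log p ≤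
      ∑ p ∈ (Ioc ⌊α * n⌋₊ ⌊β * n⌋₊).filter Nat.Prime, v p * Real.log p := by
    rw [← sum_neg_distrib]
    refine sum_le_sum fun p hp => ?_
    obtain ⟨hp1, hp2⟩ := mem_filter.1 hp
    obtain ⟨hp3, hp4⟩ := mem_Ioc.1 hp1
    rw [← neg_mul]
    refine mul_le_mul_of_nonneg_right (hv p hp2 ?_ ?_) (Real.log_natCast_nonneg p)
    · exact (Nat.floor_lt (by positivity)).1 hp3
    · exact (Nat.le_floor_iff (mul_nonneg (hα.trans hαβ) hn0)).1 hp4
  linarith

/-- The error from the small primes is negligible. -/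
lemma err_small (A : ℝ) : ∀ᶠ n : ℕ in atTop,
    Real.sqrt (16 * n) * (70 * n * Real.log (16 * n) + 5 * n * A) ≤ (1 / 10) * (n : ℝ) ^ 2 := by
  have h1 : Tendsto (fun x : ℝ => Real.log x / Real.sqrt x) atTop (𝓝 0) := by
    have := (isLittleO_log_rpow_atTop (r := 1 / 2) (by norm_num)).tendsto_div_nhds_zero
    refine this.congr fun x => ?_
    rw [Real.sqrt_eq_rpow]
  have h2 : Tendsto (fun x : ℝ => (Real.sqrt x)⁻¹) atTop (𝓝 0) :=
    Real.tendsto_sqrt_atTop.inv_tendsto_atTop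
  have h3 : Tendsto (fun n : ℕ => (16 : ℝ) * n) atTop atTop :=
    tendsto_natCast_atTop_atTop.const_mul_atTop (by norm_num)
  have h4 := (((h1.comp h3).const_mul (70 * 16)).add ((h2.comp h3).const_mul (5 * 16 * A)))
  simp only [mul_zero, add_zero] at h4
  filter_upwards [h4.eventually (gt_mem_nhds (show (0 : ℝ) < 1 / 10 by norm_num)),
    eventually_gt_atTop 0] with n hn hn0
  have hn' : (0 : ℝ) < n := by exact_mod_cast hn0
  simp only [Function.comp] at hn
  have hs : 0 < Real.sqrt (16 * n) := Real.sqrt_pos.2 (by positivity)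
  have hs2 : Real.sqrt (16 * n) * Real.sqrt (16 * n) = 16 * n := Real.mul_self_sqrt (by positivity)
  set s := Real.sqrt (16 * n)
  have e : s * (70 * n * Real.log (16 * n) + 5 * n * A) =
      (70 * 16 * (Real.log (16 * n) / s) + 5 * 16 * A * s⁻¹) * (n : ℝ) ^ 2 := by
    have : (n : ℝ) = s * s / 16 := by linarith
    generalize Real.log (16 * n) = l
    rw [this]
    field_simp
  rw [e]
  exact mul_le_mul_of_nonneg_right hn.le (by positivity)

theorem lower_start (den : ℕ) (hden : den ≠ 0) : ∀ᶠ n : ℕ in atTop, ∀ v : ℕ → ℝ,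
    (∀ p : ℕ, p.Prime → 8 * n < p ^ 2 → ¬ p ∣ den →
      -25 * (n : ℝ) ^ 2 / p - 15 * n - 25 * p / 16 ≤ v p) →
    (∀ p : ℕ, p.Prime → -25 * (n : ℝ) ^ 2 * ∑ k ∈ Icc 1 (Nat.log p (2 * n)), 1 / (p : ℝ) ^ k
      - 70 * n * (Nat.log p (16 * n) : ℝ) - 5 * n * (padicValNat p den : ℝ) ≤ v p) →
    -25 * (n : ℝ) ^ 2 * Real.log n - 364 / 10 * (n : ℝ) ^ 2 ≤ SS v (2 * n) := by
  filter_upwards [mertens_upper,
    sum_piece 0 2 15 (25 / 16) (3315 / 100) le_rfl (by norm_num) (by norm_num),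
    err_small (Real.log den), eventually_gt_atTop (den ^ 2), eventually_gt_atTop 0]
    with n hM h1 hE hn2 hn0 v hmed hsmall
  have hn' : (0 : ℝ) < n := by exact_mod_cast hn0
  have hlog : ∀ p : ℕ, 0 ≤ Real.log p := fun p => Real.log_natCast_nonneg p
  rw [zero_mul, Nat.floor_zero, show (2 : ℝ) * n = ((2 * n : ℕ) : ℝ) by push_cast; ring,
    Nat.floor_natCast] at h1
  set E : ℝ := 70 * n * Real.log (16 * n) + 5 * n * Real.log den with hEdef
  have hE0 : 0 ≤ E := by
    have : 0 ≤ Real.log (16 * n) := Real.log_nonneg (by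
      have : (1 : ℝ) ≤ n := by exact_mod_cast hn0
      linarith)
    have := hlog den
    positivity
  have t1 : ∀ p ∈ PP (2 * n),
      -25 * (n : ℝ) ^ 2 * ((∑ k ∈ Icc 1 (Nat.log p (2 * n)), 1 / (p : ℝ) ^ k) * Real.log p)
        - (15 * n + 25 / 16 * p) * Real.log p - (if p ^ 2 < 16 * n then E else 0) ≤
      v p * Real.log p := by
    intro p hp
    obtain ⟨hp1, hp2⟩ := mem_PP.1 hp
    have hp0 : (0 : ℝ) < p := by exact_mod_cast hp2.pos
    split_ifs with hc
    · have hs := mul_le_mul_of_nonneg_right (hsmall p hp2) (hlog p)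
      have a2 : (Nat.log p (16 * n) : ℝ) * Real.log p ≤ Real.log (16 * n) := by
        rw [← Real.log_pow]
        refine Real.log_le_log (by positivity) ?_
        exact_mod_cast Nat.pow_log_le_self p (by omega)
      have a3 : (padicValNat p den : ℝ) * Real.log p ≤ Real.log den := by
        rw [← Real.log_pow]
        refine Real.log_le_log (by positivity) ?_
        exact_mod_cast Nat.le_of_dvd (Nat.pos_of_ne_zero hden) pow_padicValNat_dvd
      have a4 : 0 ≤ (15 * (n : ℝ) + 25 / 16 * p) * Real.log p := by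
        have := hlog p
        positivity
      have a6 := mul_le_mul_of_nonneg_left a2 (show 0 ≤ 70 * (n : ℝ) by positivity)
      have a7 := mul_le_mul_of_nonneg_left a3 (show 0 ≤ 5 * (n : ℝ) by positivity)
      rw [hEdef]
      nlinarith
    · rw [not_lt] at hc
      have hnd' : ¬ p ∣ den := fun hd => by
        have h := Nat.le_of_dvd (Nat.pos_of_ne_zero hden) hd
        have := Nat.pow_le_pow_left h 2
        omega
      have hs := mul_le_mul_of_nonneg_right (hmed p hp2 (by omega) hnd') (hlog p)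
      have hl : Nat.log p (2 * n) = 1 :=
        (Nat.log_eq_iff (Or.inl one_ne_zero)).2 ⟨by simpa using hp1, by norm_num; omega⟩
      rw [hl, Icc_self, sum_singleton, pow_one]
      refine le_trans (le_of_eq ?_) hs
      ring
  have t1' := sum_le_sum t1
  rw [sum_sub_distrib, sum_sub_distrib, ← mul_sum, ← sum_vonMangoldt_div_eq,
    ← sum_filter, sum_const, nsmul_eq_mul] at t1'
  have hcard : (((PP (2 * n)).filter fun p => p ^ 2 < 16 * n).card : ℝ) ≤ Real.sqrt (16 * n) := by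
    have : ((PP (2 * n)).filter fun p => p ^ 2 < 16 * n) ⊆ Ioc 0 (Nat.sqrt (16 * n)) := by
      intro p hp
      obtain ⟨hp1, hp2⟩ := mem_filter.1 hp
      exact mem_Ioc.2 ⟨(mem_PP.1 hp1).2.pos, Nat.le_sqrt'.2 hp2.le⟩
    have h := card_le_card this
    rw [Nat.card_Ioc, Nat.sub_zero] at h
    calc _ ≤ ((Nat.sqrt (16 * n) : ℕ) : ℝ) := by exact_mod_cast h
      _ ≤ Real.sqrt ((16 * n : ℕ) : ℝ) := Real.nat_sqrt_le_real_sqrt
      _ = _ := by push_cast; rfl
  have b1 := mul_le_mul_of_nonneg_right hcard hE0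
  have b2 := mul_le_mul_of_nonneg_left hM (show 0 ≤ 25 * (n : ℝ) ^ 2 by positivity)
  have b5 : 0 ≤ (n : ℝ) ^ 2 := by positivity
  unfold SS
  change ∑ p ∈ PP (2 * n), _ ≤ _ at h1
  nlinarith

end Pool.Agent.P.MP_a89d6d_nt.Z34.Lower2
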