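import Pool.Agent.P.MP_a89d6d_nt.Z34.Core
import Pool.Agent.P.MP_a89d6d_nt.Z23.Nonzero2

/-!
The functional with `8 p` double poles, modulo `p`, in terms of the one with `8` double poles.
-/

namespace Pool.Agent.P.MP_a89d6d_nt.Z34.Nonzero2

open Polynomial Finset Filter
open Pool.Agent.P.MP_a89d6d_nt.Z23 (H)
open Pool.Agent.P.MP_a89d6d_nt.Z23.Nonzero (Cg Un wilson p_ne_zero prod_range_mul' sum_range_mul'
  cg_H)

variable {p : ℕ} [hp : Fact p.Prime]

/-- The part of the denominator prime to `p`. -/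
def Ep (p : ℕ) (d0 : ℕ) (y : ℤ) : ℚ :=
  ∏ m ∈ range 8, ∏ d ∈ (range p).erase d0, ((y : ℚ) + ((m * p + d : ℕ) : ℚ) + 1)

theorem cg_Ep (d0 : ℕ) (hd0 : d0 < p) (y : ℤ) (hy : (p : ℤ) ∣ y + d0 + 1) :
    Cg p (Ep p d0 y) 1 := by
  have h : ∀ m ∈ range 8, Cg p
      (∏ d ∈ (range p).erase d0, ((y : ℚ) + ((m * p + d : ℕ) : ℚ) + 1)) (-1) := by
    intro m _
    have := wilson (p := p) (fun d => y + ((m * p + d : ℕ) : ℤ) + 1) d0 hd0 ?_ ?_
    · refine this.congr (prod_congr rfl fun d _ => ?_) rfl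
      push_cast; ring
    · have h1 := (ZMod.intCast_zmod_eq_zero_iff_dvd _ p).mpr hy
      push_cast at h1 ⊢
      rw [ZMod.natCast_self]
      linear_combination h1
    · intro d hd d' hd' h
      push_cast at h
      have h1 : (d : ZMod p) = d' := by linear_combination h
      have h2 := (ZMod.natCast_eq_natCast_iff' _ _ _).mp h1
      rwa [Nat.mod_eq_of_lt hd, Nat.mod_eq_of_lt hd'] at h2
  have h2 := Cg.prod _ h
  refine h2.congr rfl ?_
  simp
  norm_num

theorem dn_split (d0 m0 : ℕ) (hd0 : d0 < p) (hm0 : m0 < 8) :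
    dn (8 * p) (m0 * p + d0)
      = (p : ℚ) ^ 7 * dn 8 m0 * Ep p d0 (-((m0 * p + d0 : ℕ) : ℤ) - 1) := by
  unfold dn
  have hmem : m0 * p + d0 ∈ range (8 * p) := by
    rw [mem_range]; nlinarith
  have h1 : ∏ k ∈ (range (8 * p)).erase (m0 * p + d0), ((k : ℚ) - ((m0 * p + d0 : ℕ) : ℚ))
      = ∏ k ∈ range (8 * p),
        (if k = m0 * p + d0 then 1 else ((k : ℚ) - ((m0 * p + d0 : ℕ) : ℚ))) := by
    rw [← mul_prod_erase (range (8 * p)) _ hmem, if_pos rfl, one_mul]
    refine prod_congr rfl fun k hk => ?_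
    rw [if_neg (ne_of_mem_erase hk)]
  have h2 : (p : ℚ) ^ 7 * (∏ m ∈ (range 8).erase m0, ((m : ℚ) - (m0 : ℚ)))
      = ∏ m ∈ range 8, (if m = m0 then 1 else (p : ℚ) * ((m : ℚ) - (m0 : ℚ))) := by
    rw [← mul_prod_erase (range 8) _ (mem_range.mpr hm0), if_pos rfl, one_mul]
    have h5 : (p : ℚ) ^ 7 = ∏ _m ∈ (range 8).erase m0, (p : ℚ) := by
      rw [prod_const, card_erase_of_mem (mem_range.mpr hm0), card_range]
    rw [h5, ← prod_mul_distrib]
    refine prod_congr rfl fun k hk => ?_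
    rw [if_neg (ne_of_mem_erase hk)]
  rw [h1, h2, prod_range_mul'
    (fun k => if k = m0 * p + d0 then 1 else ((k : ℚ) - ((m0 * p + d0 : ℕ) : ℚ))) 8 p, Ep,
    ← prod_mul_distrib]
  refine prod_congr rfl fun m _ => ?_
  rw [← mul_prod_erase (range p) _ (mem_range.mpr hd0)]
  congr 1
  · by_cases hm : m = m0
    · subst hm; simp
    · have : m * p + d0 ≠ m0 * p + d0 := by
        intro h
        exact hm (Nat.eq_of_mul_eq_mul_right hp.out.pos (Nat.add_right_cancel h))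
      rw [if_neg this, if_neg hm]
      push_cast; ring
  · refine prod_congr rfl fun d hd => ?_
    have hd1 := mem_range.mp (mem_of_mem_erase hd)
    have : m * p + d ≠ m0 * p + d0 := by
      intro h
      have h3 := congrArg (· % p) h
      simp only [Nat.add_comm _ d, Nat.add_comm _ d0, Nat.add_mul_mod_self_right,
        Nat.mod_eq_of_lt hd1, Nat.mod_eq_of_lt hd0] at h3
      exact ne_of_mem_erase hd h3
    rw [if_neg this]
    push_cast; ring

theorem un_dn (hp16 : 16 ≤ p) (m0 : ℕ) (hm0 : m0 < 8) : Un p (dn 8 m0) := by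
  refine Un.prod _ fun m hm => ?_
  have h1 := mem_range.mp (mem_of_mem_erase hm)
  have h2 := ne_of_mem_erase hm
  have := Un.small (p := p) (n := (m : ℤ) - (m0 : ℤ)) (by omega) (by
    rw [abs_lt]; constructor <;> omega)
  simpa using this

theorem cg_sg (hp16 : 16 ≤ p) (m d : ℕ) (hm : m < 8) (hd : d < p) :
    Cg p ((p : ℚ) * sg (8 * p) (m * p + d)) (sg 8 m) := by
  have h1 := cg_H (p := p) 1 m d le_rfl (by omega) hd
  have h2 := cg_H (p := p) 1 (8 - 1 - m) (p - 1 - d) le_rfl (by omega) (by omega)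
  have e : (8 - 1 - m) * p + (p - 1 - d) = 8 * p - 1 - (m * p + d) := by
    interval_cases m <;> omega
  rw [e] at h2
  refine (h2.sub h1).congr ?_ rfl
  unfold sg
  ring

/-- Near `y`, in the variable `(z - y) / p`, the polynomial `P` looks like `u * P0` near `w`. -/
def CP (p : ℕ) (P : ℚ[X]) (y u : ℚ) (P0 : ℚ[X]) (w : ℚ) : Prop :=
  Cg p (P.eval y) (u * P0.eval w) ∧
    Cg p ((p : ℚ) * P.derivative.eval y) (u * P0.derivative.eval w)

theorem CP.mul {P Q P0 Q0 : ℚ[X]} {y u u' w : ℚ} (h : CP p P y u P0 w) (h' : CP p Q y u' Q0 w) :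
    CP p (P * Q) y (u * u') (P0 * Q0) w := by
  constructor
  · refine (h.1.mul h'.1).congr ?_ ?_ <;> simp only [eval_mul]
    ring
  · refine ((h.2.mul h'.1).add (h.1.mul h'.2)).congr ?_ ?_ <;>
      simp only [derivative_mul, eval_add, eval_mul] <;> ring

theorem CP.one (y w : ℚ) : CP p 1 y 1 1 w :=
  ⟨by simpa using Cg.one, by simpa using Cg.zero⟩

theorem CP.pow {P P0 : ℚ[X]} {y u w : ℚ} (h : CP p P y u P0 w) (k : ℕ) :
    CP p (P ^ k) y (u ^ k) (P0 ^ k) w := by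
  induction k with
  | zero => simpa using CP.one y w
  | succ k ih => simpa only [pow_succ] using ih.mul h

theorem CP.neg {P P0 : ℚ[X]} {y u w : ℚ} (h : CP p P y u P0 w) : CP p (-P) y (-u) P0 w :=
  ⟨h.1.neg.congr (by simp) (by ring), h.2.neg.congr (by simp) (by ring)⟩

theorem CP.const {P : ℚ[X]} {y u : ℚ} (w : ℚ) (h : Cg p (P.eval y) u)
    (h' : Cg p (P.derivative.eval y) (P.derivative.eval y)) : CP p P y u 1 w :=
  ⟨by simpa using h, by simpa using h'.p_mul⟩

theorem CP.lin (c : ℚ) (m w : ℤ) :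
    CP p ((p : ℚ)⁻¹ • (X - C (c + p * m))) (c + p * w) 1 (X - C (m : ℚ)) w := by
  have h0 := p_ne_zero (p := p)
  constructor
  · refine (Cg.int (p := p) (w - m)).congr ?_ ?_
    · simp only [eval_smul, eval_sub, eval_X, eval_C, smul_eq_mul]
      push_cast
      field_simp
      ring
    · simp
  · refine (Cg.one (p := p)).congr ?_ ?_
    · simp only [derivative_smul, derivative_sub, derivative_X, derivative_C, sub_zero, eval_smul,
        eval_one, smul_eq_mul]
      field_simp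
    · simp

section main

variable (hp16 : 16 ≤ p) (P P0 : ℚ[X]) (u : ℕ → ℚ)
  (hP : ∀ c < p, ∀ w : ℤ, CP p P ((c : ℚ) + (p : ℚ) * (w : ℚ)) (u c) P0 w)

include hp16 hP in
theorem cg_cAB (m d : ℕ) (hm : m < 8) (hd : d < p) :
    Cg p ((p : ℚ) ^ 14 * cA (8 * p) P (m * p + d)) (u (p - 1 - d) * cA 8 P0 m) ∧
    Cg p ((p : ℚ) ^ 15 * cB (8 * p) P (m * p + d)) (u (p - 1 - d) * cB 8 P0 m) := by
  have h1 := un_dn hp16 m hm
  have h2 := hP (p - 1 - d) (by omega) (-((m : ℤ) + 1))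
  have h3 : (((p - 1 - d : ℕ) : ℚ) + (p : ℚ) * ((-((m : ℤ) + 1) : ℤ) : ℚ))
      = -(((m * p + d : ℕ) : ℚ) + 1) := by
    have : p - 1 - d + d + 1 = p := by omega
    have h4 : ((p - 1 - d : ℕ) : ℚ) + d + 1 = p := by exact_mod_cast this
    push_cast
    linear_combination h4
  have h3' : ((-((m : ℤ) + 1) : ℤ) : ℚ) = -((m : ℚ) + 1) := by push_cast; ring
  rw [h3, h3'] at h2
  have h5 := cg_Ep (p := p) d hd (-((m * p + d : ℕ) : ℤ) - 1) ⟨-(m : ℤ), by push_cast; ring⟩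
  have h0 := p_ne_zero (p := p)
  have h7 := h1.ne_zero
  have h8 := (h5.un Un.one).ne_zero
  have hA : Cg p ((p : ℚ) ^ 14 * cA (8 * p) P (m * p + d)) (u (p - 1 - d) * cA 8 P0 m) := by
    refine (h2.1.div ((h1.cg.mul h5).pow 2) ((h1.mul Un.one).pow 2)).congr ?_ ?_
    · unfold cA
      rw [dn_split d m hd hm]
      field_simp
    · unfold cA
      ring
  refine ⟨hA, ?_⟩
  have h9 := (h2.2.div ((h1.cg.mul h5).pow 2) ((h1.mul Un.one).pow 2)).sub
    (((Cg.int (p := p) 2).mul hA).mul (cg_sg hp16 m d hm hd))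
  refine h9.congr ?_ ?_
  · unfold cB
    rw [dn_split d m hd hm]
    push_cast
    field_simp
  · unfold cB
    push_cast
    ring

include hp16 hP in
theorem cg_L (a b : ℤ) (x : ℚ) (hx : Cg p x x) :
    Cg p ((p : ℚ) ^ 18 * L a b x (8 * p) P) (b * (∑ c ∈ range p, u c) * L 0 1 0 8 P0) := by
  unfold L
  rw [sum_range_mul' (fun j => cA (8 * p) P j * (x - 2 * a * H 3 j - 3 * b * H 4 j)
    + cB (8 * p) P j * (-(a * H 2 j) - b * H 3 j)) 8 p, mul_sum, mul_sum]
  refine Cg.sum _ fun m hm => ?_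
  have hm' := mem_range.mp hm
  rw [← sum_range_reflect u p, mul_sum, mul_sum, sum_mul]
  refine Cg.sum _ fun d hd => ?_
  have hd' := mem_range.mp hd
  obtain ⟨hA, hB⟩ := cg_cAB hp16 P P0 u hP m d hm' hd'
  have h2 := cg_H (p := p) 2 m d (by omega) (by omega) hd'
  have h3 := cg_H (p := p) 3 m d (by omega) (by omega) hd'
  have h4 := cg_H (p := p) 4 m d (by omega) (by omega) hd'
  have h5 := (Cg.p_mul ((((Cg.nat (p := p) p).pow 3).mul hx).sub
    ((Cg.int (p := p) (2 * a)).mul h3.left))).sub ((Cg.int (p := p) (3 * b)).mul h4)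
  have h6 := (Cg.p_mul ((Cg.int (p := p) (-a)).mul h2.left)).sub ((Cg.int (p := p) b).mul h3)
  exact ((hA.mul h5).add (hB.mul h6)).congr (by push_cast; ring) (by push_cast; ring)

end main

end Pool.Agent.P.MP_a89d6d_nt.Z34.Nonzero2
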